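import Pool.Agent.Helper37K9.RN.Fibre

/-!
Images under maps whose monodromy is multiply transitive.
-/

set_option autoImplicit false
set_option linter.overlappingInstances false
set_option linter.unusedSectionVars false

open FF Polynomial Pool.Agent.W602.GT Pool.Agent.W603.LV Pool.Agent.Y184.NT

namespace Pool.Agent.Helper37K9.RN

section

variable {L K : Type} [Field L] [Field K] [Algebra ℂ L] [Algebra ℂ K] [Algebra L K]
  [IsScalarTower ℂ L K] [FiniteDimensional L K] [hessK : Algebra.EssFiniteType ℂ K]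
  {n N m s : ℕ}

omit hessK in
theorem gen_up {x : Fin N → K} (hgen : IntermediateField.adjoin ℂ (Set.range x) = ⊤) :
    IntermediateField.adjoin L (Set.range x) = ⊤ := by
  rw [eq_top_iff]
  intro y _
  have h1 : y ∈ IntermediateField.adjoin ℂ (Set.range x) := by
    rw [hgen]
    trivial
  have h2 : IntermediateField.adjoin ℂ (Set.range x) ≤
      (IntermediateField.adjoin L (Set.range x)).restrictScalars ℂ := by
    rw [IntermediateField.adjoin_le_iff]
    exact IntermediateField.subset_adjoin L _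
  exact h2 h1

omit hessK in
theorem pts_inj {x : Fin N → K} (hgen : IntermediateField.adjoin ℂ (Set.range x) = ⊤)
    {Ω : Type} [Field Ω] [Algebra L Ω] {σ τ : K →ₐ[L] Ω}
    (h : ∀ i, pts L Ω x σ i = pts L Ω x τ i) : σ = τ := by
  have h1 := gen_up (L := L) hgen
  ext y
  have h2 : y ∈ IntermediateField.adjoin L (Set.range x) := by
    rw [h1]
    trivial
  induction h2 using IntermediateField.adjoin_induction with
  | mem y hy =>
    obtain ⟨i, rfl⟩ := hy
    exact h i
  | algebraMap c => rw [AlgHom.commutes, AlgHom.commutes]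
  | add a b _ _ ha hb => rw [map_add, map_add, ha, hb]
  | inv a _ ha => rw [map_inv₀, map_inv₀, ha]
  | mul a b _ _ ha hb => rw [map_mul, map_mul, ha, hb]

/-- the linear relation between the points of the generic fibre -/
theorem exists_relation (hL : Algebra.trdeg ℂ L = n) {x : Fin N → K}
    {ω : (Fin n → Derivation ℂ K K) → K} (hω : IsPluri 1 ω) (hω0 : ∃ D, ω D ≠ 0)
    (hreg : ∀ (f : Fin m → Fin N) (P : Place ℂ K), Divisorial n P →
      RegAt P (fun D => (∏ k, x (f k)) * ω D))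
    (hpg : ∀ ω : (Fin n → Derivation ℂ L L) → L, IsPluri 1 ω →
      (∀ P : Place ℂ L, Divisorial n P → RegAt P ω) → ∀ D, ω D = 0)
    (Ω : Type) [Field Ω] [Algebra L Ω] [IsAlgClosed Ω] :
    ∃ c : (K →ₐ[L] Ω) → Ω, (∀ σ, c σ ≠ 0) ∧ ∀ P : MvPolynomial (Fin N) Ω,
      P.IsHomogeneous m → ∑ σ, c σ * MvPolynomial.eval (pts L Ω x σ) P = 0 := by
  have hessL : Algebra.EssFiniteType ℂ L := Pool.Agent.TH466.QG.ess_below (K := K)
  have hcL : CharZero L := charZero_of_injective_algebraMap (algebraMap ℂ L).injective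
  obtain ⟨z, E, hz, hE⟩ := Pool.Agent.Y172.exists_crd (k := ℂ) (K := L) hL
  choose E' hE' using fun i => Pool.Agent.Y172.exists_lift (k := ℂ) (K := L) (L := K) hL (E i)
  have hzK : IsTranscendenceBasis ℂ (fun j => algebraMap L K (z j)) := hz.algebraMap_comp
  have hEKd := Pool.Agent.Y172.lift_dual hE hE'
  have hωE : ω E' ≠ 0 := by
    intro h0
    obtain ⟨D, hD⟩ := hω0
    apply hD
    rw [Pool.Agent.Y172.pluri_coord hzK hEKd hω D, h0, mul_zero]
  have hp : ∀ f : Fin m → Fin N, IsPluri 1 (fun D => (∏ k, x (f k)) * ω D) := by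
    intro f A D
    change (∏ k, x (f k)) * ω (fun i => ∑ j, A i j • D j) = _
    rw [hω A D]
    ring
  have htrc : ∀ f : Fin m → Fin N, Algebra.trace L K ((∏ k, x (f k)) * ω E') = 0 := fun f =>
    Pool.Agent.Y692.NT.t_Tr L K n hL hpg _ (hp f) (hreg f) E E' hE'
  refine ⟨fun σ => σ (ω E'), fun σ => (map_ne_zero σ).2 hωE, fun P hP =>
    relation_of_monomials (fun f => ?_) hP⟩
  have h1 := trace_eq_sum_embeddings Ω (K := L) (x := (∏ k, x (f k)) * ω E')
  rw [htrc f, map_zero] at h1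
  rw [h1]
  refine Finset.sum_congr rfl fun σ _ => ?_
  rw [map_mul, map_prod, mul_comm]
  rfl

theorem card_ge {x : Fin N → K} {Ω : Type} [Field Ω] [Algebra L Ω] [IsAlgClosed Ω]
    (hs : Module.finrank Ω (Submodule.span Ω (Set.range (pts L Ω x))) = s + 1) :
    s + 1 ≤ Fintype.card (K →ₐ[L] Ω) := by
  rw [← hs]
  exact finrank_range_le_card _

/-- images of degree at most `s m + 1` -/
theorem partA1 (hL : Algebra.trdeg ℂ L = n) {x : Fin N → K}
    {ω : (Fin n → Derivation ℂ K K) → K} (hω : IsPluri 1 ω) (hω0 : ∃ D, ω D ≠ 0)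
    (hreg : ∀ (f : Fin m → Fin N) (P : Place ℂ K), Divisorial n P →
      RegAt P (fun D => (∏ k, x (f k)) * ω D))
    (hpg : ∀ ω : (Fin n → Derivation ℂ L L) → L, IsPluri 1 ω →
      (∀ P : Place ℂ L, Divisorial n P → RegAt P ω) → ∀ D, ω D = 0)
    {Ω : Type} [Field Ω] [Algebra L Ω] [IsAlgClosed Ω] (hG : GenPos (F := Ω) (pts L Ω x) s)
    (hr : Module.finrank L K ≤ s * m + 1) : False := by
  classical
  have hcL : CharZero L := charZero_of_injective_algebraMap (algebraMap ℂ L).injective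
  obtain ⟨c, hc, hsum⟩ := exists_relation hL hω hω0 hreg hpg Ω
  have hcard : Fintype.card (K →ₐ[L] Ω) = Module.finrank L K := AlgHom.card L K Ω
  have h1 := card_ge hG.2
  have : Nonempty (K →ₐ[L] Ω) := Fintype.card_pos_iff.1 (by omega)
  refine not_sep hc hsum ?_
  exact hG.allSep' h1 m _ (by rw [Finset.card_univ]; omega)

/-- the generic fibre imposes few conditions on quadrics -/
theorem fewQ_of_genus (hL : Algebra.trdeg ℂ L = n) {x : Fin N → K}
    {ω : (Fin n → Derivation ℂ K K) → K} (hω : IsPluri 1 ω) (hω0 : ∃ D, ω D ≠ 0)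
    (hreg : ∀ (f : Fin m → Fin N) (P : Place ℂ K), Divisorial n P →
      RegAt P (fun D => (∏ k, x (f k)) * ω D))
    (hpg : ∀ ω : (Fin n → Derivation ℂ L L) → L, IsPluri 1 ω →
      (∀ P : Place ℂ L, Divisorial n P → RegAt P ω) → ∀ D, ω D = 0)
    {Ω : Type} [Field Ω] [Algebra L Ω] [IsAlgClosed Ω] (hG : GenPos (F := Ω) (pts L Ω x) s)
    (hU : Unif (pts L Ω x) s) (hr : Module.finrank L K ≤ s * m + m / 2 + 1) :
    FewQ Ω (pts L Ω x) s ∧ 2 ≤ m ∧ s * m + 1 < Module.finrank L K := by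
  classical
  have hcL : CharZero L := charZero_of_injective_algebraMap (algebraMap ℂ L).injective
  have hr2 : s * m + 1 < Module.finrank L K := by
    by_contra hcon
    exact partA1 hL hω hω0 hreg hpg hG (by omega)
  have hm : 2 ≤ m := by
    by_contra hcon
    have h0 : m / 2 = 0 := by omega
    omega
  obtain ⟨c, hc, hsum⟩ := exists_relation hL hω hω0 hreg hpg Ω
  have hcard : Fintype.card (K →ₐ[L] Ω) = Module.finrank L K := AlgHom.card L K Ω
  have h1 := card_ge hG.2
  have : Nonempty (K →ₐ[L] Ω) := Fintype.card_pos_iff.1 (by omega)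
  have h2 : s * 2 ≤ s * m := Nat.mul_le_mul_left s hm
  exact ⟨fewQ_of_relation hG h1 (by omega) hU (by omega) hc hsum, hm, hr2⟩

end

/-- The variety with generic point `x` is a component of the intersection of the hypersurfaces of
degree at most `k` which contain it. -/
def IsCut {K : Type} [Field K] [Algebra ℂ K] {N : ℕ} (k : ℕ) (x : Fin N → K) : Prop :=
  ∀ (R : Type) [Field R] [Algebra ℂ R] (y : Fin N → R),
    (∀ (e : ℕ) (G : MvPolynomial (Fin N) ℂ), e ≤ k → G.IsHomogeneous e →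
      MvPolynomial.aeval x G = 0 → MvPolynomial.aeval y G = 0) →
    (∀ (e : ℕ) (G : MvPolynomial (Fin N) ℂ), G.IsHomogeneous e →
      MvPolynomial.aeval y G = 0 → MvPolynomial.aeval x G = 0) →
    ∀ (e : ℕ) (G : MvPolynomial (Fin N) ℂ), G.IsHomogeneous e →
      MvPolynomial.aeval x G = 0 → MvPolynomial.aeval y G = 0

section

variable {L K : Type} [Field L] [Field K] [Algebra ℂ L] [Algebra ℂ K] [Algebra L K]
  [IsScalarTower ℂ L K] [FiniteDimensional L K] [hessK : Algebra.EssFiniteType ℂ K]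
  {n N m s k : ℕ}

/-- images of varieties which are cut out by hypersurfaces of low degree -/
theorem partA2 (hn : Algebra.trdeg ℂ K = n) {x : Fin N → K} {i0 : Fin N} (hi0 : x i0 = 1)
    (hgen : IntermediateField.adjoin ℂ (Set.range x) = ⊤)
    {ω : (Fin n → Derivation ℂ K K) → K} (hω : IsPluri 1 ω) (hω0 : ∃ D, ω D ≠ 0)
    (hreg : ∀ (f : Fin m → Fin N) (P : Place ℂ K), Divisorial n P →
      RegAt P (fun D => (∏ k, x (f k)) * ω D))
    (hpg : ∀ ω : (Fin n → Derivation ℂ L L) → L, IsPluri 1 ω →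
      (∀ P : Place ℂ L, Divisorial n P → RegAt P ω) → ∀ D, ω D = 0)
    (hG : GenPos (F := AlgebraicClosure L) (pts L (AlgebraicClosure L) x) s)
    (hU : Unif (pts L (AlgebraicClosure L) x) s)
    (hr : Module.finrank L K ≤ s * m + m / 2 + 1) (hcut : IsCut k x)
    (hk : s * (k + 1) ≤ Module.finrank L K) : False := by
  classical
  have hL : Algebra.trdeg ℂ L = n := trdeg_below (K := K) hn
  have hcL : CharZero L := charZero_of_injective_algebraMap (algebraMap ℂ L).injective
  have hcard : Fintype.card (K →ₐ[L] AlgebraicClosure L) = Module.finrank L K := AlgHom.card L K _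
  obtain ⟨hQ, hm, hr1⟩ := fewQ_of_genus hL hω hω0 hreg hpg hG hU hr
  have hs := hG.2
  have h2 : s * 2 ≤ s * m := Nat.mul_le_mul_left s hm
  obtain ⟨Ω, hΩ⟩ : ∃ Ω : Type, Ω = AlgebraicClosure L := ⟨_, rfl⟩
  -- two points
  have hinj : ∀ σ τ : K →ₐ[L] AlgebraicClosure L, (∀ i, pts L (AlgebraicClosure L) x σ i =
      pts L (AlgebraicClosure L) x τ i) → σ = τ := fun σ τ h => pts_inj hgen h
  have hs1 : 1 ≤ s := by
    by_contra hcon
    have hs0 : s = 0 := by omega
    subst hs0
    obtain ⟨σ, τ, hστ⟩ : ∃ σ τ : K →ₐ[L] AlgebraicClosure L, σ ≠ τ :=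
      Fintype.one_lt_card_iff.1 (by omega)
    apply hστ
    apply hinj
    obtain ⟨v, hv⟩ := (finrank_eq_one_iff' (K := AlgebraicClosure L) (V := Submodule.span
      (AlgebraicClosure L) (Set.range (pts L (AlgebraicClosure L) x)))).1 (by simpa using hs)
    obtain ⟨-, hv⟩ := hv
    obtain ⟨a, ha⟩ := hv ⟨_, Submodule.subset_span ⟨σ, rfl⟩⟩
    obtain ⟨b, hb⟩ := hv ⟨_, Submodule.subset_span ⟨τ, rfl⟩⟩
    have ha' : ∀ i, a * v.1 i = σ (x i) := fun i => congrFun (congrArg Subtype.val ha) i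
    have hb' : ∀ i, b * v.1 i = τ (x i) := fun i => congrFun (congrArg Subtype.val hb) i
    have h3 := ha' i0
    have h4 := hb' i0
    rw [hi0, map_one] at h3 h4
    have h5 : v.1 i0 ≠ 0 := by
      intro h0
      rw [h0, mul_zero] at h3
      exact zero_ne_one h3
    have h6 : a = b := mul_right_cancel₀ h5 (h3.trans h4.symm)
    intro i
    change σ (x i) = τ (x i)
    rw [← ha', ← hb', h6]
  obtain ⟨φ, t, q, hq, hφ, ht, hφt⟩ := exists_curve hG hQ hs1 (by omega)
  -- the curve is in the variety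
  obtain ⟨y, hy⟩ : ∃ y : Fin N → RatFunc (AlgebraicClosure L),
    y = fun i => algebraMap (AlgebraicClosure L)[X] _ (φ i) := ⟨_, rfl⟩
  have hyG : ∀ G : MvPolynomial (Fin N) ℂ, MvPolynomial.aeval y G =
      algebraMap (AlgebraicClosure L)[X] _ (MvPolynomial.aeval φ G) := by
    intro G
    have h5 := MvPolynomial.comp_aeval_apply (φ := (IsScalarTower.toAlgHom ℂ
      (AlgebraicClosure L)[X] (RatFunc (AlgebraicClosure L)))) φ G
    rw [hy]
    exact h5.symm
  have hyG0 : ∀ G : MvPolynomial (Fin N) ℂ, MvPolynomial.aeval y G = 0 ↔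
      MvPolynomial.aeval φ G = 0 := by
    intro G
    rw [hyG]
    exact map_eq_zero_iff _ (IsFractionRing.injective _ _)
  have hσG : ∀ (σ : K →ₐ[L] AlgebraicClosure L) (G : MvPolynomial (Fin N) ℂ),
      MvPolynomial.aeval (pts L (AlgebraicClosure L) x σ) G = σ (MvPolynomial.aeval x G) := by
    intro σ G
    have h5 := MvPolynomial.comp_aeval_apply (φ := σ.restrictScalars ℂ) x G
    exact h5.symm
  obtain ⟨p1, hp1, p2, hp2, hp12⟩ : ∃ p1 ∈ qᶜ, ∃ p2 ∈ qᶜ, p1 ≠ p2 := by
    refine Finset.one_lt_card.1 ?_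
    rw [Finset.card_compl]
    omega
  rw [Finset.mem_compl] at hp1 hp2
  have hlow : ∀ (e : ℕ) (G : MvPolynomial (Fin N) ℂ), e ≤ k → G.IsHomogeneous e →
      MvPolynomial.aeval x G = 0 → MvPolynomial.aeval y G = 0 := by
    intro e G he hG' hGx
    rw [hyG0]
    refine vanish hφ ht hφt hG' (fun σ => by rw [hσG, hGx, map_zero]) ?_
    have h3 : s * e ≤ s * k := Nat.mul_le_mul_left s he
    rw [Nat.mul_add, mul_one] at hk
    omega
  have hsp : ∀ (e : ℕ) (G : MvPolynomial (Fin N) ℂ), G.IsHomogeneous e →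
      MvPolynomial.aeval y G = 0 → MvPolynomial.aeval x G = 0 := by
    intro e G hG' hGy
    rw [hyG0] at hGy
    obtain ⟨c, hc0, hc⟩ := hφt p1 hp1
    have h3 : eval (t p1) (MvPolynomial.aeval φ G) = 0 := by rw [hGy, eval_zero]
    rw [eval_aeval] at h3
    simp only [hc] at h3
    rw [Pool.Agent.Y988.NT.aeval_smul_form hG', hσG] at h3
    exact (map_eq_zero p1).1 ((mul_eq_zero.1 h3).resolve_left (pow_ne_zero _ hc0))
  have hall := hcut (RatFunc (AlgebraicClosure L)) y hlow hsp
  obtain ⟨hy0, Φ, hΦ⟩ := exists_hom_proj x y hgen hi0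
    fun e G hG' => ⟨hall e G hG', hsp e G hG'⟩
  -- it is constant
  have hNLG : StNLG := Pool.Agent.Y944.NT.stNLG
    (Pool.Agent.Y297.NT.t_Pull Pool.Agent.Y71.NT.t_abh) Pool.Agent.Y929.NT.t_W0
    Pool.Agent.Y888.NT.stDer
  have hωr : ∀ P : Place ℂ K, Divisorial n P → RegAt P ω := by
    intro P hP
    have h1 := hreg (fun _ => i0) P hP
    simp only [hi0, Finset.prod_const_one, one_mul] at h1
    exact h1
  obtain ⟨z, E, hz, -⟩ := Pool.Agent.Y172.exists_crd (k := ℂ) (K := L) hL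
  have hzΩ : IsTranscendenceBasis ℂ (fun j => algebraMap L (AlgebraicClosure L) (z j)) :=
    hz.algebraMap_comp
  choose C hC using fun i => hNLG K (AlgebraicClosure L) n n hn _ hzΩ ω hω hωr hω0 Φ (x i)
  have hφC : ∀ i, φ i = Polynomial.C (C i) * φ i0 := by
    intro i
    have h3 := hC i
    rw [hΦ, hy, div_eq_iff (by rw [hy] at hy0; exact hy0)] at h3
    apply IsFractionRing.injective (AlgebraicClosure L)[X] (RatFunc (AlgebraicClosure L))
    rw [map_mul]
    exact h3
  have hpt : ∀ p, p ∉ q → ∀ i, pts L (AlgebraicClosure L) x p i = C i := by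
    intro p hp i
    obtain ⟨c, hc0, hc⟩ := hφt p hp
    have h3 := hc i
    have h4 := hc i0
    have h5 : pts L (AlgebraicClosure L) x p i0 = 1 := by
      change p (x i0) = 1
      rw [hi0, map_one]
    rw [h5, mul_one] at h4
    rw [hφC, eval_mul, eval_C, h4] at h3
    apply mul_left_cancel₀ hc0
    rw [← h3, mul_comm]
  exact hp12 (hinj _ _ fun i => by rw [hpt _ hp1, hpt _ hp2])

end

end Pool.Agent.Helper37K9.RN
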