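import Pool.Agent.Y184.NT.StD

/-!
Varieties with fibres on rational normal curves: statements of further parts of the proof.
-/

set_option autoImplicit false
set_option linter.overlappingInstances false

open FF Polynomial Pool.Agent.W602.GT Pool.Agent.Y184.NT

namespace Pool.Agent.Helper37K9.RN

/-- If `M` (with a canonical form `ω` such that all `A ω`, `A` of degree `m`, are regular) and `L`
(without regular canonical forms) are subfields of finite index of `K`, then the values of the
forms of degree `m` at the conjugates over `L` of the generic point of `M` satisfy a linear relation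
with coefficients different from zero. -/
def StRel : Prop := ∀ (M K L Ω : Type) [Field M] [Field K] [Field L] [Field Ω] [Algebra ℂ M]
  [Algebra ℂ K] [Algebra ℂ L] [Algebra L Ω] [Algebra M K] [Algebra L K] [IsScalarTower ℂ M K]
  [IsScalarTower ℂ L K] [FiniteDimensional M K] [FiniteDimensional L K] [IsAlgClosed Ω]
  [Algebra.EssFiniteType ℂ M] (n N m : ℕ) (x : Fin N → M), Algebra.trdeg ℂ M = n →
  ∀ ω : (Fin n → Derivation ℂ M M) → M, IsPluri 1 ω → (∃ D, ω D ≠ 0) →
  (∀ (f : Fin m → Fin N) (P : Place ℂ M), Divisorial n P →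
    RegAt P (fun D => (∏ k, x (f k)) * ω D)) →
  (∀ ω : (Fin n → Derivation ℂ L L) → L, IsPluri 1 ω →
    (∀ P : Place ℂ L, Divisorial n P → RegAt P ω) → ∀ D, ω D = 0) →
  ∃ c : (K →ₐ[L] Ω) → Ω, (∀ σ, c σ ≠ 0) ∧ ∀ P : MvPolynomial (Fin N) Ω,
    P.IsHomogeneous m →
    ∑ σ : K →ₐ[L] Ω, c σ * MvPolynomial.eval (fun i => σ (algebraMap M K (x i))) P = 0

/-- A variety of dimension `n` which is dominated by a rational variety of any dimension is
unirational. -/
def StCut : Prop := ∀ (L : Type) [Field L] [Algebra ℂ L] [Algebra.EssFiniteType ℂ L] (n N : ℕ),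
  Algebra.trdeg ℂ L = n → (L →ₐ[ℂ] FractionRing (MvPolynomial (Fin N) ℂ)) →
  Nonempty (L →ₐ[ℂ] FractionRing (MvPolynomial (Fin n) ℂ))

end Pool.Agent.Helper37K9.RN
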