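import Pool.Agent.Helper37K9.RN.Inv
import Pool.Agent.Helper37K9.RN.StB

/-!
The residual points.
-/

set_option autoImplicit false
set_option linter.unusedSectionVars false
set_option linter.overlappingInstances false

open Module Polynomial FF Pool.Agent.W602.GT

namespace Pool.Agent.Helper37K9.RN

section sep

variable {F ι J : Type} [Field F] {s : ℕ} {z : J → ι → F}

theorem Rnc.sep_one [Finite ι] (D : Rnc F z s) : AllSep 1 z (s + 1) := by
  classical
  have : Fintype ι := Fintype.ofFinite ι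
  intro S hS j hj
  obtain ⟨ℓ, hℓ, -⟩ := exists_dual D.ind
  obtain ⟨p, hp⟩ : ∃ p : F[X], p = ∏ i ∈ S.erase j, (X - C (D.t i)) := ⟨_, rfl⟩
  have hdeg : p.natDegree ≤ s := by
    rw [hp, natDegree_prod_of_monic _ _ fun i _ => monic_X_sub_C _]
    simp only [natDegree_X_sub_C, Finset.sum_const, smul_eq_mul, mul_one]
    rw [Finset.card_erase_of_mem hj]
    omega
  obtain ⟨f, hf⟩ : ∃ f : (ι → F) →ₗ[F] F, f = ∑ k : Fin (s + 1), p.coeff (k : ℕ) • ℓ k := ⟨_, rfl⟩
  have hfv : ∀ i, f (z i) = D.c i * eval (D.t i) p := by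
    intro i
    have h1 : z i = ∑ k : Fin (s + 1), (D.c i * D.t i ^ (k : ℕ)) • D.w k := by
      funext a
      rw [D.eq i a, Finset.sum_apply, Finset.mul_sum]
      refine Finset.sum_congr rfl fun k _ => ?_
      rw [Pi.smul_apply, smul_eq_mul]
      ring
    have h2 : ∀ k, ℓ k (z i) = D.c i * D.t i ^ (k : ℕ) := by
      intro k
      rw [h1, map_sum, Finset.sum_eq_single k]
      · rw [map_smul, hℓ, if_pos rfl, smul_eq_mul, mul_one]
      · intro k' _ hk'
        rw [map_smul, hℓ, if_neg (Ne.symm hk'), smul_zero]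
      · intro h
        exact absurd (Finset.mem_univ k) h
    rw [hf, LinearMap.sum_apply, eval_eq_sum_range' (Nat.lt_succ_of_le hdeg), Finset.sum_range,
      Finset.mul_sum]
    refine Finset.sum_congr rfl fun k _ => ?_
    rw [LinearMap.smul_apply, smul_eq_mul, h2]
    ring
  refine ⟨linForm f, linForm_hom f, ?_, fun i hi hij => ?_⟩
  · rw [eval_linForm, hfv, hp, eval_prod]
    refine mul_ne_zero (D.c_ne j) (Finset.prod_ne_zero_iff.2 fun i hi => ?_)
    rw [eval_sub, eval_X, eval_C, sub_ne_zero]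
    intro h
    exact (Finset.ne_of_mem_erase hi) (D.t_inj h).symm
  · rw [eval_linForm, hfv, hp, eval_prod, Finset.prod_eq_zero (Finset.mem_erase.2 ⟨hij, hi⟩),
      mul_zero]
    rw [eval_sub, eval_X, eval_C, sub_self]

theorem Rnc.sep [Finite ι] (D : Rnc F z s) (m : ℕ) : AllSep m z (s * m + 1) := by
  induction m with
  | zero => simpa using allSep_zero
  | succ m ih =>
    have h1 := AllSep.add ih D.sep_one
    have e1 : s * (m + 1) + 1 = s * m + s + 1 := by ring
    rw [e1]
    exact h1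

end sep

/-- points which satisfy the quadratic relations of the curve -/
theorem curve_point {R : Type} [Field R] [Algebra ℂ R] {N s d : ℕ} {w : Fin (s + 1) → Fin N → R}
    (hs : 1 ≤ s) {G : MvPolynomial (Fin N) ℂ} (hG : G.IsHomogeneous d)
    (hw : MvPolynomial.aeval (w (Fin.last s)) G ≠ 0) {y : Fin (s + 1) → R} (hy : QRel y)
    {v : Fin N → R} (hv : ∀ i, v i = ∑ k, y k * w k i) (hv0 : v ≠ 0)
    (hGv : MvPolynomial.aeval v G = 0) :
    ∃ e b : R, e ≠ 0 ∧ ∀ i, v i = e * ∑ k : Fin (s + 1), b ^ (k : ℕ) * w k i := by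
  classical
  have hy0 : y 0 ≠ 0 := by
    intro h0
    have h1 : v = fun i => y (Fin.last s) * w (Fin.last s) i := by
      funext i
      rw [hv, Finset.sum_eq_single (Fin.last s)]
      · intro k _ hk
        have h2 : (k : ℕ) < s := by
          have h3 : (k : ℕ) ≠ s := fun h4 => hk (Fin.ext h4)
          omega
        rw [hy.zero h0 k h2, zero_mul]
      · intro h
        exact absurd (Finset.mem_univ _) h
    rw [h1, Pool.Agent.Y988.NT.aeval_smul_form hG] at hGv
    have h3 := (mul_eq_zero.1 hGv).resolve_right hw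
    have h4 : y (Fin.last s) = 0 := by
      by_contra h5
      exact pow_ne_zero d h5 h3
    apply hv0
    rw [h1]
    funext i
    rw [h4, zero_mul]
    rfl
  refine ⟨y 0, y ⟨1, by omega⟩ / y 0, hy0, fun i => ?_⟩
  rw [hv, Finset.mul_sum]
  refine Finset.sum_congr rfl fun k _ => ?_
  rw [hy.pow hs hy0 k]
  ring

section

variable {L L' K K'' : Type} [Field L] [Field L'] [Field K] [Field K''] [Algebra ℂ L]
  [Algebra ℂ L'] [Algebra ℂ K] [Algebra ℂ K''] [Algebra L L'] [Algebra L K] [Algebra L K'']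
  [Algebra L' K''] [IsScalarTower ℂ L L'] [IsScalarTower ℂ L K] [IsScalarTower ℂ L K'']
  [IsScalarTower L L' K''] [IsScalarTower ℂ L' K'']
  [FiniteDimensional L K] [FiniteDimensional L K''] [FiniteDimensional L L'] [IsGalois L L']
  [hessK : Algebra.EssFiniteType ℂ K] {n N s m d : ℕ} {x : Fin N → K}

/-- the values of the curve -/
theorem eval₂_crv {F R : Type} [Field F] [Field R] (f : F →+* R) (w : Fin (s + 1) → Fin N → F)
    (i : Fin N) (t : R) :
    eval₂ f t (crv w i) = ∑ k : Fin (s + 1), t ^ (k : ℕ) * f (w k i) := by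
  rw [crv, eval₂_finsetSum]
  refine Finset.sum_congr rfl fun k _ => ?_
  rw [eval₂_mul, eval₂_C, eval₂_pow, eval₂_X, mul_comm]

/-- proportional points of the curve are equal -/
theorem param_inj {R : Type} [Field R] {w : Fin (s + 1) → Fin N → R}
    (hw : LinearIndependent R w) (hs : 1 ≤ s) {a b e : R}
    (h : ∀ i, ∑ k : Fin (s + 1), a ^ (k : ℕ) * w k i =
      e * ∑ k : Fin (s + 1), b ^ (k : ℕ) * w k i) : a = b := by
  have h1 := Fintype.linearIndependent_iff.1 hw (fun k => a ^ (k : ℕ) - e * b ^ (k : ℕ)) (by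
    funext i
    rw [Finset.sum_apply]
    simp only [Pi.smul_apply, smul_eq_mul, Pi.zero_apply, sub_mul, Finset.sum_sub_distrib]
    rw [h i, Finset.mul_sum, sub_eq_zero]
    exact Finset.sum_congr rfl fun k _ => by ring)
  have h2 := h1 0
  have h3 := h1 ⟨1, by omega⟩
  simp only [Fin.val_zero, pow_zero, mul_one, pow_one] at h2 h3
  have h4 : e = 1 := by linear_combination -h2
  rw [h4] at h3
  linear_combination h3

/-- extension of scalars -/
theorem ind_ext {F R κ : Type} [Field F] [Field R] [Fintype κ] (f : F →+* R)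
    {w : κ → Fin N → F} (hw : LinearIndependent F w) :
    LinearIndependent R fun k i => f (w k i) := by
  classical
  obtain ⟨ℓ, hℓ, -⟩ := exists_dual hw
  rw [Fintype.linearIndependent_iff]
  intro a ha j
  have h1 : ∀ k, f (ℓ j (w k)) = ∑ i, f (ℓ j (Pi.single i 1)) * f (w k i) := by
    intro k
    conv_lhs => rw [← Finset.univ_sum_single (w k), map_sum, map_sum]
    refine Finset.sum_congr rfl fun i _ => ?_
    have h2 : (Pi.single i (w k i) : Fin N → F) = w k i • Pi.single i (1 : F) := by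
      rw [← Pi.single_smul, smul_eq_mul, mul_one]
    rw [h2, map_smul, smul_eq_mul, map_mul, mul_comm]
  have h3 : ∑ k, a k * f (ℓ j (w k)) = 0 := by
    simp only [h1, Finset.mul_sum]
    rw [Finset.sum_comm]
    refine Finset.sum_eq_zero fun i _ => ?_
    have h4 := congrFun ha i
    rw [Finset.sum_apply] at h4
    simp only [Pi.smul_apply, smul_eq_mul, Pi.zero_apply] at h4
    have h5 : ∑ k, a k * (f (ℓ j (Pi.single i 1)) * f (w k i)) =
        f (ℓ j (Pi.single i 1)) * ∑ k, a k * f (w k i) := by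
      rw [Finset.mul_sum]
      exact Finset.sum_congr rfl fun k _ => by ring
    rw [h5, h4, mul_zero]
  rw [Finset.sum_eq_single j] at h3
  · rw [hℓ, if_pos rfl, map_one, mul_one] at h3
    exact h3
  · intro k _ hk
    rw [hℓ, if_neg (Ne.symm hk), map_zero, mul_zero]
  · intro h
    exact absurd (Finset.mem_univ j) h

/-- the top coefficient -/
theorem coeff_top {F : Type} [Field F] [Algebra ℂ F] {φ : Fin N → F[X]}
    (hφ : ∀ i, (φ i).natDegree ≤ s) {G : MvPolynomial (Fin N) ℂ} (hG : G.IsHomogeneous d) :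
    (MvPolynomial.aeval φ G).coeff (d * s) =
      MvPolynomial.aeval (fun i => (φ i).coeff s) G := by
  classical
  rw [MvPolynomial.aeval_def, MvPolynomial.eval₂_eq, MvPolynomial.aeval_def,
    MvPolynomial.eval₂_eq, finsetSum_coeff]
  refine Finset.sum_congr rfl fun e he => ?_
  have h3 : e.degree = d := by
    rw [Finsupp.degree_eq_weight_one]
    exact hG (MvPolynomial.mem_support_iff.1 he)
  obtain ⟨f, hf⟩ := exists_index e h3
  have h4 := hf φ
  have h5 := hf (fun i => (φ i).coeff s)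
  rw [Finsupp.prod] at h4 h5
  rw [← h4, ← h5]
  have h6 : algebraMap ℂ F[X] (MvPolynomial.coeff e G) = C (algebraMap ℂ F
    (MvPolynomial.coeff e G)) := rfl
  rw [h6, coeff_C_mul]
  congr 1
  have h7 := coeff_prod_of_natDegree_le (s := (Finset.univ : Finset (Fin d)))
    (fun k => φ (f k)) s (fun k _ => hφ (f k))
  rw [Finset.card_univ, Fintype.card_fin] at h7
  exact h7

theorem coeff_crv {F : Type} [Field F] (w : Fin (s + 1) → Fin N → F) (i : Fin N) :
    (crv w i).coeff s = w (Fin.last s) i := by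
  rw [crv, finsetSum_coeff, Finset.sum_eq_single (Fin.last s)]
  · rw [coeff_C_mul, coeff_X_pow, if_pos (by simp), mul_one]
  · intro k _ hk
    rw [coeff_C_mul, coeff_X_pow, if_neg, mul_zero]
    intro h
    exact hk (Fin.ext (by simpa using h.symm))
  · intro h
    exact absurd (Finset.mem_univ _) h

/-- **The residual points.** -/
theorem residual (hRel : StRel) (hs : 1 ≤ s) (hK : Algebra.trdeg ℂ K = n)
    {i0 : Fin N} (hi0 : x i0 = 1) (hgen : IntermediateField.adjoin ℂ (Set.range x) = ⊤)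
    {ω : (Fin n → Derivation ℂ K K) → K} (hω : IsPluri 1 ω) (hω0 : ∃ D, ω D ≠ 0)
    (hreg : ∀ (f : Fin m → Fin N) (P : Place ℂ K), Divisorial n P →
      RegAt P (fun D => (∏ k, x (f k)) * ω D))
    (hpg : ∀ ω : (Fin n → Derivation ℂ L L) → L, IsPluri 1 ω →
      (∀ P : Place ℂ L, Divisorial n P → RegAt P ω) → ∀ D, ω D = 0)
    (D : Rnc L' (pts L L' x) s) (hcard : 2 * s < Fintype.card (K →ₐ[L] L'))
    {G : MvPolynomial (Fin N) ℂ} (hG : G.IsHomogeneous d) (hGx : MvPolynomial.aeval x G = 0)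
    (hGw : MvPolynomial.aeval (D.w (Fin.last s)) G ≠ 0)
    (hdeg : s * d ≤ Fintype.card (K →ₐ[L] L') + (s * m + 1))
    (ρ : K'') (hρ : eval₂ (algebraMap L' K'') ρ (crv D.w i0) ≠ 0)
    (ψ : K →ₐ[ℂ] K'') (hψ : ∀ i, ψ (x i) = eval₂ (algebraMap L' K'') ρ (crv D.w i) /
      eval₂ (algebraMap L' K'') ρ (crv D.w i0)) :
    ∃ σ, ρ = algebraMap L' K'' (D.t σ) := by
  classical
  by_contra hcon
  push Not at hcon
  -- the field generated by the residual point
  obtain ⟨K0, hK0⟩ : ∃ K0 : IntermediateField L K'',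
    K0 = IntermediateField.adjoin L (Set.range fun i => ψ (x i)) := ⟨_, rfl⟩
  have hxK0 : ∀ i, ψ (x i) ∈ K0 := fun i => by
    rw [hK0]
    exact IntermediateField.subset_adjoin L _ ⟨i, rfl⟩
  have hψK0 : ∀ y, ψ y ∈ K0 := by
    intro y
    have h1 : y ∈ IntermediateField.adjoin ℂ (Set.range x) := by
      rw [hgen]
      trivial
    have h2 : IntermediateField.adjoin ℂ (Set.range x) ≤ (K0.restrictScalars ℂ).comap ψ := by
      rw [IntermediateField.adjoin_le_iff]
      rintro _ ⟨i, rfl⟩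
      exact hxK0 i
    exact h2 h1
  obtain ⟨ψ0, hψ0⟩ : ∃ ψ0 : K →ₐ[ℂ] K0, ∀ y, (ψ0 y : K'') = ψ y :=
    ⟨AlgHom.codRestrict ψ (K0.restrictScalars ℂ).toSubalgebra hψK0, fun _ => rfl⟩
  let _ : Algebra K K0 := ψ0.toAlgebra
  have hst : IsScalarTower ℂ K K0 := IsScalarTower.of_algebraMap_eq fun c => (ψ0.commutes c).symm
  have hessL : Algebra.EssFiniteType ℂ L := Pool.Agent.TH466.QG.ess_below (K := K)
  have hL : Algebra.trdeg ℂ L = n := Pool.Agent.Y184.NT.trdeg_below (K := K) hK
  have hstK0 : IsScalarTower ℂ L K0 := inferInstance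
  have hess0 : Algebra.EssFiniteType ℂ K0 := Algebra.EssFiniteType.comp ℂ L K0
  have htr0 : Algebra.trdeg ℂ K0 = n := Pool.Agent.Y172.trdeg_up (K := L) hL
  have hfin0 : FiniteDimensional K K0 := Pool.Agent.Helper37K9.CI.finite_of_trdeg hK htr0
  obtain ⟨c, hc, hrel⟩ := hRel K K0 L (AlgebraicClosure K'') n N m x hK ω hω hω0 hreg hpg
  -- the extensions of the embeddings
  have hext : ∀ τ : K0 →ₐ[L] AlgebraicClosure K'', ∃ τ' : K'' →ₐ[L] AlgebraicClosure K'',
      ∀ y : K0, τ' (y : K'') = τ y := by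
    intro τ
    obtain ⟨τ', hτ'⟩ := IntermediateField.exists_algHom_of_splits (F := L) (E := K'')
      (K := AlgebraicClosure K'') (fun y => ⟨Algebra.IsIntegral.isIntegral y,
        IsAlgClosed.splits _⟩) τ
    exact ⟨τ', fun y => DFunLike.congr_fun hτ' y⟩
  choose ext hext using hext
  obtain ⟨iΩ, hiΩ⟩ : ∃ iΩ : L' →+* AlgebraicClosure K'',
    iΩ = algebraMap L' (AlgebraicClosure K'') := ⟨_, rfl⟩
  have hg : ∀ τ : K0 →ₐ[L] AlgebraicClosure K'', ∃ g : L' ≃ₐ[L] L', ∀ l : L',
      ext τ (algebraMap L' K'' l) = iΩ (g l) := by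
    intro τ
    refine ⟨(AlgEquiv.ofBijective _ (Algebra.IsAlgebraic.algHom_bijective
      (((ext τ).restrictNormal L')))), fun l => ?_⟩
    rw [hiΩ]
    exact ((ext τ).restrictNormal_commutes L' l).symm
  choose g hg using hg
  obtain ⟨wΩ, hwΩ⟩ : ∃ wΩ : Fin (s + 1) → Fin N → AlgebraicClosure K'',
    wΩ = fun k i => iΩ (D.w k i) := ⟨_, rfl⟩
  have hindΩ : LinearIndependent (AlgebraicClosure K'') wΩ := by
    rw [hwΩ]
    exact ind_ext iΩ D.ind
  have hGiΩ : ∀ v : Fin N → L', MvPolynomial.aeval (fun i => iΩ (v i)) G =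
      iΩ (MvPolynomial.aeval v G) := by
    intro v
    rw [hiΩ]
    exact MvPolynomial.aeval_algebraMap_apply (AlgebraicClosure K'') v G
  have hGΩ : MvPolynomial.aeval (wΩ (Fin.last s)) G ≠ 0 := by
    rw [hwΩ]
    change MvPolynomial.aeval (fun i => iΩ (D.w (Fin.last s) i)) G ≠ 0
    rw [hGiΩ]
    exact (map_ne_zero iΩ).2 hGw
  have hψG : MvPolynomial.aeval (fun i => ψ (x i)) G = 0 := by
    have h1 := MvPolynomial.comp_aeval_apply (φ := ψ) x G
    rw [hGx, map_zero] at h1
    exact h1.symm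
  have hGρ : MvPolynomial.aeval (fun i => eval₂ (algebraMap L' K'') ρ (crv D.w i)) G = 0 := by
    have h1 : (fun i => eval₂ (algebraMap L' K'') ρ (crv D.w i)) =
        fun i => eval₂ (algebraMap L' K'') ρ (crv D.w i0) * ψ (x i) := by
      funext i
      rw [hψ, mul_div_cancel₀ _ hρ]
    rw [h1, Pool.Agent.Y988.NT.aeval_smul_form hG, hψG, mul_zero]
  -- the points are on the curve
  have hpt : ∀ τ : K0 →ₐ[L] AlgebraicClosure K'', ∃ e b : AlgebraicClosure K'', e ≠ 0 ∧
      ∀ i, τ (algebraMap K K0 (x i)) = e * ∑ k : Fin (s + 1), b ^ (k : ℕ) * wΩ k i := by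
    intro τ
    obtain ⟨Y, hY1, hY2, -⟩ := conj_curve D hcard (g τ)
    have hval : ∀ i, ext τ (eval₂ (algebraMap L' K'') ρ (crv D.w i)) =
        ∑ k, eval₂ iΩ (ext τ ρ) (Y k) * wΩ k i := by
      intro i
      have h1 : ext τ (eval₂ (algebraMap L' K'') ρ (crv D.w i)) =
          eval₂ iΩ (ext τ ρ) ((crv D.w i).map (g τ : L' →+* L')) := by
        change (ext τ : K'' →+* AlgebraicClosure K'') _ = _
        rw [hom_eval₂, eval₂_map]
        congr 1
        ext l
        exact hg τ l
      rw [h1, hY1, eval₂_finsetSum]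
      refine Finset.sum_congr rfl fun k _ => ?_
      rw [eval₂_mul, eval₂_C, hwΩ]
    have hv0 : ext τ (eval₂ (algebraMap L' K'') ρ (crv D.w i0)) ≠ 0 := by
      rw [Ne, map_eq_zero]
      exact hρ
    obtain ⟨e', b, he', hb⟩ := curve_point hs hG hGΩ
      (y := fun k => eval₂ iΩ (ext τ ρ) (Y k)) (hY2.map (eval₂RingHom iΩ (ext τ ρ)))
      (v := fun i => ext τ (eval₂ (algebraMap L' K'') ρ (crv D.w i))) hval
      (fun h => hv0 (congrFun h i0)) (by
        have h1 := MvPolynomial.comp_aeval_apply (φ := (ext τ).restrictScalars ℂ)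
          (fun i => eval₂ (algebraMap L' K'') ρ (crv D.w i)) G
        rw [hGρ, map_zero] at h1
        exact h1.symm)
    refine ⟨e' / ext τ (eval₂ (algebraMap L' K'') ρ (crv D.w i0)), b, div_ne_zero he' hv0,
      fun i => ?_⟩
    have h1 : τ (algebraMap K K0 (x i)) = ext τ (ψ (x i)) := by
      rw [← hψ0, hext]
      rfl
    rw [h1, hψ, map_div₀, hb i, div_mul_eq_mul_div]
  choose e b he hb using hpt
  have hτ1 : ∀ τ : K0 →ₐ[L] AlgebraicClosure K'', τ (algebraMap K K0 (x i0)) = 1 := by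
    intro τ
    rw [hi0, map_one, map_one]
  have hbinj : Function.Injective b := by
    intro τ τ' hbb
    have h1 := hb τ i0
    have h2 := hb τ' i0
    rw [hτ1] at h1 h2
    rw [← hbb] at h2
    have h3 : e τ = e τ' := by
      have h4 : (∑ k : Fin (s + 1), b τ ^ (k : ℕ) * wΩ k i0) ≠ 0 := by
        intro h0
        rw [h0, mul_zero] at h1
        exact one_ne_zero h1
      exact mul_right_cancel₀ h4 (h1.symm.trans h2)
    refine IntermediateField.algHom_ext_of_eq_adjoin L hK0 ?_
    rintro _ ⟨i, rfl⟩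
    have h4 := hb τ i
    have h5 := hb τ' i
    rw [← hbb, ← h3, ← h4] at h5
    have h6 : (⟨ψ (x i), hxK0 i⟩ : K0) = algebraMap K K0 (x i) := Subtype.ext (hψ0 (x i)).symm
    change τ ⟨ψ (x i), hxK0 i⟩ = τ' ⟨ψ (x i), hxK0 i⟩
    rw [h6]
    exact h5.symm
  have D0 : Rnc (AlgebraicClosure K'') (fun (τ : K0 →ₐ[L] AlgebraicClosure K'') i =>
      τ (algebraMap K K0 (x i))) s :=
    { w := wΩ, ind := hindΩ, t := b, c := e, c_ne := he, t_inj := hbinj, eq := hb }
  have hGσ : ∀ σ : K →ₐ[L] L', MvPolynomial.aeval (fun i => eval (D.t σ) (crv D.w i)) G = 0 := by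
    intro σ
    have h1 : MvPolynomial.aeval (pts L L' x σ) G = 0 := by
      have h2 := MvPolynomial.comp_aeval_apply (φ := σ.restrictScalars ℂ) x G
      rw [hGx, map_zero] at h2
      exact h2.symm
    have h2 : pts L L' x σ = fun i => D.c σ * eval (D.t σ) (crv D.w i) := by
      funext i
      rw [eval_crv]
      exact D.eq σ i
    rw [h2, Pool.Agent.Y988.NT.aeval_smul_form hG] at h1
    exact (mul_eq_zero.1 h1).resolve_left (pow_ne_zero _ (D.c_ne σ))
  have hne : ∀ τ σ, b τ ≠ iΩ (D.t σ) := by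
    intro τ σ hbt
    have h1 : ∀ i, τ (algebraMap K K0 (x i)) = e τ * (iΩ (D.c σ))⁻¹ * iΩ (σ (x i)) := by
      intro i
      rw [hb τ i, hbt]
      have h2 : σ (x i) = D.c σ * ∑ k : Fin (s + 1), D.t σ ^ (k : ℕ) * D.w k i := D.eq σ i
      have h3 : iΩ (D.c σ) ≠ 0 := (map_ne_zero iΩ).2 (D.c_ne σ)
      rw [h2, map_mul, map_sum, hwΩ, mul_assoc, inv_mul_cancel_left₀ h3]
      congr 1
      refine Finset.sum_congr rfl fun k _ => ?_
      rw [map_mul, map_pow]
    have h2 : e τ * (iΩ (D.c σ))⁻¹ = 1 := by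
      have h3 := h1 i0
      rw [hτ1, hi0, map_one, map_one, mul_one] at h3
      exact h3.symm
    have h3 : ∀ i, ψ (x i) = algebraMap L' K'' ((g τ).symm (σ (x i))) := by
      intro i
      apply (ext τ).injective
      change ext τ (ψ (x i)) = ext τ (algebraMap L' K'' ((g τ).symm (σ (x i))))
      rw [hg, AlgEquiv.apply_symm_apply]
      have h4 := h1 i
      rw [h2, one_mul] at h4
      rw [← h4, ← hψ0, hext]
      rfl
    obtain ⟨σ', hσ'⟩ : ∃ σ' : K →ₐ[L] L', σ' = ((g τ).symm : L' →ₐ[L] L').comp σ := ⟨_, rfl⟩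
    refine hcon σ' (param_inj (ind_ext (algebraMap L' K'') D.ind) hs
      (e := eval₂ (algebraMap L' K'') ρ (crv D.w i0) * algebraMap L' K'' (D.c σ')) fun i => ?_)
    have h5 := hψ i
    rw [h3, eq_div_iff hρ] at h5
    have h6 : (g τ).symm (σ (x i)) = D.c σ' * ∑ k : Fin (s + 1), D.t σ' ^ (k : ℕ) * D.w k i := by
      have h7 := D.eq σ' i
      rw [← h7, hσ']
      rfl
    rw [h6, map_mul, map_sum] at h5
    rw [← eval₂_crv, ← h5]
    have h8 : ∑ k : Fin (s + 1), algebraMap L' K'' (D.t σ') ^ (k : ℕ) *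
        algebraMap L' K'' (D.w k i) =
        ∑ k : Fin (s + 1), algebraMap L' K'' (D.t σ' ^ (k : ℕ) * D.w k i) :=
      Finset.sum_congr rfl fun k _ => by rw [map_mul, map_pow]
    rw [h8]
    ring
  -- the number of the residual points
  have hJ1 : s * m + 1 < Fintype.card (K0 →ₐ[L] AlgebraicClosure K'') := by
    by_contra hcon2
    have : Nonempty (K0 →ₐ[L] AlgebraicClosure K'') :=
      ⟨(IsScalarTower.toAlgHom L K'' (AlgebraicClosure K'')).comp K0.val⟩
    exact not_sep hc hrel (D0.sep m _ (by rw [Finset.card_univ]; omega))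
  obtain ⟨f, hf⟩ : ∃ f : (K0 →ₐ[L] AlgebraicClosure K'') ⊕ (K →ₐ[L] L') → AlgebraicClosure K'',
    f = Sum.elim b (fun σ => iΩ (D.t σ)) := ⟨_, rfl⟩
  have hfinj : Function.Injective f := by
    rw [hf]
    rintro (τ | σ) (τ' | σ') h
    · rw [hbinj h]
    · exact absurd h (hne _ _)
    · exact absurd h.symm (hne _ _)
    · rw [D.t_inj (iΩ.injective h)]
  have hzero := eq_zero_of_natDegree_lt_card_of_eval_eq_zero
    (MvPolynomial.aeval (crv wΩ) G) hfinj (by
      rw [hf]
      rintro (τ | σ)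
      · change eval (b τ) _ = 0
        rw [eval_aeval]
        have h1 : MvPolynomial.aeval (fun i => τ (algebraMap K K0 (x i))) G = 0 := by
          have h2 := MvPolynomial.comp_aeval_apply (φ := (τ.restrictScalars ℂ).comp ψ0) x G
          rw [hGx, map_zero] at h2
          exact h2.symm
        have h2 : (fun i => τ (algebraMap K K0 (x i))) =
            fun i => e τ * eval (b τ) (crv wΩ i) := by
          funext i
          rw [eval_crv]
          exact hb τ i
        rw [h2, Pool.Agent.Y988.NT.aeval_smul_form hG] at h1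
        exact (mul_eq_zero.1 h1).resolve_left (pow_ne_zero _ (he τ))
      · change eval (iΩ (D.t σ)) _ = 0
        rw [eval_aeval]
        have h2 : (fun i => eval (iΩ (D.t σ)) (crv wΩ i)) =
            fun i => iΩ (eval (D.t σ) (crv D.w i)) := by
          funext i
          rw [eval_crv, eval_crv, map_sum, hwΩ]
          refine Finset.sum_congr rfl fun k _ => ?_
          rw [map_mul, map_pow]
        rw [h2, hGiΩ, hGσ, map_zero]) (by
      refine (natDegree_aeval_le (natDegree_crv wΩ) hG).trans_lt ?_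
      rw [Fintype.card_sum]
      omega)
  apply hGΩ
  have h1 := coeff_top (natDegree_crv wΩ) hG
  rw [hzero, coeff_zero] at h1
  have h2 : (fun i => (crv wΩ i).coeff s) = wΩ (Fin.last s) := by
    funext i
    rw [coeff_crv]
  rw [h2] at h1
  exact h1.symm

end

end Pool.Agent.Helper37K9.RN
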