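import Pool.Agent.Y184.NT.StD

/-!
Varieties with fibres on rational normal curves: statements of parts of the proof.
-/

set_option autoImplicit false

open FF Polynomial Pool.Agent.W602.GT Pool.Agent.Y184.NT

namespace Pool.Agent.Helper37K9.RN

/-- The residue field of a place of `L(T)` which is not trivial on `L` is ruled: the places of
`L(T)` at which the point with the coordinates `φ j` specialises to the generic point of a variety
of dimension `n = dim L` with a regular canonical form are trivial on `L`. -/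
def StRuled : Prop := ∀ (L K : Type) [Field L] [Algebra ℂ L] [Field K] [Algebra ℂ K]
  [Algebra.EssFiniteType ℂ K] (n N : ℕ), 1 ≤ n → Algebra.trdeg ℂ L = n → Algebra.trdeg ℂ K = n →
  ∀ ω : (Fin n → Derivation ℂ K K) → K, IsPluri 1 ω →
  (∀ P : Place ℂ K, Divisorial n P → RegAt P ω) → (∃ D, ω D ≠ 0) →
  ∀ x : Fin N → K, IntermediateField.adjoin ℂ (Set.range x) = ⊤ →
  ∀ (w : Place ℂ (RatFunc L)) (φ : Fin N → L[X]), (∀ j, (φ j).Splits) → ∀ i0 : Fin N, φ i0 ≠ 0 →
  ∀ u : Fin N → RatFunc L,
  (∀ j, u j = algebraMap L[X] (RatFunc L) (φ j) / algebraMap L[X] (RatFunc L) (φ i0)) →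
  (∀ j, w.Reg (u j)) →
  (∀ G : MvPolynomial (Fin N) ℂ, MvPolynomial.aeval x G = 0 →
    MvPolynomial.aeval u G = 0 ∨ 1 ≤ w.ord (MvPolynomial.aeval u G)) →
  (∀ G : MvPolynomial (Fin N) ℂ, MvPolynomial.aeval x G ≠ 0 → MvPolynomial.aeval u G ≠ 0 ∧
    w.ord (MvPolynomial.aeval u G) = 0) →
  ∀ l : L, l ≠ 0 → w.ord (algebraMap L (RatFunc L) l) = 0

/-- A field `B` between `L` and `L'(T)`, `L'` Galois over `L`, with `B ∩ L' = L`. -/
def StDisj : Prop := ∀ (L L' : Type) [Field L] [Field L'] [CharZero L] [Algebra L L']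
  [FiniteDimensional L L'] [IsGalois L L'] (B : IntermediateField L (RatFunc L')),
  FiniteDimensional B (RatFunc L') →
  (∀ l : L', algebraMap L' (RatFunc L') l ∈ B → l ∈ (algebraMap L L').range) →
  Module.finrank L L' ≤ Module.finrank B (RatFunc L')

end Pool.Agent.Helper37K9.RN
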