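import Pool.Agent.Helper37K9.RN.Res
import Pool.Agent.Helper37K9.RN.St
import Pool.Agent.Y184.NT.Cong3

/-!
The places over the variety.
-/

set_option autoImplicit false
set_option linter.unusedSectionVars false
set_option linter.overlappingInstances false

open Module Polynomial FF Pool.Agent.W602.GT Pool.Agent.W603.LV Pool.Agent.Y184.NT

namespace Pool.Agent.Helper37K9.RN

section

variable {L' : Type} [Field L'] [Algebra ℂ L'] {N s d : ℕ}

/-- the variable is regular at the places over the hypersurface -/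
theorem X_reg' {w : Place ℂ (RatFunc L')}
    (hw : ∀ l : L', l ≠ 0 → w.ord (algebraMap L' (RatFunc L') l) = 0)
    {W : Fin (s + 1) → Fin N → L'} {F : MvPolynomial (Fin N) ℂ} (hh : F.IsHomogeneous d)
    (hF0 : MvPolynomial.aeval (W (Fin.last s)) F ≠ 0) {i0 : Fin N} (hi0 : crv W i0 ≠ 0)
    (hF : Ge w 1 (MvPolynomial.aeval (aff W i0) F)) : w.Reg (RatFunc.X : RatFunc L') := by
  by_contra hX
  have hX0 : (RatFunc.X : RatFunc L') ≠ 0 := RatFunc.X_ne_zero
  have hXn : w.ord (RatFunc.X : RatFunc L') < 0 := by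
    by_contra h
    exact hX (Or.inr (not_lt.1 h))
  obtain ⟨S, hS⟩ : ∃ S : RatFunc L', S = (RatFunc.X)⁻¹ := ⟨_, rfl⟩
  have hS0 : S ≠ 0 := by
    rw [hS]
    exact inv_ne_zero hX0
  have hS1 : Ge w 1 S := by
    right
    rw [hS, w.ord_inv]
    omega
  have hSr : w.Reg S := hS1.mono (by norm_num)
  obtain ⟨p, hp⟩ : ∃ p : Fin N → L'[X], p = fun i => reflect s (crv W i) := ⟨_, rfl⟩
  have hpS : ∀ i, io (crv W i) = (RatFunc.X : RatFunc L') ^ s * aeval S (p i) := by
    intro i
    have hinv : Invertible (RatFunc.X : RatFunc L') := invertibleOfNonzero hX0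
    have h1 := eval₂_reflect_mul_pow (algebraMap L' (RatFunc L')) (RatFunc.X : RatFunc L') s
      (crv W i) (natDegree_crv W i)
    rw [invOf_eq_inv, ← hS] at h1
    rw [io_aeval, aeval_def, ← h1, hp, aeval_def, mul_comm]
  have hy0 : io (crv W i0) ≠ 0 := io_ne hi0
  obtain ⟨β, hβ⟩ : ∃ β : RatFunc L', β = (RatFunc.X : RatFunc L') ^ s / io (crv W i0) := ⟨_, rfl⟩
  have hu : aff W i0 = fun i => β * aeval S (p i) := by
    funext i
    change io (crv W i) / io (crv W i0) = _
    rw [hβ, hpS i, mul_div_right_comm]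
  have h1 : MvPolynomial.aeval (aff W i0) F = β ^ d *
      aeval S (MvPolynomial.aeval p F) := by
    rw [hu, Pool.Agent.Y988.NT.aeval_smul_form hh]
    congr 1
    have h5 := MvPolynomial.comp_aeval_apply
      (φ := (aeval S : L'[X] →ₐ[L'] RatFunc L').restrictScalars ℂ) p F
    exact h5.symm
  have h2 : (MvPolynomial.aeval p F).coeff 0 = MvPolynomial.aeval (W (Fin.last s)) F := by
    rw [coeff_zero_eq_eval_zero, eval_aeval]
    congr 2
    funext i
    rw [← coeff_zero_eq_eval_zero, hp]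
    simp only
    rw [coeff_reflect, revAt_le (Nat.zero_le s), Nat.sub_zero, coeff_crv]
  have h3 : aeval S (MvPolynomial.aeval p F) = algebraMap L' (RatFunc L')
      (MvPolynomial.aeval (W (Fin.last s)) F) + S * aeval S (MvPolynomial.aeval p F).divX := by
    conv_lhs => rw [← divX_mul_X_add (MvPolynomial.aeval p F)]
    rw [map_add, map_mul, aeval_X, aeval_C, h2]
    ring
  have hFb0 : algebraMap L' (RatFunc L') (MvPolynomial.aeval (W (Fin.last s)) F) ≠ 0 := by
    rwa [Ne, map_eq_zero]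
  have h4 : aeval S (MvPolynomial.aeval p F) ≠ 0 ∧
      w.ord (aeval S (MvPolynomial.aeval p F)) = 0 := by
    have h5 : Ge w 1 (S * aeval S (MvPolynomial.aeval p F).divX) := by
      have h6 := hS1.mul (show Ge w 0 (aeval S (MvPolynomial.aeval p F).divX) from
        reg_aevalL hw hSr _)
      simpa using h6
    rw [h3]
    by_cases h7 : S * aeval S (MvPolynomial.aeval p F).divX = 0
    · rw [h7, add_zero]
      exact ⟨hFb0, hw _ hF0⟩
    · have h8 := h5.resolve_left h7
      have h9 := w.ord_add_eq hFb0 h7 (by rw [hw _ hF0]; omega)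
      exact ⟨h9.1, by rw [h9.2, hw _ hF0]⟩
  have hβ0 : β ≠ 0 := by
    rw [hβ]
    exact div_ne_zero (pow_ne_zero _ hX0) hy0
  have hpi0 : aeval S (p i0) ≠ 0 := by
    intro h0
    have h5 := hpS i0
    rw [h0, mul_zero] at h5
    exact hy0 h5
  have hone : β * aeval S (p i0) = 1 := by
    have h5 := congrFun hu i0
    change io (crv W i0) / io (crv W i0) = _ at h5
    rw [div_self hy0] at h5
    exact h5.symm
  have hord : w.ord β ≤ 0 := by
    have h5 := w.ord_mul hβ0 hpi0
    rw [hone, w.ord_one] at h5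
    have h6 : Ge w 0 (aeval S (p i0)) := reg_aevalL hw hSr _
    have h7 := h6.resolve_left hpi0
    omega
  rw [h1] at hF
  have h5 := hF.resolve_left (mul_ne_zero (pow_ne_zero _ hβ0) h4.1)
  rw [w.ord_mul (pow_ne_zero _ hβ0) h4.1, h4.2, w.ord_pow, add_zero] at h5
  have h6 : (d : ℤ) * w.ord β ≤ 0 := mul_nonpos_of_nonneg_of_nonpos (by positivity) hord
  omega

/-- a factor which vanishes at the place -/
theorem exists_factor {w : Place ℂ (RatFunc L')}
    (htriv : ∀ l : L', l ≠ 0 → w.ord (algebraMap L' (RatFunc L') l) = 0) {A : L'[X]}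
    (hA : A ≠ 0) (hord : 1 ≤ w.ord (io A)) :
    ∃ π : L'[X], Irreducible π ∧ π ∣ A ∧ 1 ≤ w.ord (io π) := by
  by_contra hcon
  push Not at hcon
  have h1 : ∀ A : L'[X], A ≠ 0 → (∀ π, Irreducible π → π ∣ A → w.ord (io π) < 1) →
      w.ord (io A) ≤ 0 := by
    intro A
    induction A using WfDvdMonoid.induction_on_irreducible with
    | zero => intro h; exact absurd rfl h
    | unit A hA =>
      intro _ _
      obtain ⟨c, hc, rfl⟩ := Polynomial.isUnit_iff.1 hA
      rw [io_C]
      rw [htriv _ hc.ne_zero]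
    | mul A π hA hπ ih =>
      intro h2 h3
      have h4 : io (π * A) = io π * io A := by rw [io, map_mul]
      rw [h4, w.ord_mul (io_ne hπ.ne_zero) (io_ne hA)]
      have h5 := h3 π hπ (dvd_mul_right _ _)
      have h6 := ih hA fun π' h7 h8 => h3 π' h7 (h8.mul_left _)
      omega
  have h2 := h1 A hA hcon
  omega

end

section

variable {L L' K : Type} [Field L] [Field L'] [Field K] [Algebra ℂ L]
  [Algebra ℂ L'] [Algebra ℂ K] [Algebra L L'] [Algebra L K]
  [IsScalarTower ℂ L L'] [IsScalarTower ℂ L K]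
  [FiniteDimensional L K] [FiniteDimensional L L'] [IsGalois L L']
  [hessK : Algebra.EssFiniteType ℂ K] {n N s m d : ℕ} {x : Fin N → K}

theorem exists_root_field {π : L'[X]} (hπ : Irreducible π) :
    ∃ (K'' : Type) (_ : Field K'') (_ : Algebra ℂ K'') (_ : Algebra L K'') (_ : Algebra L' K'')
      (_ : IsScalarTower L L' K'') (_ : IsScalarTower ℂ L' K'') (_ : IsScalarTower ℂ L K'')
      (_ : FiniteDimensional L K'') (ρ : K''), ∀ A : L'[X], π ∣ A ↔ aeval ρ A = 0 := by
  have hf : Fact (Irreducible π) := ⟨hπ⟩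
  have h1 : FiniteDimensional L' (AdjoinRoot π) := (AdjoinRoot.powerBasis hπ.ne_zero).finite
  have h2 : FiniteDimensional L (AdjoinRoot π) := Module.Finite.trans L' (AdjoinRoot π)
  refine ⟨AdjoinRoot π, inferInstance, inferInstance, inferInstance, inferInstance,
    inferInstance, inferInstance, inferInstance, h2, AdjoinRoot.root π, fun A => ?_⟩
  rw [AdjoinRoot.aeval_eq, AdjoinRoot.mk_eq_zero]

/-- **The places over the variety.** -/
theorem above (hRul : StRuled) (hRel : StRel) (hW0 : StW0) (hs : 1 ≤ s) (hn : 1 ≤ n)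
    (hK : Algebra.trdeg ℂ K = n)
    {i0 : Fin N} (hi0 : x i0 = 1) (hgen : IntermediateField.adjoin ℂ (Set.range x) = ⊤)
    {ω : (Fin n → Derivation ℂ K K) → K} (hω : IsPluri 1 ω) (hω0 : ∃ D, ω D ≠ 0)
    (hreg : ∀ (f : Fin m → Fin N) (P : Place ℂ K), Divisorial n P →
      RegAt P (fun D => (∏ k, x (f k)) * ω D))
    (hpg : ∀ ω : (Fin n → Derivation ℂ L L) → L, IsPluri 1 ω →
      (∀ P : Place ℂ L, Divisorial n P → RegAt P ω) → ∀ D, ω D = 0)
    (D : Rnc L' (pts L L' x) s) (hcard : 2 * s < Fintype.card (K →ₐ[L] L'))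
    (hsplit : ∀ i, (crv D.w i).Splits)
    {G : MvPolynomial (Fin N) ℂ} (hG : G.IsHomogeneous d) (hGx : MvPolynomial.aeval x G = 0)
    (hGw : MvPolynomial.aeval (D.w (Fin.last s)) G ≠ 0)
    (hdeg : s * d ≤ Fintype.card (K →ₐ[L] L') + (s * m + 1)) (hy0 : crv D.w i0 ≠ 0)
    (w : Place ℂ (RatFunc L')) (hw1 : ∀ j, w.Reg (aff D.w i0 j))
    (hval0 : ∀ H : MvPolynomial (Fin N) ℂ, MvPolynomial.aeval x H = 0 →
      Ge w 1 (MvPolynomial.aeval (aff D.w i0) H))
    (hval1 : ∀ H : MvPolynomial (Fin N) ℂ, MvPolynomial.aeval x H ≠ 0 →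
      MvPolynomial.aeval (aff D.w i0) H ≠ 0 ∧ w.ord (MvPolynomial.aeval (aff D.w i0) H) = 0) :
    ∃ σ : K →ₐ[L] L', ∀ w0, IsW0 (X - C (D.t σ)) w0 → w = w0 := by
  classical
  have hL : Algebra.trdeg ℂ L = n := trdeg_below (K := K) hK
  have hessL : Algebra.EssFiniteType ℂ L := Pool.Agent.TH466.QG.ess_below (K := K)
  have hL' : Algebra.trdeg ℂ L' = n := Pool.Agent.Y172.trdeg_up (K := L) hL
  have hωr : ∀ P : Place ℂ K, Divisorial n P → RegAt P ω := by
    intro P hP
    have h1 := hreg (fun _ => i0) P hP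
    simp only [hi0, Finset.prod_const_one, one_mul] at h1
    exact h1
  have htriv := hRul L' K n N hn hL' hK ω hω hωr hω0 x hgen w (crv D.w) hsplit i0 hy0
    (aff D.w i0) (fun _ => rfl) hw1 hval0 hval1
  have hXr : w.Reg (RatFunc.X : RatFunc L') := X_reg' htriv hG hGw hy0 (hval0 G hGx)
  have hpol : ∀ A : L'[X], w.Reg (io A) := fun A => by
    rw [io_aeval]
    exact reg_aevalL htriv hXr A
  have hyi : io (crv D.w i0) ≠ 0 := io_ne hy0
  have hyu : (fun j => io (crv D.w j)) = fun j => io (crv D.w i0) * aff D.w i0 j := by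
    funext j
    change _ = io (crv D.w i0) * (io (crv D.w j) / io (crv D.w i0))
    field_simp
  -- the polynomial `F (φ)`
  obtain ⟨A, hA⟩ : ∃ A : L'[X], A = MvPolynomial.aeval (crv D.w) G := ⟨_, rfl⟩
  have hA0 : A ≠ 0 := by
    intro h0
    apply hGw
    have h1 := coeff_top (natDegree_crv D.w) hG
    rw [← hA, h0, coeff_zero] at h1
    have h2 : (fun i => (crv D.w i).coeff s) = D.w (Fin.last s) := by
      funext i
      rw [coeff_crv]
    rw [h2] at h1
    exact h1.symm
  have hFu : io A = io (crv D.w i0) ^ d * MvPolynomial.aeval (aff D.w i0) G := by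
    rw [← Pool.Agent.Y988.NT.aeval_smul_form hG, ← hyu, hA]
    exact (MvPolynomial.aeval_algebraMap_apply (RatFunc L') (crv D.w) G).symm
  have hFu0 : MvPolynomial.aeval (aff D.w i0) G ≠ 0 := by
    intro h0
    rw [h0, mul_zero] at hFu
    exact io_ne hA0 hFu
  have hordA : 1 ≤ w.ord (io A) := by
    have h1 := (hval0 G hGx).resolve_left hFu0
    have h2 := (hpol (crv D.w i0)).resolve_left hyi
    rw [hFu, w.ord_mul (pow_ne_zero _ hyi) hFu0, w.ord_pow]
    have h3 : 0 ≤ (d : ℤ) * w.ord (io (crv D.w i0)) := mul_nonneg (by positivity) h2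
    omega
  obtain ⟨π, hπ, hπA, hπw⟩ := exists_factor htriv hA0 hordA
  obtain ⟨wπ, hwπ⟩ := exists_w0 hW0 hπ
  have hww : w = wπ := hwπ.uniq w htriv hπw
  rw [← hww] at hwπ
  obtain ⟨K'', i1, i2, i3, i4, i5, i6, i7, i8, ρ, hρ⟩ := exists_root_field (L := L) hπ
  have hρ0 : aeval ρ (crv D.w i0) ≠ 0 := by
    intro h0
    -- all coordinates vanish
    have h1 : ∀ j, aeval ρ (crv D.w j) = 0 := by
      intro j
      rw [← hρ]
      by_contra hndvd
      have hj0 : crv D.w j ≠ 0 := by
        intro h2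
        rw [h2] at hndvd
        exact hndvd (dvd_zero _)
      have h2 := hwπ.unit _ hj0 hndvd
      obtain ⟨B, hB⟩ := (hρ _).2 h0
      have h3 : Ge w 1 (io (crv D.w i0)) := by
        rw [hB, io, map_mul]
        have h7 : Ge w 1 (io π) := Or.inr hwπ.one.ge
        simpa using h7.mul (show Ge w 0 (io B) from hpol B)
      have h4 : Ge w 1 (io (crv D.w j)) := by
        have h5 : io (crv D.w j) = io (crv D.w i0) * aff D.w i0 j := congrFun hyu j
        rw [h5]
        simpa using h3.mul (show Ge w 0 (aff D.w i0 j) from hw1 j)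
      have h5 := h4.resolve_left (io_ne hj0)
      omega
    have h2 := Fintype.linearIndependent_iff.1 (ind_ext (algebraMap L' K'') D.ind)
      (fun k => ρ ^ (k : ℕ)) (by
        funext j
        rw [Finset.sum_apply]
        simp only [Pi.smul_apply, smul_eq_mul, Pi.zero_apply]
        rw [← eval₂_crv (algebraMap L' K'')]
        exact h1 j) 0
    simp at h2
  have hsp : ∀ j, Sp ρ (aff D.w i0 j) (aeval ρ (crv D.w j) / aeval ρ (crv D.w i0)) := fun j =>
    (Sp.poly (τ := ρ) (crv D.w j)).div (Sp.poly (τ := ρ) (crv D.w i0)) hρ0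
  have hiff : ∀ H : MvPolynomial (Fin N) ℂ, MvPolynomial.aeval x H = 0 ↔
      MvPolynomial.aeval (fun j => aeval ρ (crv D.w j) / aeval ρ (crv D.w i0)) H = 0 := by
    intro H
    constructor
    · intro h1
      by_contra h2
      obtain ⟨h3, h4⟩ := (Sp.mv (τ := ρ) hsp H).unit hwπ hρ h2
      have h5 := (hval0 H h1).resolve_left h3
      omega
    · intro h1
      by_contra h2
      obtain ⟨h3, h4⟩ := hval1 H h2
      have h5 := Sp.mv (τ := ρ) hsp H
      rw [h1] at h5
      have h6 := (h5.ge_one hwπ hρ).resolve_left h3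
      omega
  obtain ⟨ψ, hψ⟩ := Pool.Agent.Helper37K9.CI.exists_hom x
    (fun j => aeval ρ (crv D.w j) / aeval ρ (crv D.w i0)) hgen hiff
  obtain ⟨σ, hσ⟩ := residual hRel hs hK hi0 hgen hω hω0 hreg hpg D hcard hG hGx hGw hdeg ρ hρ0 ψ hψ
  refine ⟨σ, fun w0 hw0 => hw0.uniq w htriv ?_⟩
  have h1 : aeval ρ (X - C (D.t σ)) = 0 := by
    rw [map_sub, aeval_X, aeval_C, hσ, sub_self]
  obtain ⟨B, hB⟩ := (hρ _).2 h1
  have h3 : Ge w 1 (io (X - C (D.t σ))) := by
    rw [hB, io, map_mul]
    have h7 : Ge w 1 (io π) := Or.inr hwπ.one.ge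
    simpa using h7.mul (show Ge w 0 (io B) from hpol B)
  exact h3.resolve_left (io_ne (X_sub_C_ne_zero _))

end

end Pool.Agent.Helper37K9.RN
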