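import Pool.Agent.Helper37K9.RN.Data

/-!
The rational curve of degree `s` through the points.
-/

set_option autoImplicit false

open Module Polynomial

namespace Pool.Agent.Helper37K9.RN

variable {F E : Type} [Field F] [AddCommGroup E] [Module F E] {J : Type} {z : J → E} {s : ℕ}

namespace RData

/-- the denominators -/
noncomputable def den (D : RData F z s) (k : Fin s) : F[X] := C (D.α k) * Polynomial.X + C (D.β k)

/-- the numerators -/
noncomputable def num (D : RData F z s) (k : Fin s) : F[X] := -(C (D.γ k) * Polynomial.X + C (D.δ k))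

/-- the linear form `l` on the curve -/
noncomputable def phi (D : RData F z s) (l : E →ₗ[F] F) : F[X] :=
  ∑ k, D.num k * (∏ i ∈ Finset.univ.erase k, D.den i) * C (l (z (D.a k))) +
    (∏ i, D.den i) * C (l (z D.e))

/-- the parameters of the points -/
noncomputable def t (D : RData F z s) (j : J) : F := D.A (z j) / D.B (z j)

theorem natDegree_den (D : RData F z s) (k : Fin s) : (D.den k).natDegree ≤ 1 :=
  natDegree_linear_le

theorem natDegree_num (D : RData F z s) (k : Fin s) : (D.num k).natDegree ≤ 1 := by
  rw [num, natDegree_neg]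
  exact natDegree_linear_le

theorem natDegree_prod_den (D : RData F z s) (S : Finset (Fin s)) :
    (∏ i ∈ S, D.den i).natDegree ≤ S.card := by
  refine (natDegree_prod_le _ _).trans ((Finset.sum_le_card_nsmul _ _ 1 fun i _ =>
    D.natDegree_den i).trans ?_)
  simp

theorem natDegree_phi (D : RData F z s) (l : E →ₗ[F] F) : (D.phi l).natDegree ≤ s := by
  refine natDegree_add_le_of_degree_le (natDegree_sum_le_of_forall_le _ _ fun k _ => ?_) ?_
  · refine (natDegree_mul_C_le _ _).trans (natDegree_mul_le.trans ?_)
    have h1 := D.natDegree_num k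
    have h2 := D.natDegree_prod_den (Finset.univ.erase k)
    rw [Finset.card_erase_of_mem (Finset.mem_univ k), Finset.card_univ, Fintype.card_fin] at h2
    have h3 : 0 < s := k.pos
    omega
  · refine (natDegree_mul_C_le _ _).trans ?_
    have h2 := D.natDegree_prod_den Finset.univ
    rwa [Finset.card_univ, Fintype.card_fin] at h2

theorem eval_den (D : RData F z s) {j : J} (hj : j ∉ D.q) (k : Fin s) :
    eval (D.t j) (D.den k) = (D.α k * D.A (z j) + D.β k * D.B (z j)) / D.B (z j) := by
  have h1 := D.Bne j hj
  rw [den, t]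
  simp only [eval_add, eval_mul, eval_C, eval_X]
  field_simp

theorem eval_num (D : RData F z s) {j : J} (hj : j ∉ D.q) (k : Fin s) :
    eval (D.t j) (D.num k) = -((D.γ k * D.A (z j) + D.δ k * D.B (z j)) / D.B (z j)) := by
  have h1 := D.Bne j hj
  rw [num, t]
  simp only [eval_neg, eval_add, eval_mul, eval_C, eval_X]
  field_simp

/-- the curve passes through the points -/
theorem exists_scalar (D : RData F z s) {j : J} (hj : j ∉ D.q) :
    ∃ c : F, c ≠ 0 ∧ ∀ l, eval (D.t j) (D.phi l) = c * l (z j) := by
  classical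
  have hB := D.Bne j hj
  by_cases hja : ∃ k, j = D.a k
  · obtain ⟨k, rfl⟩ := hja
    have hden0 : eval (D.t (D.a k)) (D.den k) = 0 := by
      rw [D.eval_den hj, D.D0, zero_div]
    refine ⟨eval (D.t (D.a k)) (D.num k) *
      ∏ i ∈ Finset.univ.erase k, eval (D.t (D.a k)) (D.den i), ?_, fun l => ?_⟩
    · refine mul_ne_zero ?_ (Finset.prod_ne_zero_iff.2 fun i hi => ?_)
      · rw [D.eval_num hj, neg_ne_zero]
        exact div_ne_zero (D.Gne k) hB
      · rw [D.eval_den hj]
        refine div_ne_zero (D.Dne i _ hj fun h => ?_) hB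
        exact (Finset.ne_of_mem_erase hi) (D.a_inj h).symm
    · rw [phi, eval_add, eval_finsetSum, eval_mul, eval_prod,
        Finset.prod_eq_zero (Finset.mem_univ k) hden0, zero_mul, add_zero,
        Finset.sum_eq_single k]
      · rw [eval_mul, eval_mul, eval_prod, eval_C]
      · intro i _ hik
        rw [eval_mul, eval_mul, eval_prod,
          Finset.prod_eq_zero (Finset.mem_erase.2 ⟨hik.symm, Finset.mem_univ k⟩) hden0, mul_zero,
          zero_mul]
      · intro h
        exact absurd (Finset.mem_univ k) h
  · push Not at hja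
    have hH := D.Hne j hja
    have hXk : ∀ k, D.H (z j) * eval (D.t j) (D.num k) = D.X k (z j) * eval (D.t j) (D.den k) := by
      intro k
      rw [D.eval_num hj, D.eval_den hj]
      have h1 := D.Q k j
      field_simp
      linear_combination -h1
    refine ⟨(∏ i, eval (D.t j) (D.den i)) / D.H (z j), ?_, fun l => ?_⟩
    · refine div_ne_zero (Finset.prod_ne_zero_iff.2 fun i _ => ?_) hH
      rw [D.eval_den hj]
      exact div_ne_zero (D.Dne i _ hj (hja i)) hB
    · have h1 : l (z j) = ∑ k, D.X k (z j) * l (z (D.a k)) + D.H (z j) * l (z D.e) := by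
        conv_lhs => rw [D.exp j]
        simp only [map_add, map_sum, map_smul, smul_eq_mul]
      rw [div_mul_eq_mul_div, eq_div_iff hH, phi, eval_add, eval_finsetSum, eval_mul, eval_prod,
        eval_C, add_mul, Finset.sum_mul]
      conv_rhs => rw [h1, mul_add, Finset.mul_sum]
      congr 1
      · refine Finset.sum_congr rfl fun k _ => ?_
        rw [eval_mul, eval_mul, eval_prod, eval_C,
          ← Finset.mul_prod_erase Finset.univ (fun i => eval (D.t j) (D.den i))
            (Finset.mem_univ k)]
        linear_combination (∏ i ∈ Finset.univ.erase k, eval (D.t j) (D.den i)) *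
          l (z (D.a k)) * hXk k
      · ring

end RData

/-- two of the points are linearly independent -/
theorem GenPos.ne_smul [Fintype J] (h : GenPos (F := F) z s) (hs : 1 ≤ s)
    (hcard : s + 1 ≤ Fintype.card J) {i j : J} (hij : i ≠ j) (c d : F)
    (hcd : c • z i = d • z j) : c = 0 := by
  classical
  obtain ⟨S, hS1, hS2⟩ := Finset.exists_superset_card_eq (s := {i, j}) (n := s + 1) (by
    rw [Finset.card_pair hij]
    omega) hcard
  have h1 := h.1 S hS2
  have hi : i ∈ S := hS1 (by simp)
  have hj : j ∈ S := hS1 (by simp)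
  have h2 : LinearIndependent F ![z i, z j] := by
    have h3 := h1.comp (fun k : Fin 2 => if k = 0 then (⟨i, hi⟩ : S) else ⟨j, hj⟩) (by
      intro a b hab
      fin_cases a <;> fin_cases b
      · rfl
      · simp at hab
        exact absurd hab hij
      · simp at hab
        exact absurd hab.symm hij
      · rfl)
    convert h3 using 1
    funext k
    fin_cases k <;> rfl
  rw [LinearIndependent.pair_iff] at h2
  exact (h2 c (-d) (by rw [hcd, neg_smul, add_neg_cancel])).1

theorem RData.t_inj [Fintype J] (D : RData F z s) (h : GenPos (F := F) z s) (hs : 1 ≤ s)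
    (hcard : s + 1 ≤ Fintype.card J) (hE : ∀ v : E, (∀ l : E →ₗ[F] F, l v = 0) → v = 0) {i j : J}
    (hi : i ∉ D.q) (hj : j ∉ D.q) (hij : D.t i = D.t j) : i = j := by
  by_contra hne
  obtain ⟨c, hc, hc'⟩ := D.exists_scalar hi
  obtain ⟨d, -, hd'⟩ := D.exists_scalar hj
  apply hc
  refine h.ne_smul hs hcard hne c d ?_
  rw [← sub_eq_zero]
  apply hE
  intro l
  rw [map_sub, map_smul, map_smul, smul_eq_mul, smul_eq_mul, ← hc', ← hd', hij, sub_self]

/-- **Castelnuovo**: a rational curve of degree `s` through all but `s - 1` of the points. -/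
theorem exists_curve [Infinite F] [Fintype J] {ι : Type} [Finite ι] {z : J → ι → F}
    (h : GenPos (F := F) z s) (hQ : FewQ F z s) (hs : 1 ≤ s)
    (hcard : 2 * s + 2 ≤ Fintype.card J) :
    ∃ (φ : ι → F[X]) (t : J → F) (q : Finset J), q.card + 1 = s ∧
      (∀ i, (φ i).natDegree ≤ s) ∧
      (∀ i j, i ∉ q → j ∉ q → t i = t j → i = j) ∧
      ∀ j, j ∉ q → ∃ c : F, c ≠ 0 ∧ ∀ i, eval (t j) (φ i) = c * z j i := by
  classical
  have hne : Nonempty J := Fintype.card_pos_iff.1 (by omega)
  obtain ⟨D, -⟩ := exists_data h hQ hs hcard hne.some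
  refine ⟨fun i => D.phi (LinearMap.proj i), D.t, D.q, D.card_q, fun i => D.natDegree_phi _,
    fun i j hi hj hij => D.t_inj h hs (by omega) (fun v hv => ?_) hi hj hij, fun j hj => ?_⟩
  · funext i
    exact hv (LinearMap.proj i)
  · obtain ⟨c, hc, hc'⟩ := D.exists_scalar hj
    exact ⟨c, hc, fun i => hc' _⟩

end Pool.Agent.Helper37K9.RN
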