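import Pool.Agent.Helper37K9.RN.Lin

/-!
The lemma of Castelnuovo: points in general position which impose few conditions on quadrics lie on a
rational curve.
-/

set_option autoImplicit false

open Module

namespace Pool.Agent.Helper37K9.RN

variable {F E : Type} [Field F] [AddCommGroup E] [Module F E] {J : Type} {z : J → E} {s : ℕ}

section

variable {κ : Type} [Fintype κ] {w : κ → J}

theorem GenPos.ind (h : GenPos (F := F) z s) (hw : Function.Injective w)
    (hc : Fintype.card κ = s + 1) : LinearIndependent F fun i => z (w i) := by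
  classical
  have h1 := h.1 (Finset.univ.image w) (by
    rw [Finset.card_image_of_injective _ hw, Finset.card_univ, hc])
  have h2 := h1.comp (fun i : κ => (⟨w i, Finset.mem_image_of_mem _ (Finset.mem_univ i)⟩ :
    (Finset.univ.image w : Finset J))) (fun i j hij => hw (congrArg Subtype.val hij))
  exact h2

theorem GenPos.zero' (h : GenPos (F := F) z s) (hw : Function.Injective w)
    (hc : Fintype.card κ = s + 1) {f : E →ₗ[F] F} (hf : ∀ i, f (z (w i)) = 0) (j : J) :
    f (z j) = 0 := by
  classical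
  refine h.zero (S := Finset.univ.image w) (by
    rw [Finset.card_image_of_injective _ hw, Finset.card_univ, hc]) (fun i hi => ?_) j
  obtain ⟨k, -, rfl⟩ := Finset.mem_image.1 hi
  exact hf k

theorem GenPos.dual' [DecidableEq κ] (h : GenPos (F := F) z s) (hw : Function.Injective w)
    (hc : Fintype.card κ = s + 1) :
    ∃ f : κ → (E →ₗ[F] F), (∀ i j, f i (z (w j)) = if i = j then 1 else 0) ∧
      ∀ j, z j = ∑ i, f i (z j) • z (w i) := by
  classical
  obtain ⟨f, hf1, hf2⟩ := exists_dual (h.ind hw hc)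
  refine ⟨f, hf1, fun j => hf2 _ ?_⟩
  have h1 := h.span_eq (S := Finset.univ.image w) (by
    rw [Finset.card_image_of_injective _ hw, Finset.card_univ, hc])
  have h2 : z j ∈ Submodule.span F (Set.range fun j : (Finset.univ.image w : Finset J) => z j) := by
    rw [h1]
    exact Submodule.subset_span ⟨j, rfl⟩
  refine Submodule.span_mono ?_ h2
  rintro _ ⟨⟨i, hi⟩, rfl⟩
  obtain ⟨k, -, rfl⟩ := Finset.mem_image.1 hi
  exact ⟨k, rfl⟩

end

/-- Quadrics which contain `2 s + 1` of the points contain all of them (for quadrics of a special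
form). -/
def FewQ (F : Type) {E : Type} [Field F] [AddCommGroup E] [Module F E] {J : Type} (z : J → E)
    (s : ℕ) : Prop :=
  ∀ S : Finset J, S.card = 2 * s + 1 → ∀ l₁ m₁ l₂ m₂ : E →ₗ[F] F,
    (∀ j ∈ S, l₁ (z j) * m₁ (z j) + l₂ (z j) * m₂ (z j) = 0) →
      ∀ j, l₁ (z j) * m₁ (z j) + l₂ (z j) * m₂ (z j) = 0

/-- The data of a rational curve of degree `s` through the points. -/
structure RData (F : Type) {E : Type} [Field F] [AddCommGroup E] [Module F E] {J : Type}
    (z : J → E) (s : ℕ) where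
  a : Fin s → J
  q : Finset J
  e : J
  X : Fin s → (E →ₗ[F] F)
  H : E →ₗ[F] F
  A : E →ₗ[F] F
  B : E →ₗ[F] F
  α : Fin s → F
  β : Fin s → F
  γ : Fin s → F
  δ : Fin s → F
  card_q : q.card + 1 = s
  a_inj : Function.Injective a
  exp : ∀ j, z j = ∑ k, X k (z j) • z (a k) + H (z j) • z e
  Ha : ∀ k, H (z (a k)) = 0
  Xa : ∀ k l, X k (z (a l)) = if k = l then 1 else 0
  Hne : ∀ j, (∀ k, j ≠ a k) → H (z j) ≠ 0
  Q : ∀ k j, X k (z j) * (α k * A (z j) + β k * B (z j)) +
    H (z j) * (γ k * A (z j) + δ k * B (z j)) = 0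
  Bne : ∀ j, j ∉ q → B (z j) ≠ 0
  aq : ∀ k, a k ∉ q
  eq : e ∉ q
  D0 : ∀ k, α k * A (z (a k)) + β k * B (z (a k)) = 0
  Dne : ∀ k j, j ∉ q → j ≠ a k → α k * A (z j) + β k * B (z j) ≠ 0
  Gne : ∀ k, γ k * A (z (a k)) + δ k * B (z (a k)) ≠ 0

/-- **The lemma of Castelnuovo.** -/
theorem exists_data [Infinite F] [Fintype J] (h : GenPos (F := F) z s) (hQ : FewQ F z s)
    (hs : 1 ≤ s) (hcard : 2 * s + 2 ≤ Fintype.card J) (j0 : J) :
    ∃ D : RData F z s, D.e = j0 := by
  classical
  -- the indices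
  obtain ⟨ι0⟩ : Nonempty ((Fin s ⊕ (Fin (s - 1) ⊕ Fin 3)) ↪ J) :=
    Function.Embedding.nonempty_of_card_le (by simp; omega)
  obtain ⟨ι, hι, hι2⟩ : ∃ ι : (Fin s ⊕ (Fin (s - 1) ⊕ Fin 3)) → J, Function.Injective ι ∧
      ι (Sum.inr (Sum.inr 2)) = j0 :=
    ⟨fun i => Equiv.swap (ι0 (Sum.inr (Sum.inr 2))) j0 (ι0 i), fun i j hij =>
      ι0.injective ((Equiv.swap _ _).injective hij), Equiv.swap_apply_left _ _⟩
  obtain ⟨a, ha⟩ : ∃ a : Fin s → J, a = fun k => ι (Sum.inl k) := ⟨_, rfl⟩
  obtain ⟨qf, hqf⟩ : ∃ qf : Fin (s - 1) → J, qf = fun k => ι (Sum.inr (Sum.inl k)) := ⟨_, rfl⟩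
  obtain ⟨u, hu⟩ : ∃ u : Fin 3 → J, u = fun k => ι (Sum.inr (Sum.inr k)) := ⟨_, rfl⟩
  have hai : Function.Injective a := fun i j hij => by
    rw [ha] at hij
    simpa using hι hij
  have hqi : Function.Injective qf := fun i j hij => by
    rw [hqf] at hij
    simpa using hι hij
  have hui : Function.Injective u := fun i j hij => by
    rw [hu] at hij
    simpa using hι hij
  have haq : ∀ i j, a i ≠ qf j := fun i j hij => by
    rw [ha, hqf] at hij
    simpa using hι hij
  have hau : ∀ i j, a i ≠ u j := fun i j hij => by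
    rw [ha, hu] at hij
    simpa using hι hij
  have hqu : ∀ i j, qf i ≠ u j := fun i j hij => by
    rw [hqf, hu] at hij
    simpa using hι hij
  -- the first dual family
  obtain ⟨f1, hf1, hf1'⟩ := h.dual' (w := Sum.elim a fun _ : Unit => u 2) (by
    rintro (i | i) (j | j) hij
    · simp only [Sum.elim_inl] at hij
      rw [hai hij]
    · exact absurd hij (hau _ _)
    · exact absurd hij.symm (hau _ _)
    · rfl) (by simp)
  obtain ⟨X, hX⟩ : ∃ X : Fin s → (E →ₗ[F] F), X = fun k => f1 (Sum.inl k) := ⟨_, rfl⟩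
  obtain ⟨H, hH⟩ : ∃ H : E →ₗ[F] F, H = f1 (Sum.inr ()) := ⟨_, rfl⟩
  have hexp : ∀ j, z j = ∑ k, X k (z j) • z (a k) + H (z j) • z (u 2) := by
    intro j
    have h1 := hf1' j
    rw [Fintype.sum_sum_type] at h1
    simpa [hX, hH] using h1
  have hHa : ∀ k, H (z (a k)) = 0 := fun k => by
    have := hf1 (Sum.inr ()) (Sum.inl k)
    simpa [hH] using this
  have hHu : H (z (u 2)) = 1 := by
    have := hf1 (Sum.inr ()) (Sum.inr ())
    simpa [hH] using this
  have hXa : ∀ k l, X k (z (a l)) = if k = l then 1 else 0 := fun k l => by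
    have := hf1 (Sum.inl k) (Sum.inl l)
    simpa [hX] using this
  have hXu : ∀ k, X k (z (u 2)) = 0 := fun k => by
    have := hf1 (Sum.inl k) (Sum.inr ())
    simpa [hX] using this
  have hHne : ∀ j, (∀ k, j ≠ a k) → H (z j) ≠ 0 := by
    intro j hj h0
    have h1 := h.zero' (w := Sum.elim a fun _ : Unit => j) (by
      rintro (i | i) (j | j) hij
      · simp only [Sum.elim_inl] at hij
        rw [hai hij]
      · exact absurd hij.symm (hj _)
      · exact absurd hij (hj _)
      · rfl) (by simp) (f := H) (by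
      rintro (i | i)
      · exact hHa i
      · exact h0) (u 2)
    rw [hHu] at h1
    exact one_ne_zero h1
  -- the second dual family
  obtain ⟨f2, hf2, -⟩ := h.dual' (w := Sum.elim qf fun i : Fin 2 => u i.castSucc) (by
    rintro (i | i) (j | j) hij
    · simp only [Sum.elim_inl] at hij
      rw [hqi hij]
    · exact absurd hij (hqu _ _)
    · exact absurd hij.symm (hqu _ _)
    · simp only [Sum.elim_inr] at hij
      rw [Fin.castSucc_injective _ (hui hij)]) (by simp; omega)
  obtain ⟨A0, hA0⟩ : ∃ A0 : E →ₗ[F] F, A0 = f2 (Sum.inr 0) := ⟨_, rfl⟩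
  obtain ⟨B0, hB0⟩ : ∃ B0 : E →ₗ[F] F, B0 = f2 (Sum.inr 1) := ⟨_, rfl⟩
  have hAq : ∀ k, A0 (z (qf k)) = 0 := fun k => by
    have := hf2 (Sum.inr 0) (Sum.inl k)
    simpa [hA0] using this
  have hBq : ∀ k, B0 (z (qf k)) = 0 := fun k => by
    have := hf2 (Sum.inr 1) (Sum.inl k)
    simpa [hB0] using this
  have hA00 : A0 (z (u 0)) = 1 := by
    have := hf2 (Sum.inr 0) (Sum.inr 0)
    simpa [hA0] using this
  have hA01 : A0 (z (u 1)) = 0 := by
    have := hf2 (Sum.inr 0) (Sum.inr 1)
    simpa [hA0] using this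
  have hB00 : B0 (z (u 0)) = 0 := by
    have := hf2 (Sum.inr 1) (Sum.inr 0)
    simpa [hB0] using this
  have hB01 : B0 (z (u 1)) = 1 := by
    have := hf2 (Sum.inr 1) (Sum.inr 1)
    simpa [hB0] using this
  -- a form of the pencil vanishes at one point only
  have hkey : ∀ c d : F, ∀ p p' : J, p ≠ p' → (∀ k, p ≠ qf k) → (∀ k, p' ≠ qf k) →
      c * A0 (z p) + d * B0 (z p) = 0 → c * A0 (z p') + d * B0 (z p') = 0 → c = 0 ∧ d = 0 := by
    intro c d p p' hpp hp hp' h1 h2
    have h3 := h.zero' (w := Sum.elim qf ![p, p']) (by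
      rintro (i | i) (j | j) hij
      · simp only [Sum.elim_inl] at hij
        rw [hqi hij]
      · fin_cases j
        · exact absurd hij.symm (hp _)
        · exact absurd hij.symm (hp' _)
      · fin_cases i
        · exact absurd hij (hp _)
        · exact absurd hij (hp' _)
      · fin_cases i <;> fin_cases j
        · rfl
        · exact absurd hij hpp
        · exact absurd hij.symm hpp
        · rfl) (by simp; omega) (f := c • A0 + d • B0) (by
      rintro (i | i)
      · simp [hAq, hBq]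
      · fin_cases i
        · simpa using h1
        · simpa using h2)
    have h4 := h3 (u 0)
    have h5 := h3 (u 1)
    simp only [LinearMap.add_apply, LinearMap.smul_apply, smul_eq_mul, hA00, hA01, hB00,
      hB01, mul_one, mul_zero, add_zero, zero_add] at h4 h5
    exact ⟨h4, h5⟩
  have huq : ∀ i k, u i ≠ qf k := fun i k => (hqu k i).symm
  have hne2 : ∀ p, (∀ k, p ≠ qf k) → A0 (z p) ≠ 0 ∨ B0 (z p) ≠ 0 := by
    intro p hp
    by_contra hcon
    push Not at hcon
    have hp1 : p ≠ u 1 := by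
      rintro rfl
      rw [hB01] at hcon
      exact one_ne_zero hcon.2
    exact one_ne_zero (hkey 1 0 p (u 1) hp1 hp (huq 1) (by simp [hcon.1]) (by simp [hA01])).1
  -- the quadrics
  have hsys : ∀ k, ∃ c : Fin 4 → F, c ≠ 0 ∧ ∀ i, X k (z (u i)) * (c 0 * A0 (z (u i)) +
      c 1 * B0 (z (u i))) + H (z (u i)) * (c 2 * A0 (z (u i)) + c 3 * B0 (z (u i))) = 0 := by
    intro k
    obtain ⟨T, hT⟩ : ∃ T : (Fin 4 → F) →ₗ[F] (Fin 3 → F), ∀ c i, T c i =
        X k (z (u i)) * (c 0 * A0 (z (u i)) + c 1 * B0 (z (u i))) +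
          H (z (u i)) * (c 2 * A0 (z (u i)) + c 3 * B0 (z (u i))) :=
      ⟨{ toFun := fun c i => X k (z (u i)) * (c 0 * A0 (z (u i)) + c 1 * B0 (z (u i))) +
          H (z (u i)) * (c 2 * A0 (z (u i)) + c 3 * B0 (z (u i)))
         map_add' := fun c d => by funext i; simp only [Pi.add_apply]; ring
         map_smul' := fun c d => by
          funext i
          simp only [Pi.smul_apply, smul_eq_mul, RingHom.id_apply]
          ring }, fun _ _ => rfl⟩
    have h1 : LinearMap.ker T ≠ ⊥ := LinearMap.ker_ne_bot_of_finrank_lt (by simp)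
    obtain ⟨c, hc, hc0⟩ := Submodule.exists_mem_ne_zero_of_ne_bot h1
    refine ⟨c, hc0, fun i => ?_⟩
    rw [← hT]
    exact congrFun (LinearMap.mem_ker.1 hc) i
  choose c hc0 hcu using hsys
  have hQk : ∀ k j, X k (z j) * (c k 0 * A0 (z j) + c k 1 * B0 (z j)) +
      H (z j) * (c k 2 * A0 (z j) + c k 3 * B0 (z j)) = 0 := by
    intro k j
    obtain ⟨w, hw⟩ : ∃ w : ({l : Fin s // l ≠ k} ⊕ (Fin (s - 1) ⊕ Fin 3)) → J,
        w = Sum.elim (fun l => ι (Sum.inl l.1)) (fun i => ι (Sum.inr i)) := ⟨_, rfl⟩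
    have hwi : Function.Injective w := by
      rintro (i | i) (j | j) hij
      · rw [hw] at hij
        have h1 := hι hij
        simp only [Sum.inl.injEq] at h1
        rw [Subtype.ext h1]
      · rw [hw] at hij
        exact absurd (hι hij) (by simp)
      · rw [hw] at hij
        exact absurd (hι hij) (by simp)
      · rw [hw] at hij
        have h1 := hι hij
        simp only [Sum.inr.injEq] at h1
        rw [h1]
    have h1 := hQ (Finset.univ.image w) (by
      rw [Finset.card_image_of_injective _ hwi, Finset.card_univ]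
      simp
      omega) (X k) (c k 0 • A0 + c k 1 • B0) H (c k 2 • A0 + c k 3 • B0) (by
      intro j hj
      obtain ⟨i, -, rfl⟩ := Finset.mem_image.1 hj
      simp only [LinearMap.add_apply, LinearMap.smul_apply, smul_eq_mul]
      rcases i with ⟨l, hl⟩ | i | i
      · have h2 : w (Sum.inl ⟨l, hl⟩) = a l := by rw [hw, ha]; rfl
        rw [h2, hHa, hXa, if_neg (Ne.symm hl)]
        ring
      · have h2 : w (Sum.inr (Sum.inl i)) = qf i := by rw [hw, hqf]; rfl
        rw [h2, hAq, hBq]
        ring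
      · have h2 : w (Sum.inr (Sum.inr i)) = u i := by rw [hw, hu]; rfl
        rw [h2]
        exact hcu k i) j
    simpa only [LinearMap.add_apply, LinearMap.smul_apply, smul_eq_mul] using h1
  have hua : ∀ i k, u i ≠ a k := fun i k => (hau k i).symm
  have hP1 : ∀ k, c k 0 ≠ 0 ∨ c k 1 ≠ 0 := by
    intro k
    by_contra hcon
    push Not at hcon
    have h1 : ∀ j, (∀ k, j ≠ a k) → c k 2 * A0 (z j) + c k 3 * B0 (z j) = 0 := by
      intro j hj
      have h2 := hQk k j
      rw [hcon.1, hcon.2] at h2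
      have h3 : H (z j) * (c k 2 * A0 (z j) + c k 3 * B0 (z j)) = 0 := by
        rw [← h2]
        ring
      exact (mul_eq_zero.1 h3).resolve_left (hHne j hj)
    have h2 := hkey (c k 2) (c k 3) (u 0) (u 1) (fun h => by simpa using hui h) (huq 0) (huq 1)
      (h1 _ (hua 0)) (h1 _ (hua 1))
    apply hc0 k
    funext i
    fin_cases i
    · exact hcon.1
    · exact hcon.2
    · exact h2.1
    · exact h2.2
  have haq' : ∀ i k, a i ≠ qf k := haq
  have hD0 : ∀ k, c k 0 * A0 (z (a k)) + c k 1 * B0 (z (a k)) = 0 := by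
    intro k
    have h1 := hQk k (a k)
    rw [hHa, hXa, if_pos rfl] at h1
    simpa using h1
  have hDne : ∀ k j, (∀ i, j ≠ qf i) → j ≠ a k →
      c k 0 * A0 (z j) + c k 1 * B0 (z j) ≠ 0 := by
    intro k j hj hjk h0
    have h1 := hkey _ _ j (a k) hjk hj (haq' k) h0 (hD0 k)
    rcases hP1 k with h2 | h2
    · exact h2 h1.1
    · exact h2 h1.2
  have hGne : ∀ k, c k 2 * A0 (z (a k)) + c k 3 * B0 (z (a k)) ≠ 0 := by
    intro k h0
    -- proportional forms
    obtain ⟨r, hr0, hr1⟩ : ∃ r : F, c k 2 = r * c k 0 ∧ c k 3 = r * c k 1 := by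
      have h1 := hD0 k
      rcases hP1 k with h2 | h2
      · refine ⟨c k 2 / c k 0, by field_simp, ?_⟩
        have h3 : B0 (z (a k)) ≠ 0 := by
          intro h3
          rw [h3, mul_zero, add_zero] at h1
          rcases hne2 (a k) (haq' k) with h4 | h4
          · exact mul_ne_zero h2 h4 h1
          · exact h4 h3
        have h4 : c k 3 * c k 0 = c k 2 * c k 1 := by
          apply mul_right_cancel₀ h3
          linear_combination c k 0 * h0 - c k 2 * h1
        rw [eq_comm, div_mul_eq_mul_div, div_eq_iff h2, ← h4]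
      · refine ⟨c k 3 / c k 1, ?_, by field_simp⟩
        have h3 : A0 (z (a k)) ≠ 0 := by
          intro h3
          rw [h3, mul_zero, zero_add] at h1
          rcases hne2 (a k) (haq' k) with h4 | h4
          · exact h4 h3
          · exact mul_ne_zero h2 h4 h1
        have h4 : c k 2 * c k 1 = c k 3 * c k 0 := by
          apply mul_right_cancel₀ h3
          linear_combination c k 1 * h0 - c k 3 * h1
        rw [eq_comm, div_mul_eq_mul_div, div_eq_iff h2, ← h4]
    have h1 : ∀ i, X k (z (u i)) + r * H (z (u i)) = 0 := by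
      intro i
      have h2 := hQk k (u i)
      rw [hr0, hr1] at h2
      have h3 : (c k 0 * A0 (z (u i)) + c k 1 * B0 (z (u i))) *
          (X k (z (u i)) + r * H (z (u i))) = 0 := by
        rw [← h2]
        ring
      exact (mul_eq_zero.1 h3).resolve_left (hDne k (u i) (huq i) (hua i k))
    have h2 := h.zero' (w := Sum.elim (fun l : {l : Fin s // l ≠ k} => a l.1)
      fun i : Fin 2 => u i.castSucc) (by
      rintro (i | i) (j | j) hij
      · simp only [Sum.elim_inl] at hij
        rw [Subtype.ext (hai hij)]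
      · exact absurd hij (hau _ _)
      · exact absurd hij.symm (hau _ _)
      · simp only [Sum.elim_inr] at hij
        rw [Fin.castSucc_injective _ (hui hij)]) (by
      have h3 : 0 < s := by omega
      simp
      omega) (f := X k + r • H) (by
      rintro (⟨l, hl⟩ | i)
      · simp [hXa, hHa, Ne.symm hl]
      · simpa using h1 i.castSucc) (a k)
    simp [hXa, hHa] at h2
  -- the generic member of the pencil
  obtain ⟨ε, hε⟩ : ∃ ε : F, ∀ j, (∀ k, j ≠ qf k) → B0 (z j) + ε * A0 (z j) ≠ 0 := by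
    obtain ⟨ε, hε⟩ := Infinite.exists_notMem_finset
      (Finset.univ.image fun j : J => -B0 (z j) / A0 (z j))
    refine ⟨ε, fun j hj h0 => ?_⟩
    by_cases h1 : A0 (z j) = 0
    · rw [h1, mul_zero, add_zero] at h0
      rcases hne2 j hj with h2 | h2
      · exact h2 h1
      · exact h2 h0
    · apply hε
      rw [Finset.mem_image]
      refine ⟨j, Finset.mem_univ _, ?_⟩
      rw [div_eq_iff h1]
      linear_combination -h0
  have hq : ∀ j, j ∉ Finset.univ.image qf ↔ ∀ k, j ≠ qf k := by
    intro j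
    simp only [Finset.mem_image, Finset.mem_univ, true_and, not_exists]
    exact forall_congr' fun k => ⟨fun h h' => h h'.symm, fun h h' => h h'.symm⟩
  have hcomb : ∀ (x y : F) (j : J), (x - ε * y) * A0 (z j) + y * (B0 + ε • A0) (z j) =
      x * A0 (z j) + y * B0 (z j) := by
    intro x y j
    simp only [LinearMap.add_apply, LinearMap.smul_apply, smul_eq_mul]
    ring
  refine ⟨{
    a := a
    q := Finset.univ.image qf
    e := u 2
    X := X
    H := H
    A := A0
    B := B0 + ε • A0
    α := fun k => c k 0 - ε * c k 1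
    β := fun k => c k 1
    γ := fun k => c k 2 - ε * c k 3
    δ := fun k => c k 3
    card_q := by
      rw [Finset.card_image_of_injective _ hqi, Finset.card_univ, Fintype.card_fin]
      omega
    a_inj := hai
    exp := hexp
    Ha := hHa
    Xa := hXa
    Hne := hHne
    Q := fun k j => by rw [hcomb, hcomb]; exact hQk k j
    Bne := fun j hj => by
      simpa only [LinearMap.add_apply, LinearMap.smul_apply, smul_eq_mul] using hε j ((hq j).1 hj)
    aq := fun k => (hq _).2 (haq' k)
    eq := (hq _).2 (huq 2)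
    D0 := fun k => by rw [hcomb]; exact hD0 k
    Dne := fun k j hj hjk => by rw [hcomb]; exact hDne k j ((hq j).1 hj) hjk
    Gne := fun k => by rw [hcomb]; exact hGne k }, ?_⟩
  show u 2 = j0
  rw [hu]
  exact hι2

end Pool.Agent.Helper37K9.RN
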