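import Pool.Agent.Helper37K9.RN.Sep
import Pool.Agent.Helper37K9.CI.Main

/-!
Monodromy, and forms which vanish on the rational curve.
-/

set_option autoImplicit false

open Module MvPolynomial

namespace Pool.Agent.Helper37K9.RN

section mono

theorem exists_index {ι : Type} (d : ι →₀ ℕ) {m : ℕ} (hd : d.degree = m) :
    ∃ f : Fin m → ι, ∀ {R : Type} [CommRing R] (x : ι → R),
      ∏ k, x (f k) = d.prod fun i e => x i ^ e := by
  classical
  have hlen : (Finsupp.toMultiset d).toList.length = m := by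
    rw [Multiset.length_toList, Finsupp.card_toMultiset]
    exact hd
  subst hlen
  refine ⟨fun k => (Finsupp.toMultiset d).toList[k.1], fun x => ?_⟩
  rw [Fin.prod_univ_fun_getElem, ← Multiset.prod_coe, ← Multiset.map_coe, Multiset.coe_toList,
    Finsupp.toMultiset_map, Finsupp.prod_toMultiset,
    Finsupp.prod_mapDomain_index (fun _ => pow_zero _) (fun _ _ _ => pow_add _ _ _)]

theorem relation_of_monomials {F ι J : Type} [Field F] [Fintype J] {z : J → ι → F} {c : J → F}
    {m : ℕ} (h : ∀ f : Fin m → ι, ∑ j, c j * ∏ k, z j (f k) = 0) {P : MvPolynomial ι F}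
    (hP : P.IsHomogeneous m) : ∑ j, c j * eval (z j) P = 0 := by
  classical
  have h1 : ∀ j, c j * eval (z j) P =
      ∑ d ∈ P.support, coeff d P * (c j * d.prod fun i e => z j i ^ e) := by
    intro j
    rw [eval_eq, Finset.mul_sum]
    refine Finset.sum_congr rfl fun d _ => ?_
    rw [Finsupp.prod]
    ring
  simp only [h1]
  rw [Finset.sum_comm]
  refine Finset.sum_eq_zero fun d hd => ?_
  rw [← Finset.mul_sum]
  obtain ⟨f, hf⟩ := exists_index d (m := m) (by
    have h2 := hP (mem_support_iff.1 hd)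
    rwa [Finsupp.degree_eq_weight_one])
  have h3 := h f
  simp only [hf] at h3
  rw [h3, mul_zero]

end mono

section hom

variable {N : ℕ}

/-- homogenisation -/
theorem exists_homog (G : MvPolynomial (Fin N) ℂ) (i0 : Fin N) :
    ∃ (e : ℕ) (G' : MvPolynomial (Fin N) ℂ), G'.IsHomogeneous e ∧
      ∀ {R : Type} [Field R] [Algebra ℂ R] (v : Fin N → R), v i0 ≠ 0 →
        aeval v G' = v i0 ^ e * aeval (fun i => v i / v i0) G := by
  classical
  refine ⟨G.totalDegree, ∑ j ∈ Finset.range (G.totalDegree + 1),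
    X i0 ^ (G.totalDegree - j) * homogeneousComponent j G, ?_, fun v hv => ?_⟩
  · refine IsHomogeneous.sum _ _ _ fun j hj => ?_
    have h1 := (isHomogeneous_X_pow (R := ℂ) i0 (G.totalDegree - j)).mul
      (homogeneousComponent_isHomogeneous j G)
    have h2 : G.totalDegree - j + j = G.totalDegree := by
      rw [Finset.mem_range] at hj
      omega
    rwa [h2] at h1
  · have h0 : aeval (fun i => v i / v i0) G = ∑ j ∈ Finset.range (G.totalDegree + 1),
        aeval (fun i => v i / v i0) (homogeneousComponent j G) := by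
      conv_lhs => rw [← sum_homogeneousComponent G]
      rw [map_sum]
    rw [h0, map_sum, Finset.mul_sum]
    refine Finset.sum_congr rfl fun j hj => ?_
    have h1 : v = fun i => v i0 * (v i / v i0) := by
      funext i
      field_simp
    rw [map_mul, map_pow, aeval_X]
    conv_lhs =>
      arg 2
      rw [h1]
    rw [Pool.Agent.Y988.NT.aeval_smul_form (homogeneousComponent_isHomogeneous j G), ← mul_assoc,
      ← pow_add]
    congr 2
    rw [Finset.mem_range] at hj
    omega

/-- homomorphisms from the function field of a projective variety -/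
theorem exists_hom_proj {K R : Type} [Field K] [Field R] [Algebra ℂ K] [Algebra ℂ R]
    (x : Fin N → K) (y : Fin N → R) (hx : IntermediateField.adjoin ℂ (Set.range x) = ⊤)
    {i0 : Fin N} (hi0 : x i0 = 1)
    (h : ∀ (e : ℕ) (G : MvPolynomial (Fin N) ℂ), G.IsHomogeneous e → (aeval x G = 0 ↔
      aeval y G = 0)) :
    y i0 ≠ 0 ∧ ∃ φ : K →ₐ[ℂ] R, ∀ j, φ (x j) = y j / y i0 := by
  have hy : y i0 ≠ 0 := by
    intro h0
    have h1 := (h 1 (X i0) (isHomogeneous_X ℂ i0)).2 (by rw [aeval_X]; exact h0)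
    rw [aeval_X, hi0] at h1
    exact one_ne_zero h1
  refine ⟨hy, Pool.Agent.Helper37K9.CI.exists_hom x _ hx fun G => ?_⟩
  obtain ⟨e, G', hG', hG⟩ := exists_homog G i0
  have h1 := h e G' hG'
  have hxi : x i0 ≠ 0 := by
    rw [hi0]
    exact one_ne_zero
  rw [hG x hxi, hG y hy] at h1
  have h2 : (fun i => x i / x i0) = x := by
    funext i
    rw [hi0, div_one]
  rw [h2, hi0, one_pow, one_mul, mul_eq_zero, or_iff_right (pow_ne_zero _ hy)] at h1
  exact h1

end hom

section vanish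

open Polynomial in
theorem natDegree_aeval_le {F ι : Type} [Field F] [Algebra ℂ F] {s : ℕ} {φ : ι → F[X]}
    (hφ : ∀ i, (φ i).natDegree ≤ s) {G : MvPolynomial ι ℂ} {k : ℕ} (hG : G.IsHomogeneous k) :
    (MvPolynomial.aeval φ G).natDegree ≤ s * k := by
  classical
  rw [MvPolynomial.aeval_def, MvPolynomial.eval₂_eq]
  refine natDegree_sum_le_of_forall_le _ _ fun d hd => ?_
  have h1 : (algebraMap ℂ F[X] (MvPolynomial.coeff d G)).natDegree = 0 := natDegree_C _
  refine natDegree_mul_le.trans ?_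
  rw [h1, zero_add]
  refine (natDegree_prod_le _ _).trans ?_
  have h2 := hG (MvPolynomial.mem_support_iff.1 hd)
  have h3 : d.degree = k := by
    rw [Finsupp.degree_eq_weight_one]
    exact h2
  change ∑ i ∈ d.support, d i = k at h3
  rw [← h3, Finset.mul_sum]
  refine Finset.sum_le_sum fun i _ => ?_
  refine natDegree_pow_le.trans ?_
  rw [mul_comm]
  exact Nat.mul_le_mul_right _ (hφ i)

open Polynomial in
theorem eval_aeval {F : Type} [Field F] [Algebra ℂ F] {N : ℕ} (φ : Fin N → F[X]) (t : F)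
    (G : MvPolynomial (Fin N) ℂ) :
    eval t (MvPolynomial.aeval φ G) = MvPolynomial.aeval (fun i => eval t (φ i)) G := by
  have h5 := MvPolynomial.comp_aeval_apply
    (φ := (Polynomial.aeval t : F[X] →ₐ[F] F).restrictScalars ℂ) φ G
  have h6 : (fun j => (Polynomial.aeval t : F[X] →ₐ[F] F).restrictScalars ℂ (φ j)) =
      fun i => eval t (φ i) := by
    funext j
    exact Polynomial.coe_aeval_eq_eval t ▸ rfl
  rw [h6] at h5
  rw [← h5]
  exact (congrFun (Polynomial.coe_aeval_eq_eval t) _).symm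

open Polynomial in
/-- forms of low degree which vanish at the points vanish on the curve -/
theorem vanish {F J : Type} [Field F] [Algebra ℂ F] [Fintype J] {N s k : ℕ}
    {φ : Fin N → F[X]} {t : J → F} {q : Finset J} (hφ : ∀ i, (φ i).natDegree ≤ s)
    (ht : ∀ i j, i ∉ q → j ∉ q → t i = t j → i = j) {z : J → Fin N → F}
    (hz : ∀ j, j ∉ q → ∃ c : F, c ≠ 0 ∧ ∀ i, eval (t j) (φ i) = c * z j i)
    {G : MvPolynomial (Fin N) ℂ} (hG : G.IsHomogeneous k)
    (hGz : ∀ j, MvPolynomial.aeval (z j) G = 0) (hk : s * k + q.card < Fintype.card J) :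
    MvPolynomial.aeval φ G = 0 := by
  classical
  refine Polynomial.eq_zero_of_natDegree_lt_card_of_eval_eq_zero' _ (qᶜ.image t) ?_ ?_
  · intro i hi
    obtain ⟨j, hj, rfl⟩ := Finset.mem_image.1 hi
    obtain ⟨c, -, hc⟩ := hz j (Finset.mem_compl.1 hj)
    rw [eval_aeval]
    simp only [hc]
    rw [Pool.Agent.Y988.NT.aeval_smul_form hG, hGz j, mul_zero]
  · rw [Finset.card_image_of_injOn (fun i hi j hj hij => ht i j
      (Finset.mem_compl.1 hi) (Finset.mem_compl.1 hj) hij), Finset.card_compl]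
    have h1 := natDegree_aeval_le hφ hG
    omega

end vanish

section monodromy

variable {L K Ω : Type} [Field L] [Field K] [Field Ω] [Algebra L K] [Algebra L Ω] {N s : ℕ}
  {x : Fin N → K}

/-- the points of the generic fibre -/
def pts (L Ω : Type) {K : Type} [Field L] [Field K] [Field Ω] [Algebra L K] [Algebra L Ω] {N : ℕ}
    (x : Fin N → K) (σ : K →ₐ[L] Ω) (i : Fin N) : Ω := σ (x i)

theorem pts_comp (g : Ω ≃ₐ[L] Ω) (σ : K →ₐ[L] Ω) :
    pts L Ω x ((g : Ω →ₐ[L] Ω).comp σ) = fun i => g (pts L Ω x σ i) := rfl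

/-- transitivity on the sets of `k` points of the generic fibre -/
def Trans (L K Ω : Type) [Field L] [Field K] [Field Ω] [Algebra L K] [Algebra L Ω] (k : ℕ) :
    Prop := ∀ S T : Finset (K →ₐ[L] Ω), S.card = k → T.card = k → ∃ g : Ω ≃ₐ[L] Ω,
  ∀ σ, σ ∈ S ↔ (g : Ω →ₐ[L] Ω).comp σ ∈ T

theorem ind_map {κ : Type} [Fintype κ] (g : Ω ≃ₐ[L] Ω) {v : κ → Fin N → Ω}
    (hv : LinearIndependent Ω v) : LinearIndependent Ω fun k i => g (v k i) := by
  rw [Fintype.linearIndependent_iff] at hv ⊢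
  intro c hc k
  have h1 := hv (fun k => g.symm (c k)) (by
    funext i
    have h2 := congrFun hc i
    simp only [Finset.sum_apply, Pi.smul_apply, smul_eq_mul, Pi.zero_apply] at h2 ⊢
    apply g.injective
    rw [map_zero, ← h2, map_sum]
    refine Finset.sum_congr rfl fun k _ => ?_
    rw [map_mul, AlgEquiv.apply_symm_apply]) k
  exact (map_eq_zero g.symm).1 h1

theorem Trans.ind {k : ℕ} (h : Trans L K Ω k) {S T : Finset (K →ₐ[L] Ω)} (hS : S.card = k)
    (hT : T.card = k) (hind : LinearIndependent Ω fun σ : S => pts L Ω x σ) :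
    LinearIndependent Ω fun σ : T => pts L Ω x σ := by
  obtain ⟨g, hg⟩ := h S T hS hT
  have hsymm : ∀ τ : K →ₐ[L] Ω, (g : Ω →ₐ[L] Ω).comp ((g.symm : Ω →ₐ[L] Ω).comp τ) = τ := by
    intro τ
    ext y
    simp
  have h1 := ind_map g hind
  have h2 := h1.comp (fun τ : T => (⟨(g.symm : Ω →ₐ[L] Ω).comp τ.1, (hg _).2 (by
    rw [hsymm]
    exact τ.2)⟩ : S)) (fun τ τ' hττ => by
      have h3 := congrArg Subtype.val hττ
      apply Subtype.ext
      rw [← hsymm τ.1, ← hsymm τ'.1]
      exact congrArg _ h3)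
  convert h2 using 1
  funext τ i
  change _ = g (g.symm (τ.1 (x i)))
  rw [AlgEquiv.apply_symm_apply]
  rfl

theorem Trans.sep {k a : ℕ} (h : Trans L K Ω k) {S T : Finset (K →ₐ[L] Ω)} (hS : S.card = k)
    (hT : T.card = k) (hsep : Sep a (pts L Ω x) S) : Sep a (pts L Ω x) T := by
  obtain ⟨g, hg⟩ := h S T hS hT
  have hsymm : ∀ τ : K →ₐ[L] Ω, (g : Ω →ₐ[L] Ω).comp ((g.symm : Ω →ₐ[L] Ω).comp τ) = τ := by
    intro τ
    ext y
    simp
  have hev : ∀ (τ : K →ₐ[L] Ω) (P : MvPolynomial (Fin N) Ω),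
      eval (pts L Ω x τ) (map (g : Ω →+* Ω) P) =
        g (eval (pts L Ω x ((g.symm : Ω →ₐ[L] Ω).comp τ)) P) := by
    intro τ P
    conv_lhs => rw [← hsymm τ, pts_comp]
    rw [eval_map]
    change eval₂ _ ((g : Ω →+* Ω) ∘ _) P = (g : Ω →+* Ω) (eval₂ (RingHom.id Ω) _ P)
    rw [eval₂_comp_left]
    rfl
  intro τ hτ
  obtain ⟨P, hP, hP1, hP2⟩ := hsep ((g.symm : Ω →ₐ[L] Ω).comp τ) ((hg _).2 (by rwa [hsymm]))
  refine ⟨map (g : Ω →+* Ω) P, hP.map _, ?_, fun i hi hij => ?_⟩
  · rw [hev]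
    exact (map_ne_zero g).2 hP1
  · rw [hev, hP2 _ ((hg _).2 (by rwa [hsymm])), map_zero]
    intro h3
    apply hij
    rw [← hsymm i, ← hsymm τ]
    exact congrArg _ h3

/-- general position -/
theorem genPos [Fintype (K →ₐ[L] Ω)] (h : Trans L K Ω (s + 1))
    (hs : finrank Ω (Submodule.span Ω (Set.range (pts L Ω x))) = s + 1) :
    GenPos (F := Ω) (pts L Ω x) s := by
  classical
  refine ⟨fun T hT => ?_, hs⟩
  obtain ⟨κ, a, ha, hspan, hind⟩ := exists_linearIndependent' Ω (pts L Ω x)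
  have : Finite κ := Finite.of_injective a ha
  have : Fintype κ := Fintype.ofFinite κ
  have hcard : Fintype.card κ = s + 1 := by
    rw [← hs, ← hspan]
    exact (finrank_span_eq_card hind).symm
  refine h.ind (S := Finset.univ.image a) (by
    rw [Finset.card_image_of_injective _ ha, Finset.card_univ, hcard]) hT ?_
  have h1 : ∀ σ : (Finset.univ.image a : Finset (K →ₐ[L] Ω)), ∃ k, a k = σ.1 := by
    rintro ⟨σ, hσ⟩
    obtain ⟨k, -, hk⟩ := Finset.mem_image.1 hσ
    exact ⟨k, hk⟩
  choose b hb using h1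
  have h2 := hind.comp b (fun σ τ hστ => by
    apply Subtype.ext
    rw [← hb, ← hb, hστ])
  have h3 : (fun σ : (Finset.univ.image a : Finset (K →ₐ[L] Ω)) => pts L Ω x σ) =
      (pts L Ω x ∘ a) ∘ b := by
    funext σ
    change _ = pts L Ω x (a (b σ))
    rw [hb]
  rw [h3]
  exact h2

theorem unif (h : Trans L K Ω (2 * s + 2)) : Unif (pts L Ω x) s :=
  fun _ _ hS hT hsep => h.sep hS hT hsep

end monodromy

end Pool.Agent.Helper37K9.RN
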