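import Pool.Agent.Helper37K9.RN.Str
import Pool.Agent.Helper37K9.CI.Main
import Pool.Agent.Y184.NT.Fin

/-!
Fibres on rational normal curves: the final steps.
-/

set_option autoImplicit false
set_option linter.overlappingInstances false
set_option linter.unusedSectionVars false

open FF Polynomial Pool.Agent.W602.GT Pool.Agent.W603.LV Pool.Agent.Y184.NT Algebra
open Pool.Agent.W619.PQ (IsUniruled)

namespace Pool.Agent.Helper37K9.RN

/-- varieties dominated by uniruled varieties -/
theorem uniruled_down {L M : Type} [Field L] [Field M] [Algebra ℂ L] [Algebra ℂ M] {n : ℕ}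
    (h : IsUniruled ℂ M n) (ψ : L →ₐ[ℂ] M) : IsUniruled ℂ L n := by
  obtain ⟨M', i1, i2, h1, h2, ⟨φ⟩⟩ := h
  exact ⟨M', i1, i2, h1, h2, ⟨φ.comp ψ⟩⟩

/-- a field of transcendence degree `n` with `n` generators -/
theorem purely {M : Type} [Field M] [Algebra ℂ M] {n : ℕ} (hM : Algebra.trdeg ℂ M = n)
    {u : Fin n → M} (hu : IntermediateField.adjoin ℂ (Set.range u) = ⊤) :
    Nonempty (M →ₐ[ℂ] FractionRing (MvPolynomial (Fin n) ℂ)) := by
  classical
  have h0 : (n : Cardinal) ≤ Algebra.trdeg ℂ (IntermediateField.adjoin ℂ (Set.range u)) := by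
    rw [hu]
    have h1 : Algebra.trdeg ℂ (⊤ : IntermediateField ℂ M) = Algebra.trdeg ℂ M :=
      IntermediateField.topEquiv.trdeg_eq
    rw [h1, hM]
  obtain ⟨s, hs⟩ := Pool.Agent.Helper37K9.CI.exists_coord u (d := n) h0
  have hsinj : Function.Injective s := fun i j hij => by
    have h1 := hs.injective
    exact h1 (by simp only [hij])
  have hsb : Function.Bijective s := Finite.injective_iff_bijective.1 hsinj
  have hu' : AlgebraicIndependent ℂ u := by
    have h1 : u = (fun i => u (s i)) ∘ (Equiv.ofBijective s hsb).symm := by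
      funext i
      simp only [Function.comp]
      congr 1
      exact ((Equiv.ofBijective s hsb).apply_symm_apply i).symm
    rw [h1]
    exact hs.comp _ (Equiv.ofBijective s hsb).symm.injective
  let e := hu'.aevalEquivField
  let e2 : IntermediateField.adjoin ℂ (Set.range u) ≃ₐ[ℂ] M :=
    (IntermediateField.equivOfEq hu).trans IntermediateField.topEquiv
  exact ⟨(e.symm.toAlgHom).comp e2.symm.toAlgHom⟩

open scoped IntermediateField.algebraAdjoinAdjoin in
/-- unirational varieties of positive dimension are uniruled -/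
theorem uniruled_of_unirational {n : ℕ} (hn : 1 ≤ n) {L : Type} [Field L] [Algebra ℂ L]
    (h : Nonempty (L →ₐ[ℂ] FractionRing (MvPolynomial (Fin n) ℂ))) : IsUniruled ℂ L n := by
  classical
  obtain ⟨φ⟩ := h
  refine uniruled_down (Pool.Agent.Y184.NT.uniruled_of_rational hn
    (f := fun i : Fin n => algebraMap (MvPolynomial (Fin n) ℂ)
      (FractionRing (MvPolynomial (Fin n) ℂ)) (MvPolynomial.X i)) ?_ ?_) φ
  · have hal : Algebra.IsAlgebraic (MvPolynomial (Fin n) ℂ)
        (FractionRing (MvPolynomial (Fin n) ℂ)) :=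
      IsLocalization.isAlgebraic _ (nonZeroDivisors (MvPolynomial (Fin n) ℂ))
    have h1 : IsTranscendenceBasis ℂ (fun i : Fin n => algebraMap (MvPolynomial (Fin n) ℂ)
        (FractionRing (MvPolynomial (Fin n) ℂ)) (MvPolynomial.X i)) :=
      (IsTranscendenceBasis.mvPolynomial (Fin n) ℂ).algebraMap_comp
    exact h1.1
  · rw [_root_.eq_top_iff]
    intro g _
    obtain ⟨a, b, hb, rfl⟩ := IsFractionRing.div_surjective (A := MvPolynomial (Fin n) ℂ) g
    have h1 : ∀ p : MvPolynomial (Fin n) ℂ, algebraMap (MvPolynomial (Fin n) ℂ)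
        (FractionRing (MvPolynomial (Fin n) ℂ)) p ∈
        IntermediateField.adjoin ℂ (Set.range fun i : Fin n =>
          algebraMap (MvPolynomial (Fin n) ℂ) (FractionRing (MvPolynomial (Fin n) ℂ))
            (MvPolynomial.X i)) := by
      intro p
      induction p using MvPolynomial.induction_on with
      | C a =>
        have h2 : algebraMap (MvPolynomial (Fin n) ℂ) (FractionRing (MvPolynomial (Fin n) ℂ))
          (MvPolynomial.C a) = algebraMap ℂ (FractionRing (MvPolynomial (Fin n) ℂ)) a := rfl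
        rw [h2]
        exact IntermediateField.algebraMap_mem _ a
      | add p q hp hq =>
        rw [map_add]
        exact add_mem hp hq
      | mul_X p i hp =>
        rw [map_mul]
        exact mul_mem hp (IntermediateField.subset_adjoin ℂ _ ⟨i, rfl⟩)
    exact div_mem (h1 a) (h1 b)

/-- hyperplane sections of projective space are rational -/
theorem purely_of_section {M : Type} [Field M] [Algebra ℂ M] {n : ℕ}
    (hM : Algebra.trdeg ℂ M = n) {z : Fin (n + 2) → M} {i0 : Fin (n + 2)} (h0 : z i0 = 1)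
    (ha : ∃ a, a ≠ i0 ∧ ∃ c : ℂ, z a = algebraMap ℂ M c)
    (hz : IntermediateField.adjoin ℂ (Set.range z) = ⊤) :
    Nonempty (M →ₐ[ℂ] FractionRing (MvPolynomial (Fin n) ℂ)) := by
  classical
  obtain ⟨a, hai, c, hc⟩ := ha
  have hcard : Fintype.card {j : Fin (n + 2) // j ≠ i0 ∧ j ≠ a} = n := by
    have h1 : (Finset.univ.filter fun j : Fin (n + 2) => j ≠ i0 ∧ j ≠ a) =
        (Finset.univ.erase i0).erase a := by
      ext j
      simp only [Finset.mem_filter, Finset.mem_univ, true_and, Finset.mem_erase]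
      tauto
    rw [Fintype.card_subtype, h1, Finset.card_erase_of_mem (Finset.mem_erase.2
      ⟨hai, Finset.mem_univ a⟩), Finset.card_erase_of_mem (Finset.mem_univ i0), Finset.card_univ,
      Fintype.card_fin]
    omega
  let e := Fintype.equivFinOfCardEq hcard
  refine purely hM (u := fun i => z (e.symm i)) ?_
  rw [_root_.eq_top_iff, ← hz, IntermediateField.adjoin_le_iff]
  rintro _ ⟨j, rfl⟩
  rw [SetLike.mem_coe]
  by_cases hj : j = i0
  · rw [hj, h0]
    exact one_mem _
  · by_cases hja : j = a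
    · rw [hja, hc]
      exact IntermediateField.algebraMap_mem _ _
    · apply IntermediateField.subset_adjoin
      refine ⟨e ⟨j, hj, hja⟩, ?_⟩
      simp only [Equiv.symm_apply_apply]

section

variable {L K : Type} [Field L] [Field K] [Algebra ℂ L] [Algebra ℂ K] [Algebra L K]
  [IsScalarTower ℂ L K] [FiniteDimensional L K] [hessK : Algebra.EssFiniteType ℂ K]
  {n N m s : ℕ}

/-- points of a fibre which lie on a rational normal curve -/
theorem rnc_of {x : Fin (N + 1) → K} {i0 : Fin (N + 1)} (hi0 : x i0 = 1)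
    (hgen : IntermediateField.adjoin ℂ (Set.range x) = ⊤)
    {w : Fin (s + 1) → Fin (N + 1) → AlgebraicClosure L}
    (hw : LinearIndependent (AlgebraicClosure L) w)
    {t c : (K →ₐ[L] AlgebraicClosure L) → AlgebraicClosure L}
    (h : ∀ σ j, pts L (AlgebraicClosure L) x σ j = c σ * ∑ k : Fin (s + 1),
      t σ ^ (k : ℕ) * w k j) :
    Nonempty (Rnc (AlgebraicClosure L) (pts L (AlgebraicClosure L) x) s) := by
  have h1 : ∀ σ : K →ₐ[L] AlgebraicClosure L, pts L (AlgebraicClosure L) x σ i0 = 1 := by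
    intro σ
    change σ (x i0) = 1
    rw [hi0, map_one]
  refine ⟨{
    w := w
    ind := hw
    t := t
    c := c
    c_ne := fun σ h0 => ?_
    t_inj := fun σ τ hστ => ?_
    eq := h }⟩
  · have h2 := h σ i0
    rw [h1, h0, zero_mul] at h2
    exact one_ne_zero h2
  · apply pts_inj hgen
    have h2 := h σ i0
    have h3 := h τ i0
    rw [h1] at h2 h3
    rw [hστ] at h2
    have h4 : ∑ k : Fin (s + 1), t τ ^ (k : ℕ) * w k i0 ≠ 0 := by
      intro h5
      rw [h5, mul_zero] at h3
      exact one_ne_zero h3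
    have h5 : c σ = c τ := mul_right_cancel₀ h4 (h2.symm.trans h3)
    intro i
    rw [h, h, hστ, h5]

/-- the degree of the equation which does not vanish on the curve -/
theorem le_of_curve (hNLG : StNLG) {κ : Type} [Fintype κ] [DecidableEq κ]
    {F : κ → MvPolynomial (Fin (N + 1)) ℂ} {d : κ → ℕ} (hd : ∀ k, (F k).IsHomogeneous (d k))
    (hdim : n + Fintype.card κ = N) (hK : Algebra.trdeg ℂ K = n)
    {x : Fin (N + 1) → K} {i0 : Fin (N + 1)} (hi0 : x i0 = 1)
    (hgen : IntermediateField.adjoin ℂ (Set.range x) = ⊤)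
    (hx : ∀ k, MvPolynomial.aeval x (F k) = 0)
    (hgr : LinearIndependent K fun (k : κ) (j : Fin (N + 1)) =>
      MvPolynomial.aeval x (MvPolynomial.pderiv j (F k)))
    {ω : (Fin n → Derivation ℂ K K) → K} (hω : IsPluri 1 ω) (hω0 : ∃ D, ω D ≠ 0)
    (hreg : ∀ (f : Fin m → Fin (N + 1)) (P : Place ℂ K), Divisorial n P →
      RegAt P (fun D => (∏ k, x (f k)) * ω D))
    (D0 : Rnc (AlgebraicClosure L) (pts L (AlgebraicClosure L) x) s)
    (hr : 1 < Module.finrank L K) (k : κ)
    (hoth : ∀ j, j ≠ k → s * d j < Module.finrank L K) :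
    Module.finrank L K ≤ s * d k := by
  classical
  by_contra hcon
  have hcL : CharZero L := charZero_of_injective_algebraMap (algebraMap ℂ L).injective
  have hcard : Fintype.card (K →ₐ[L] AlgebraicClosure L) = Module.finrank L K := AlgHom.card L K _
  have hωr : ∀ P : Place ℂ K, Divisorial n P → RegAt P ω := by
    intro P hP
    have h1 := hreg (fun _ => i0) P hP
    simp only [hi0, Finset.prod_const_one, one_mul] at h1
    exact h1
  obtain ⟨j1, j2, hj⟩ : ∃ j1 j2 : K →ₐ[L] AlgebraicClosure L, j1 ≠ j2 :=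
    Fintype.one_lt_card_iff.1 (by omega)
  refine curve_not_in (L := L) hNLG hd hdim hK hi0 hgen hgr hω hω0 hωr (φ := crv D0.w) hj
    ⟨_, _, inv_ne_zero (D0.c_ne j1), D0.eval_crv j1⟩
    ⟨_, _, inv_ne_zero (D0.c_ne j2), D0.eval_crv j2⟩ fun j => ?_
  refine D0.vanish (hd j) (fun σ => by rw [aeval_pts, hx, map_zero]) ?_
  rw [hcard]
  by_cases hjk : j = k
  · rw [hjk]
    omega
  · exact hoth j hjk

/-- the points of a fibre in uniform position lie on a rational normal curve -/
theorem rnc_of_uniform (hNLG : StNLG) {κ : Type} [Fintype κ] [DecidableEq κ]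
    {F : κ → MvPolynomial (Fin (N + 1)) ℂ} {d : κ → ℕ} (hd : ∀ k, (F k).IsHomogeneous (d k))
    (hdim : n + Fintype.card κ = N) (hK : Algebra.trdeg ℂ K = n)
    {x : Fin (N + 1) → K} {i0 : Fin (N + 1)} (hi0 : x i0 = 1)
    (hgen : IntermediateField.adjoin ℂ (Set.range x) = ⊤)
    (hx : ∀ k, MvPolynomial.aeval x (F k) = 0)
    (hgr : LinearIndependent K fun (k : κ) (j : Fin (N + 1)) =>
      MvPolynomial.aeval x (MvPolynomial.pderiv j (F k)))
    {ω : (Fin n → Derivation ℂ K K) → K} (hω : IsPluri 1 ω) (hω0 : ∃ D, ω D ≠ 0)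
    (hreg : ∀ (f : Fin m → Fin (N + 1)) (P : Place ℂ K), Divisorial n P →
      RegAt P (fun D => (∏ k, x (f k)) * ω D))
    (hpg : ∀ ω : (Fin n → Derivation ℂ L L) → L, IsPluri 1 ω →
      (∀ P : Place ℂ L, Divisorial n P → RegAt P ω) → ∀ D, ω D = 0) (hs : 1 ≤ s)
    (hG : GenPos (F := AlgebraicClosure L) (pts L (AlgebraicClosure L) x) s)
    (hU : Unif (pts L (AlgebraicClosure L) x) s)
    (hr : Module.finrank L K ≤ s * m + m / 2 + 1) (hm : m ≠ 2 ∨ s ≤ 2) :
    Nonempty (Rnc (AlgebraicClosure L) (pts L (AlgebraicClosure L) x) s) ∧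
      2 * s < Module.finrank L K := by
  classical
  have hL : Algebra.trdeg ℂ L = n := trdeg_below (K := K) hK
  have hcL : CharZero L := charZero_of_injective_algebraMap (algebraMap ℂ L).injective
  have hcard : Fintype.card (K →ₐ[L] AlgebraicClosure L) = Module.finrank L K := AlgHom.card L K _
  obtain ⟨hQ, hm2, hr2⟩ := fewQ_of_genus hL hω hω0 hreg hpg hG hU hr
  have hωr : ∀ P : Place ℂ K, Divisorial n P → RegAt P ω := by
    intro P hP
    have h1 := hreg (fun _ => i0) P hP
    simp only [hi0, Finset.prod_const_one, one_mul] at h1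
    exact h1
  have h2 : s * 2 ≤ s * m := Nat.mul_le_mul_left s hm2
  have h3 : 3 * s ≤ Module.finrank L K := by
    rcases hm with hm | hm
    · have h4 : s * 3 ≤ s * m := Nat.mul_le_mul_left s (by omega)
      omega
    · omega
  refine ⟨exists_rnc hG hQ hs (by omega) (by omega) hd
    (fun k σ => by rw [aeval_pts, hx, map_zero]) fun φ j1 j2 hj h1 h2 => ?_, by omega⟩
  by_contra hcon
  push Not at hcon
  exact curve_not_in (L := L) hNLG hd hdim hK hi0 hgen hgr hω hω0 hωr hj h1 h2 hcon

end

end Pool.Agent.Helper37K9.RN
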