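import Pool.Agent.Helper37K9.RN.Rnc

/-!
The rational normal curve through the points of the generic fibre over a finite extension.
-/

set_option autoImplicit false
set_option linter.unusedSectionVars false

open Module Polynomial

namespace Pool.Agent.Helper37K9.RN

theorem exists_galois {L K : Type} [Field L] [Field K] [CharZero L] [Algebra ℂ L] [Algebra L K]
    [FiniteDimensional L K] {N s : ℕ} {x : Fin N → K}
    (hgen : IntermediateField.adjoin L (Set.range x) = ⊤)
    (D : Rnc (AlgebraicClosure L) (pts L (AlgebraicClosure L) x) s) {G : MvPolynomial (Fin N) ℂ}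
    (hG : MvPolynomial.aeval (D.w (Fin.last s)) G ≠ 0) :
    ∃ (L' : Type) (_ : Field L') (_ : Algebra L L') (_ : Algebra ℂ L') (_ : IsScalarTower ℂ L L')
      (_ : FiniteDimensional L L') (_ : IsGalois L L') (D' : Rnc L' (pts L L' x) s),
      MvPolynomial.aeval (D'.w (Fin.last s)) G ≠ 0 ∧ (∀ i, (crv D'.w i).Splits) ∧
      Fintype.card (K →ₐ[L] L') = finrank L K := by
  classical
  obtain ⟨S, hS⟩ : ∃ S : Set (AlgebraicClosure L), S =
      (Set.range fun p : Fin (s + 1) × Fin N => D.w p.1 p.2) ∪ (Set.range D.t) ∪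
      (Set.range D.c) ∪ (Set.range fun p : (K →ₐ[L] AlgebraicClosure L) × Fin N => p.1 (x p.2)) ∪
      ⋃ i, {a | a ∈ (crv D.w i).roots} := ⟨_, rfl⟩
  have hSfin : S.Finite := by
    rw [hS]
    refine Set.Finite.union (Set.Finite.union (Set.Finite.union (Set.Finite.union
      (Set.finite_range _) (Set.finite_range _)) (Set.finite_range _)) (Set.finite_range _))
      (Set.finite_iUnion fun i => ?_)
    exact (crv D.w i).roots.toFinset.finite_toSet.subset fun a ha => by
      simpa using ha
  have hSw : ∀ k i, D.w k i ∈ S := fun k i => by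
    rw [hS]
    exact Or.inl (Or.inl (Or.inl (Or.inl ⟨(k, i), rfl⟩)))
  have hSt : ∀ σ, D.t σ ∈ S := fun σ => by
    rw [hS]
    exact Or.inl (Or.inl (Or.inl (Or.inr ⟨σ, rfl⟩)))
  have hSc : ∀ σ, D.c σ ∈ S := fun σ => by
    rw [hS]
    exact Or.inl (Or.inl (Or.inr ⟨σ, rfl⟩))
  have hSx : ∀ (σ : K →ₐ[L] AlgebraicClosure L) (i : Fin N), σ (x i) ∈ S := fun σ i => by
    rw [hS]
    exact Or.inl (Or.inr ⟨(σ, i), rfl⟩)
  have hSr : ∀ i, ∀ a ∈ (crv D.w i).roots, a ∈ S := fun i a ha => by
    rw [hS]
    exact Or.inr (Set.mem_iUnion.2 ⟨i, ha⟩)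
  obtain ⟨M0, hM0⟩ : ∃ M0 : IntermediateField L (AlgebraicClosure L),
    M0 = IntermediateField.adjoin L S := ⟨_, rfl⟩
  have hfin0 : FiniteDimensional L M0 := by
    rw [hM0]
    have : Finite S := hSfin
    exact IntermediateField.finiteDimensional_adjoin fun a _ =>
      (Algebra.IsAlgebraic.isAlgebraic a).isIntegral
  obtain ⟨M, hM⟩ : ∃ M : IntermediateField L (AlgebraicClosure L),
    M = IntermediateField.normalClosure L M0 (AlgebraicClosure L) := ⟨_, rfl⟩
  have hMfin : FiniteDimensional L M := by
    rw [hM]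
    infer_instance
  have hMnorm : Normal L M := by
    rw [hM]
    infer_instance
  have hMgal : IsGalois L M := { }
  have hSM : ∀ a ∈ S, a ∈ M := by
    intro a ha
    have h1 : M0 ≤ M := by
      rw [hM]
      exact IntermediateField.le_normalClosure M0
    apply h1
    rw [hM0]
    exact IntermediateField.subset_adjoin L S ha
  have hst : IsScalarTower ℂ M (AlgebraicClosure L) := IsScalarTower.of_algebraMap_eq fun c => rfl
  have hinj : Function.Injective (algebraMap M (AlgebraicClosure L)) :=
    (algebraMap M (AlgebraicClosure L)).injective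
  obtain ⟨w', hw'⟩ : ∃ w' : Fin (s + 1) → Fin N → M,
    ∀ k i, algebraMap M (AlgebraicClosure L) (w' k i) = D.w k i :=
    ⟨fun k i => ⟨D.w k i, hSM _ (hSw k i)⟩, fun _ _ => rfl⟩
  have hcrv : ∀ i, (crv w' i).map (algebraMap M (AlgebraicClosure L)) = crv D.w i := by
    intro i
    rw [crv, crv, Polynomial.map_sum]
    refine Finset.sum_congr rfl fun k _ => ?_
    rw [Polynomial.map_mul, Polynomial.map_pow, map_C, map_X, hw']
  have hcomp : ∀ (σ : K →ₐ[L] M) (i : Fin N), algebraMap M (AlgebraicClosure L) (σ (x i)) =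
      (M.val.comp σ) (x i) := fun _ _ => rfl
  have hcard : Fintype.card (K →ₐ[L] M) = finrank L K := by
    rw [← AlgHom.card L K (AlgebraicClosure L)]
    refine Fintype.card_of_bijective (f := fun σ : K →ₐ[L] M => M.val.comp σ) ⟨?_, ?_⟩
    · intro σ τ h
      ext y
      have h1 := DFunLike.congr_fun h y
      exact h1
    · intro σ
      have h1 : ∀ y, σ y ∈ M.toSubalgebra := by
        have h2 : IntermediateField.adjoin L (Set.range x) ≤ M.comap σ := by
          rw [IntermediateField.adjoin_le_iff]
          rintro _ ⟨i, rfl⟩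
          exact hSM _ (hSx σ i)
        intro y
        have h3 : y ∈ IntermediateField.adjoin L (Set.range x) := by
          rw [hgen]
          trivial
        exact h2 h3
      exact ⟨AlgHom.codRestrict σ M.toSubalgebra h1, rfl⟩
  refine ⟨M, inferInstance, inferInstance, inferInstance, inferInstance, hMfin, hMgal, {
    w := w'
    ind := ?_
    t := fun σ => ⟨D.t (M.val.comp σ), hSM _ (hSt _)⟩
    c := fun σ => ⟨D.c (M.val.comp σ), hSM _ (hSc _)⟩
    c_ne := fun σ h0 => D.c_ne (M.val.comp σ) (congrArg Subtype.val h0)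
    t_inj := fun σ τ h => ?_
    eq := fun σ i => ?_ }, ?_, fun i => ?_, hcard⟩
  · rw [Fintype.linearIndependent_iff]
    intro a ha k
    have h1 := Fintype.linearIndependent_iff.1 D.ind
      (fun k => algebraMap M (AlgebraicClosure L) (a k)) (by
        funext i
        have h2 := congrArg (algebraMap M (AlgebraicClosure L)) (congrFun ha i)
        rw [Finset.sum_apply] at h2 ⊢
        simp only [Pi.smul_apply, smul_eq_mul, Pi.zero_apply, map_sum, map_mul, map_zero,
          hw'] at h2 ⊢
        exact h2) k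
    exact (map_eq_zero _).1 h1
  · have h1 := D.t_inj (congrArg Subtype.val h)
    ext y
    exact DFunLike.congr_fun h1 y
  · apply hinj
    rw [map_mul, map_sum]
    have h1 := D.eq (M.val.comp σ) i
    change (M.val.comp σ) (x i) = _ at h1
    change (M.val.comp σ) (x i) = _
    rw [h1]
    congr 1
    refine Finset.sum_congr rfl fun k _ => ?_
    rw [map_mul, map_pow, hw']
    rfl
  · intro h0
    apply hG
    have h1 := congrArg (algebraMap M (AlgebraicClosure L)) h0
    rw [map_zero] at h1
    have h2 := MvPolynomial.aeval_algebraMap_apply (AlgebraicClosure L) (w' (Fin.last s)) G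
    rw [← h2] at h1
    have h3 : (algebraMap M (AlgebraicClosure L)) ∘ w' (Fin.last s) = D.w (Fin.last s) := by
      funext i
      exact hw' _ _
    rw [h3] at h1
    exact h1
  · refine Splits.of_splits_map (algebraMap M (AlgebraicClosure L)) ?_ fun a ha => ?_
    · rw [hcrv]
      exact IsAlgClosed.splits _
    · rw [hcrv] at ha
      exact ⟨⟨a, hSM a (hSr i a ha)⟩, rfl⟩

end Pool.Agent.Helper37K9.RN
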