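import Pool.Agent.Helper37K9.RN.Rnc

/-!
The rational normal curve through the points of the generic fibre is defined over the base.
-/

set_option autoImplicit false
set_option linter.unusedSectionVars false

open Module Polynomial

namespace Pool.Agent.Helper37K9.RN

theorem QRel.map {R R' : Type} [CommRing R] [CommRing R'] {s : ℕ} {y : Fin (s + 1) → R}
    (h : QRel y) (f : R →+* R') : QRel fun k => f (y k) := by
  intro i j k l hij
  simp only
  rw [← map_mul, h i j k l hij, map_mul]

/-- homogenisation -/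
theorem exists_homog' {k : Type} [Field k] {N : ℕ} (G : MvPolynomial (Fin N) k) (i0 : Fin N) :
    ∃ (e : ℕ) (G' : MvPolynomial (Fin N) k), G'.IsHomogeneous e ∧
      ∀ {R : Type} [Field R] (f : k →+* R) (v : Fin N → R), v i0 ≠ 0 →
        MvPolynomial.eval₂ f v G' =
          v i0 ^ e * MvPolynomial.eval₂ f (fun i => v i / v i0) G := by
  classical
  have hsm : ∀ {R : Type} [Field R] (f : k →+* R) (v : Fin N → R) (c : R) (j : ℕ)
      (H : MvPolynomial (Fin N) k), H.IsHomogeneous j →
      MvPolynomial.eval₂ f (fun i => c * v i) H = c ^ j * MvPolynomial.eval₂ f v H := by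
    intro R _ f v c j H hH
    rw [MvPolynomial.eval₂_eq, MvPolynomial.eval₂_eq, Finset.mul_sum]
    refine Finset.sum_congr rfl fun d hd => ?_
    have h3 : d.degree = j := by
      rw [Finsupp.degree_eq_weight_one]
      exact hH (MvPolynomial.mem_support_iff.1 hd)
    simp only [mul_pow]
    rw [Finset.prod_mul_distrib, Finset.prod_pow_eq_pow_sum]
    change ∑ i ∈ d.support, d i = j at h3
    rw [h3]
    ring
  refine ⟨G.totalDegree, ∑ j ∈ Finset.range (G.totalDegree + 1),
    MvPolynomial.X i0 ^ (G.totalDegree - j) * MvPolynomial.homogeneousComponent j G, ?_,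
    fun {R} _ f v hv => ?_⟩
  · refine MvPolynomial.IsHomogeneous.sum _ _ _ fun j hj => ?_
    have h1 := (MvPolynomial.isHomogeneous_X_pow (R := k) i0 (G.totalDegree - j)).mul
      (MvPolynomial.homogeneousComponent_isHomogeneous j G)
    have h2 : G.totalDegree - j + j = G.totalDegree := by
      rw [Finset.mem_range] at hj
      omega
    rwa [h2] at h1
  · have h0 : MvPolynomial.eval₂ f (fun i => v i / v i0) G =
        ∑ j ∈ Finset.range (G.totalDegree + 1), MvPolynomial.eval₂ f (fun i => v i / v i0)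
          (MvPolynomial.homogeneousComponent j G) := by
      conv_lhs => rw [← MvPolynomial.sum_homogeneousComponent G]
      rw [MvPolynomial.eval₂_sum]
    rw [h0, MvPolynomial.eval₂_sum, Finset.mul_sum]
    refine Finset.sum_congr rfl fun j hj => ?_
    have h1 : v = fun i => v i0 * (v i / v i0) := by
      funext i
      field_simp
    rw [MvPolynomial.eval₂_mul, MvPolynomial.eval₂_pow, MvPolynomial.eval₂_X]
    conv_lhs =>
      arg 2
      rw [h1]
    rw [hsm f _ _ j _ (MvPolynomial.homogeneousComponent_isHomogeneous j G), ← mul_assoc,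
      ← pow_add]
    congr 2
    rw [Finset.mem_range] at hj
    omega

section

variable {L L' K : Type} [Field L] [Field L'] [Field K] [Algebra L L'] [Algebra L K]
  [FiniteDimensional L K] {N s : ℕ} {x : Fin N → K}

/-- a polynomial of low degree which vanishes at the conjugates of the parameters -/
theorem eq_zero_of_conj (D : Rnc L' (pts L L' x) s) (g : L' ≃ₐ[L] L') {p : L'[X]}
    (hp : ∀ σ, eval (g (D.t σ)) p = 0) (hd : p.natDegree < Fintype.card (K →ₐ[L] L')) : p = 0 :=
  eq_zero_of_natDegree_lt_card_of_eval_eq_zero p (f := fun σ => g (D.t σ))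
    (g.injective.comp D.t_inj) hp hd

/-- **The conjugates of the curve.** -/
theorem conj_curve (D : Rnc L' (pts L L' x) s)
    (hcard : 2 * s < Fintype.card (K →ₐ[L] L')) (g : L' ≃ₐ[L] L') :
    ∃ Y : Fin (s + 1) → L'[X], (∀ i, (crv D.w i).map (g : L' →+* L') =
      ∑ k, Y k * C (D.w k i)) ∧ QRel Y ∧ Y 0 ≠ 0 := by
  classical
  obtain ⟨ℓ, hℓ, -⟩ := exists_dual D.ind
  obtain ⟨Y, hY⟩ : ∃ Y : Fin (s + 1) → L'[X], Y = fun k =>
    ∑ i, C (ℓ k (Pi.single i 1)) * (crv D.w i).map (g : L' →+* L') := ⟨_, rfl⟩
  have hYev : ∀ k b, eval b (Y k) =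
      ℓ k (fun i => eval b ((crv D.w i).map (g : L' →+* L'))) := by
    intro k b
    rw [hY, eval_finsetSum]
    conv_rhs => rw [← Finset.univ_sum_single (fun i => eval b ((crv D.w i).map (g : L' →+* L'))),
      map_sum]
    refine Finset.sum_congr rfl fun i _ => ?_
    rw [eval_mul, eval_C]
    have h1 : (Pi.single i (eval b ((crv D.w i).map (g : L' →+* L'))) : Fin N → L') =
        eval b ((crv D.w i).map (g : L' →+* L')) • Pi.single i (1 : L') := by
      rw [← Pi.single_smul, smul_eq_mul, mul_one]
    rw [h1, map_smul, smul_eq_mul, mul_comm]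
  have hYdeg : ∀ k, (Y k).natDegree ≤ s := by
    intro k
    rw [hY]
    refine natDegree_sum_le_of_forall_le _ _ fun i _ => ?_
    refine (natDegree_C_mul_le _ _).trans ?_
    exact natDegree_map_le.trans (natDegree_crv _ _)
  -- the values at the conjugate parameters
  have hval : ∀ σ : K →ₐ[L] L', ∃ c b : L', c ≠ 0 ∧ ∀ i,
      eval (g (D.t σ)) ((crv D.w i).map (g : L' →+* L')) =
        c * ∑ k : Fin (s + 1), b ^ (k : ℕ) * D.w k i := by
    intro σ
    obtain ⟨τ, hτ⟩ : ∃ τ : K →ₐ[L] L', τ = (g : L' →ₐ[L] L').comp σ := ⟨_, rfl⟩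
    have hgc : g (D.c σ) ≠ 0 := (map_ne_zero g).2 (D.c_ne σ)
    refine ⟨(g (D.c σ))⁻¹ * D.c τ, D.t τ, mul_ne_zero (inv_ne_zero hgc) (D.c_ne τ),
      fun i => ?_⟩
    have h1 : eval (g (D.t σ)) ((crv D.w i).map (g : L' →+* L')) = g (eval (D.t σ) (crv D.w i)) :=
      eval_map_apply (g : L' →+* L') (D.t σ)
    have h2 := D.eq σ i
    have h3 := D.eq τ i
    have h4 : pts L L' x τ i = g (pts L L' x σ i) := by
      rw [hτ]
      rfl
    rw [h1, eval_crv, mul_assoc, ← h3, h4, h2, map_mul]
    rw [inv_mul_cancel_left₀ hgc]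
  have hℓw : ∀ (c b : L') (k : Fin (s + 1)),
      ℓ k (fun i => c * ∑ k : Fin (s + 1), b ^ (k : ℕ) * D.w k i) = c * b ^ (k : ℕ) := by
    intro c b k
    have h1 : (fun i => c * ∑ k : Fin (s + 1), b ^ (k : ℕ) * D.w k i) =
        ∑ k : Fin (s + 1), (c * b ^ (k : ℕ)) • D.w k := by
      funext i
      rw [Finset.sum_apply, Finset.mul_sum]
      refine Finset.sum_congr rfl fun k _ => ?_
      rw [Pi.smul_apply, smul_eq_mul]
      ring
    rw [h1, map_sum, Finset.sum_eq_single k]
    · rw [map_smul, hℓ, if_pos rfl, smul_eq_mul, mul_one]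
    · intro k' _ hk'
      rw [map_smul, hℓ, if_neg (Ne.symm hk'), smul_zero]
    · intro h
      exact absurd (Finset.mem_univ k) h
  have hYσ : ∀ σ : K →ₐ[L] L', ∃ c b : L', c ≠ 0 ∧ (∀ k, eval (g (D.t σ)) (Y k) =
      c * b ^ (k : ℕ)) ∧ ∀ i, eval (g (D.t σ)) ((crv D.w i).map (g : L' →+* L')) =
        c * ∑ k : Fin (s + 1), b ^ (k : ℕ) * D.w k i := by
    intro σ
    obtain ⟨c, b, hc, h1⟩ := hval σ
    refine ⟨c, b, hc, fun k => ?_, h1⟩
    rw [hYev]
    simp only [h1]
    exact hℓw c b k
  refine ⟨Y, fun i => ?_, fun i j k l hij => ?_, ?_⟩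
  · rw [← sub_eq_zero]
    refine eq_zero_of_conj D g (fun σ => ?_) ?_
    · obtain ⟨c, b, -, h1, h2⟩ := hYσ σ
      rw [eval_sub, h2, eval_finsetSum, Finset.mul_sum, sub_eq_zero]
      refine Finset.sum_congr rfl fun k _ => ?_
      rw [eval_mul, h1, eval_C]
      ring
    · have h3 : ((crv D.w i).map (g : L' →+* L') - ∑ k, Y k * C (D.w k i)).natDegree ≤ s := by
        refine (natDegree_sub_le _ _).trans (max_le
          (natDegree_map_le.trans (natDegree_crv D.w i)) ?_)
        refine natDegree_sum_le_of_forall_le _ _ fun k _ => ?_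
        exact (natDegree_mul_C_le _ _).trans (hYdeg k)
      omega
  · rw [← sub_eq_zero]
    refine eq_zero_of_conj D g (fun σ => ?_) ?_
    · obtain ⟨c, b, -, h1, -⟩ := hYσ σ
      have h2 := qRel_pow c b i j k l hij
      rw [eval_sub, eval_mul, eval_mul, h1, h1, h1, h1, sub_eq_zero]
      exact h2
    · have h3 : (Y i * Y j - Y k * Y l).natDegree ≤ s + s := by
        refine (natDegree_sub_le _ _).trans (max_le ?_ ?_)
        · exact natDegree_mul_le.trans (add_le_add (hYdeg _) (hYdeg _))
        · exact natDegree_mul_le.trans (add_le_add (hYdeg _) (hYdeg _))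
      omega
  · have hne : Nonempty (K →ₐ[L] L') := Fintype.card_pos_iff.1 (by omega)
    obtain ⟨σ⟩ := hne
    obtain ⟨c, b, hc, h1, -⟩ := hYσ σ
    intro h0
    have h2 := h1 0
    rw [h0, eval_zero] at h2
    simp at h2
    exact hc h2.symm

/-- the affine coordinates of the generic point of the curve -/
noncomputable def aff (w : Fin (s + 1) → Fin N → L') (i0 i : Fin N) : RatFunc L' :=
  algebraMap L'[X] (RatFunc L') (crv w i) / algebraMap L'[X] (RatFunc L') (crv w i0)

/-- **The ideal of the curve is invariant.** -/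
theorem conj_ideal (D : Rnc L' (pts L L' x) s) (hs : 1 ≤ s)
    (hcard : 2 * s < Fintype.card (K →ₐ[L] L')) [Infinite L'] {i0 : Fin N}
    (hi0 : crv D.w i0 ≠ 0) {G : MvPolynomial (Fin N) L'}
    (hG : MvPolynomial.aeval (aff D.w i0) G = 0) (g : L' ≃ₐ[L] L') :
    MvPolynomial.aeval (aff D.w i0) (MvPolynomial.map (g : L' →+* L') G) = 0 := by
  classical
  obtain ⟨e, G', hG', hhom⟩ := exists_homog' G i0
  obtain ⟨Y, hY1, hY2, hY3⟩ := conj_curve D hcard g.symm
  have hinj : Function.Injective (algebraMap L'[X] (RatFunc L')) :=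
    IsFractionRing.injective L'[X] (RatFunc L')
  have hy0 : algebraMap L'[X] (RatFunc L') (crv D.w i0) ≠ 0 := by
    rwa [Ne, map_eq_zero_iff _ hinj]
  -- the form vanishes on the curve
  have h1 : MvPolynomial.aeval (crv D.w) G' = 0 := by
    apply hinj
    rw [map_zero]
    have h2 := hhom (algebraMap L' (RatFunc L'))
      (fun i => algebraMap L'[X] (RatFunc L') (crv D.w i)) hy0
    have h3 : MvPolynomial.eval₂ (algebraMap L' (RatFunc L'))
        (fun i => algebraMap L'[X] (RatFunc L') (crv D.w i) /
          algebraMap L'[X] (RatFunc L') (crv D.w i0)) G = 0 := hG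
    rw [h3, mul_zero] at h2
    rw [← h2]
    exact (MvPolynomial.aeval_algebraMap_apply (RatFunc L') (crv D.w) G').symm
  have hev : ∀ (p : Fin N → L'[X]) (a : L'), eval a (MvPolynomial.aeval p G') =
      MvPolynomial.eval (fun i => eval a (p i)) G' := by
    intro p a
    have h5 := MvPolynomial.comp_aeval_apply (φ := (Polynomial.aeval a : L'[X] →ₐ[L'] L')) p G'
    have h6 : (fun j => (Polynomial.aeval a : L'[X] →ₐ[L'] L') (p j)) =
        fun i => eval a (p i) := by
      funext j
      exact congrFun (Polynomial.coe_aeval_eq_eval a) _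
    rw [h6] at h5
    rw [← congrFun (Polynomial.coe_aeval_eq_eval a), h5, MvPolynomial.aeval_eq_eval]
  -- it vanishes on the conjugate curve
  have h2 : MvPolynomial.aeval (fun i => (crv D.w i).map (g.symm : L' →+* L')) G' = 0 := by
    have h3 : MvPolynomial.aeval (fun i => (crv D.w i).map (g.symm : L' →+* L')) G' * Y 0 = 0 := by
      refine Polynomial.funext fun a => ?_
      rw [eval_mul, eval_zero]
      by_cases ha : eval a (Y 0) = 0
      · rw [ha, mul_zero]
      · have hq : QRel fun k => eval a (Y k) := hY2.map (evalRingHom a)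
        have h4 : (fun i => eval a ((crv D.w i).map (g.symm : L' →+* L'))) =
            fun i => eval a (Y 0) * eval (eval a (Y ⟨1, by omega⟩) / eval a (Y 0))
              (crv D.w i) := by
          funext i
          rw [hY1, eval_finsetSum, eval_crv, Finset.mul_sum]
          refine Finset.sum_congr rfl fun k _ => ?_
          rw [eval_mul, eval_C, hq.pow hs ha k]
          ring
        rw [hev, h4]
        have h5 : MvPolynomial.eval (fun i => eval a (Y 0) *
            eval (eval a (Y ⟨1, by omega⟩) / eval a (Y 0)) (crv D.w i)) G' =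
            eval a (Y 0) ^ e * MvPolynomial.eval (fun i =>
              eval (eval a (Y ⟨1, by omega⟩) / eval a (Y 0)) (crv D.w i)) G' := by
          rw [MvPolynomial.eval_eq, MvPolynomial.eval_eq, Finset.mul_sum]
          refine Finset.sum_congr rfl fun d hd => ?_
          have h3 : d.degree = e := by
            rw [Finsupp.degree_eq_weight_one]
            exact hG' (MvPolynomial.mem_support_iff.1 hd)
          simp only [mul_pow]
          rw [Finset.prod_mul_distrib, Finset.prod_pow_eq_pow_sum]
          change ∑ i ∈ d.support, d i = e at h3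
          rw [h3]
          ring
        rw [h5, ← hev, h1, eval_zero, mul_zero, zero_mul]
    exact (mul_eq_zero.1 h3).resolve_right hY3
  -- apply `g`
  have h3 : MvPolynomial.aeval (crv D.w) (MvPolynomial.map (g : L' →+* L') G') = 0 := by
    have h4 := congrArg (Polynomial.mapRingHom (g : L' →+* L')) h2
    rw [map_zero] at h4
    rw [← h4, MvPolynomial.aeval_def, MvPolynomial.aeval_def, MvPolynomial.eval₂_comp_left,
      MvPolynomial.eval₂_map]
    congr 1
    · ext a
      · simp
    · funext i
      simp only [Function.comp, Polynomial.coe_mapRingHom, Polynomial.map_map]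
      have h5 : ((g : L' →+* L').comp (g.symm : L' →+* L')) = RingHom.id L' := by
        ext a
        simp
      rw [h5, Polynomial.map_id]
  have h4 := hhom ((algebraMap L' (RatFunc L')).comp (g : L' →+* L'))
    (fun i => algebraMap L'[X] (RatFunc L') (crv D.w i)) hy0
  have h5 : MvPolynomial.eval₂ ((algebraMap L' (RatFunc L')).comp (g : L' →+* L'))
      (fun i => algebraMap L'[X] (RatFunc L') (crv D.w i)) G' = 0 := by
    rw [← MvPolynomial.eval₂_map, ← MvPolynomial.aeval_def]
    have h6 := MvPolynomial.aeval_algebraMap_apply (RatFunc L') (crv D.w)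
      (MvPolynomial.map (g : L' →+* L') G')
    rw [h3, map_zero] at h6
    exact h6
  rw [h5] at h4
  have h6 := (mul_eq_zero.1 h4.symm).resolve_left (pow_ne_zero _ hy0)
  rw [← MvPolynomial.eval₂_map] at h6
  exact h6

/-- **The constants of the function field of the curve.** -/
theorem const_mem (D : Rnc L' (pts L L' x) s) (hs : 1 ≤ s)
    (hcard : 2 * s < Fintype.card (K →ₐ[L] L')) [Infinite L'] [FiniteDimensional L L']
    [IsGalois L L'] {i0 : Fin N} (hi0 : crv D.w i0 ≠ 0) {l : L'}
    (hl : algebraMap L' (RatFunc L') l ∈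
      IntermediateField.adjoin L (Set.range (aff D.w i0))) : l ∈ (algebraMap L L').range := by
  rw [IntermediateField.mem_adjoin_range_iff] at hl
  obtain ⟨P, Q, hPQ⟩ := hl
  by_cases hQ : MvPolynomial.aeval (aff D.w i0) Q = 0
  · rw [hQ, div_zero, map_eq_zero] at hPQ
    rw [hPQ]
    exact zero_mem _
  rw [eq_div_iff hQ] at hPQ
  rw [RingHom.mem_range]
  have hfix : ∀ g : L' ≃ₐ[L] L', g l = l := by
    intro g
    obtain ⟨G, hG⟩ : ∃ G : MvPolynomial (Fin N) L', G = MvPolynomial.C l *
      MvPolynomial.map (algebraMap L L') Q - MvPolynomial.map (algebraMap L L') P := ⟨_, rfl⟩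
    have hL : ∀ R : MvPolynomial (Fin N) L, MvPolynomial.aeval (aff D.w i0)
        (MvPolynomial.map (algebraMap L L') R) = MvPolynomial.aeval (aff D.w i0) R := fun R =>
      MvPolynomial.aeval_map_algebraMap L' _ R
    have h1 : MvPolynomial.aeval (aff D.w i0) G = 0 := by
      rw [hG, map_sub, map_mul, MvPolynomial.aeval_C, hL, hL, hPQ, sub_self]
    have h2 := conj_ideal D hs hcard hi0 h1 g
    have h3 : ∀ R : MvPolynomial (Fin N) L, MvPolynomial.map (g : L' →+* L')
        (MvPolynomial.map (algebraMap L L') R) = MvPolynomial.map (algebraMap L L') R := by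
      intro R
      have h5 : (g : L' →+* L').comp (algebraMap L L') = algebraMap L L' := by
        ext a
        simp
      rw [MvPolynomial.map_map, h5]
    rw [hG, map_sub, map_mul, MvPolynomial.map_C, h3, h3, map_sub, map_mul, MvPolynomial.aeval_C,
      hL, hL, ← hPQ, sub_eq_zero] at h2
    have h4 := mul_right_cancel₀ hQ h2
    exact (algebraMap L' (RatFunc L')).injective h4
  have h1 := (IsGalois.mem_range_algebraMap_iff_fixed (F := L) (E := L') l).2 hfix
  exact h1

end

end Pool.Agent.Helper37K9.RN
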