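import Mathlib

/-!
Points in linearly general position: linear forms.
-/

set_option autoImplicit false

open Module

namespace Pool.Agent.Helper37K9.RN

variable {F E : Type} [Field F] [AddCommGroup E] [Module F E]

/-- the dual family of a linearly independent family -/
theorem exists_dual {ι : Type} [Fintype ι] [DecidableEq ι] {v : ι → E}
    (hv : LinearIndependent F v) :
    ∃ f : ι → (E →ₗ[F] F), (∀ i j, f i (v j) = if i = j then 1 else 0) ∧
      ∀ w ∈ Submodule.span F (Set.range v), w = ∑ i, f i w • v i := by
  choose f hf using fun i => LinearMap.exists_extend ((Basis.span hv).coord i)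
  have hfi : ∀ (i : ι) (w : Submodule.span F (Set.range v)), f i w = (Basis.span hv).coord i w :=
    fun i w => by
      rw [← hf i]
      rfl
  refine ⟨f, fun i j => ?_, fun w hw => ?_⟩
  · have h1 := hfi i ⟨v j, Submodule.subset_span ⟨j, rfl⟩⟩
    have h2 : (⟨v j, Submodule.subset_span ⟨j, rfl⟩⟩ : Submodule.span F (Set.range v)) =
        Basis.span hv j := (Basis.span_apply hv j).symm
    have h3 : f i (v j) = (Basis.span hv).coord i (Basis.span hv j) := by
      rw [← h2]
      exact h1
    rw [h3, Basis.coord_apply, Basis.repr_self, Finsupp.single_apply]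
    simp [eq_comm]
  · have h1 := (Basis.span hv).sum_repr ⟨w, hw⟩
    have h2 := congrArg Subtype.val h1
    rw [AddSubmonoidClass.coe_finsetSum] at h2
    change _ = w at h2
    refine h2.symm.trans (Finset.sum_congr rfl fun i _ => ?_)
    rw [hfi i ⟨w, hw⟩, Basis.coord_apply]
    change _ • (Basis.span hv i : E) = _
    rw [Basis.span_apply]

/-- The points `z j` are in linearly general position in a linear space of dimension `s`: any
`s + 1` of them are a basis of the linear span of all of them. -/
def GenPos {J : Type} (z : J → E) (s : ℕ) : Prop :=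
  (∀ S : Finset J, S.card = s + 1 → LinearIndependent F fun j : S => z j) ∧
    finrank F (Submodule.span F (Set.range z)) = s + 1

variable {J : Type} {z : J → E} {s : ℕ}

theorem GenPos.span_eq (h : GenPos (F := F) z s) {S : Finset J} (hS : S.card = s + 1) :
    Submodule.span F (Set.range fun j : S => z j) = Submodule.span F (Set.range z) := by
  have hfin : FiniteDimensional F (Submodule.span F (Set.range z)) :=
    FiniteDimensional.of_finrank_pos (by rw [h.2]; omega)
  apply Submodule.eq_of_le_of_finrank_eq
  · apply Submodule.span_mono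
    rintro _ ⟨j, rfl⟩
    exact ⟨j, rfl⟩
  · rw [finrank_span_eq_card (h.1 S hS), h.2, Fintype.card_coe, hS]

/-- a linear form which vanishes at `s + 1` of the points vanishes at all of them -/
theorem GenPos.zero (h : GenPos (F := F) z s) {S : Finset J} (hS : S.card = s + 1)
    {f : E →ₗ[F] F} (hf : ∀ j ∈ S, f (z j) = 0) (j : J) : f (z j) = 0 := by
  have h1 : z j ∈ Submodule.span F (Set.range fun j : S => z j) := by
    rw [h.span_eq hS]
    exact Submodule.subset_span ⟨j, rfl⟩
  have h2 : Submodule.span F (Set.range fun j : S => z j) ≤ LinearMap.ker f := by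
    rw [Submodule.span_le]
    rintro _ ⟨i, rfl⟩
    exact hf i i.2
  exact h2 h1

/-- the dual family of `s + 1` of the points -/
theorem GenPos.dual [DecidableEq J] (h : GenPos (F := F) z s) {S : Finset J}
    (hS : S.card = s + 1) :
    ∃ f : J → (E →ₗ[F] F), (∀ i ∈ S, ∀ j ∈ S, f i (z j) = if i = j then 1 else 0) ∧
      ∀ j, z j = ∑ i ∈ S, f i (z j) • z i := by
  classical
  obtain ⟨f, hf1, hf2⟩ := exists_dual (h.1 S hS)
  refine ⟨fun i => if hi : i ∈ S then f ⟨i, hi⟩ else 0, fun i hi j hj => ?_, fun j => ?_⟩
  · simp only [dif_pos hi]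
    rw [hf1 ⟨i, hi⟩ ⟨j, hj⟩]
    simp [Subtype.ext_iff]
  · have h1 : z j ∈ Submodule.span F (Set.range fun j : S => z j) := by
      rw [h.span_eq hS]
      exact Submodule.subset_span ⟨j, rfl⟩
    conv_lhs => rw [hf2 _ h1]
    rw [← Finset.sum_coe_sort S]
    refine Finset.sum_congr rfl fun i _ => ?_
    simp only [dif_pos i.2]

end Pool.Agent.Helper37K9.RN
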