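import Pool.Agent.Helper37K9.RN.MainA
import Pool.Agent.Helper37K9.RN.Inv
import Pool.Agent.Helper37K9.CI.Jac
import Pool.Agent.Helper37K9.CI.Spec
import Pool.Agent.Y692.NT.JacA

/-!
Curves through two points of the fibre are not contained in the variety.
-/

set_option autoImplicit false
set_option linter.overlappingInstances false
set_option linter.unusedSectionVars false

open FF Polynomial Pool.Agent.W602.GT Pool.Agent.W603.LV Pool.Agent.Y184.NT

namespace Pool.Agent.Helper37K9.RN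

section

variable {L K : Type} [Field L] [Field K] [Algebra ℂ L] [Algebra ℂ K] [Algebra L K]
  [IsScalarTower ℂ L K] [FiniteDimensional L K] [hessK : Algebra.EssFiniteType ℂ K]
  {n N m s : ℕ}

theorem aeval_pts (x : Fin N → K) (σ : K →ₐ[L] AlgebraicClosure L) (G : MvPolynomial (Fin N) ℂ) :
    MvPolynomial.aeval (pts L (AlgebraicClosure L) x σ) G = σ (MvPolynomial.aeval x G) := by
  have h5 := MvPolynomial.comp_aeval_apply (φ := σ.restrictScalars ℂ) x G
  exact h5.symm

/-- a curve through two different points of the fibre is not contained in the variety -/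
theorem curve_const (hNLG : StNLG) (hn : Algebra.trdeg ℂ K = n) {x : Fin N → K} {i0 : Fin N}
    (hi0 : x i0 = 1) (hgen : IntermediateField.adjoin ℂ (Set.range x) = ⊤)
    {ω : (Fin n → Derivation ℂ K K) → K} (hω : IsPluri 1 ω) (hω0 : ∃ D, ω D ≠ 0)
    (hωr : ∀ P : Place ℂ K, Divisorial n P → RegAt P ω)
    {φ : Fin N → (AlgebraicClosure L)[X]}
    (hall : ∀ (e : ℕ) (G : MvPolynomial (Fin N) ℂ), G.IsHomogeneous e →
      (MvPolynomial.aeval x G = 0 ↔ MvPolynomial.aeval φ G = 0))
    {j1 j2 : K →ₐ[L] AlgebraicClosure L} (hj : j1 ≠ j2)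
    (h1 : ∃ t c : AlgebraicClosure L, c ≠ 0 ∧
      ∀ i, eval t (φ i) = c * pts L (AlgebraicClosure L) x j1 i)
    (h2 : ∃ t c : AlgebraicClosure L, c ≠ 0 ∧
      ∀ i, eval t (φ i) = c * pts L (AlgebraicClosure L) x j2 i) : False := by
  classical
  have hL : Algebra.trdeg ℂ L = n := trdeg_below (K := K) hn
  obtain ⟨y, hy⟩ : ∃ y : Fin N → RatFunc (AlgebraicClosure L),
    y = fun i => algebraMap (AlgebraicClosure L)[X] _ (φ i) := ⟨_, rfl⟩
  have hyG : ∀ G : MvPolynomial (Fin N) ℂ, MvPolynomial.aeval y G =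
      algebraMap (AlgebraicClosure L)[X] _ (MvPolynomial.aeval φ G) := by
    intro G
    have h5 := MvPolynomial.comp_aeval_apply (φ := (IsScalarTower.toAlgHom ℂ
      (AlgebraicClosure L)[X] (RatFunc (AlgebraicClosure L)))) φ G
    rw [hy]
    exact h5.symm
  have hyG0 : ∀ G : MvPolynomial (Fin N) ℂ, MvPolynomial.aeval y G = 0 ↔
      MvPolynomial.aeval φ G = 0 := by
    intro G
    rw [hyG]
    exact map_eq_zero_iff _ (IsFractionRing.injective _ _)
  obtain ⟨hy0, Φ, hΦ⟩ := exists_hom_proj x y hgen hi0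
    fun e G hG' => (hall e G hG').trans (hyG0 G).symm
  obtain ⟨z, E, hz, -⟩ := Pool.Agent.Y172.exists_crd (k := ℂ) (K := L) hL
  have hzΩ : IsTranscendenceBasis ℂ (fun j => algebraMap L (AlgebraicClosure L) (z j)) :=
    hz.algebraMap_comp
  choose C hC using fun i => hNLG K (AlgebraicClosure L) n n hn _ hzΩ ω hω hωr hω0 Φ (x i)
  have hφC : ∀ i, φ i = Polynomial.C (C i) * φ i0 := by
    intro i
    have h3 := hC i
    rw [hΦ, hy, div_eq_iff (by rw [hy] at hy0; exact hy0)] at h3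
    apply IsFractionRing.injective (AlgebraicClosure L)[X] (RatFunc (AlgebraicClosure L))
    rw [map_mul]
    exact h3
  have hpt : ∀ p : K →ₐ[L] AlgebraicClosure L, (∃ t c : AlgebraicClosure L, c ≠ 0 ∧
      ∀ i, eval t (φ i) = c * pts L (AlgebraicClosure L) x p i) →
      ∀ i, pts L (AlgebraicClosure L) x p i = C i := by
    intro p hp i
    obtain ⟨t, c, hc0, hc⟩ := hp
    have h3 := hc i
    have h4 := hc i0
    have h5 : pts L (AlgebraicClosure L) x p i0 = 1 := by
      change p (x i0) = 1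
      rw [hi0, map_one]
    rw [h5, mul_one] at h4
    rw [hφC, eval_mul, eval_C, h4] at h3
    apply mul_left_cancel₀ hc0
    rw [← h3, mul_comm]
  exact hj (pts_inj hgen fun i => by rw [hpt _ h1, hpt _ h2])

end

section

variable {L K : Type} [Field L] [Field K] [Algebra ℂ L] [Algebra ℂ K] [Algebra L K]
  [IsScalarTower ℂ L K] [FiniteDimensional L K] [hessK : Algebra.EssFiniteType ℂ K]
  {n N m s : ℕ}

/-- if the equations of the variety vanish on a curve through one of the points of the fibre, then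
the curve is in the variety -/
theorem curve_in {κ : Type} [Fintype κ] [DecidableEq κ]
    {F : κ → MvPolynomial (Fin (N + 1)) ℂ} {d : κ → ℕ} (hd : ∀ k, (F k).IsHomogeneous (d k))
    (hdim : n + Fintype.card κ = N) (hn : Algebra.trdeg ℂ K = n)
    {x : Fin (N + 1) → K} {i0 : Fin (N + 1)}
    (hi0 : x i0 = 1) (hgen : IntermediateField.adjoin ℂ (Set.range x) = ⊤)
    (hgr : LinearIndependent K fun (k : κ) (j : Fin (N + 1)) =>
      MvPolynomial.aeval x (MvPolynomial.pderiv j (F k)))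
    {φ : Fin (N + 1) → (AlgebraicClosure L)[X]} {j1 : K →ₐ[L] AlgebraicClosure L}
    (h1 : ∃ t c : AlgebraicClosure L, c ≠ 0 ∧
      ∀ i, eval t (φ i) = c * pts L (AlgebraicClosure L) x j1 i)
    (h0 : ∀ k, MvPolynomial.aeval φ (F k) = 0) (e : ℕ) (G : MvPolynomial (Fin (N + 1)) ℂ)
    (hG : G.IsHomogeneous e) : MvPolynomial.aeval x G = 0 ↔ MvPolynomial.aeval φ G = 0 := by
  classical
  have hspf : ∀ (e : ℕ) (G : MvPolynomial (Fin (N + 1)) ℂ), G.IsHomogeneous e →
      MvPolynomial.aeval φ G = 0 → MvPolynomial.aeval x G = 0 := by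
    intro e G hG' hGy
    obtain ⟨t, c, hc0, hc⟩ := h1
    have h3 : eval t (MvPolynomial.aeval φ G) = 0 := by rw [hGy, eval_zero]
    rw [eval_aeval] at h3
    simp only [hc] at h3
    rw [Pool.Agent.Y988.NT.aeval_smul_form hG', aeval_pts] at h3
    exact (map_eq_zero j1).1 ((mul_eq_zero.1 h3).resolve_left (pow_ne_zero _ hc0))
  refine ⟨fun hGx => ?_, hspf e G hG⟩
  have hφ0 : φ i0 ≠ 0 := by
    intro h2
    obtain ⟨t, c, hc0, hc⟩ := h1
    have h3 := hc i0
    rw [h2, eval_zero] at h3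
    have h5 : pts L (AlgebraicClosure L) x j1 i0 = 1 := by
      change j1 (x i0) = 1
      rw [hi0, map_one]
    rw [h5, mul_one] at h3
    exact hc0 h3.symm
  have hinj : Function.Injective (algebraMap (AlgebraicClosure L)[X]
    (RatFunc (AlgebraicClosure L))) := IsFractionRing.injective _ _
  obtain ⟨v, hv⟩ : ∃ v : Fin (N + 1) → RatFunc (AlgebraicClosure L),
    v = fun i => algebraMap (AlgebraicClosure L)[X] _ (φ i) := ⟨_, rfl⟩
  have hvG : ∀ G : MvPolynomial (Fin (N + 1)) ℂ, MvPolynomial.aeval v G =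
      algebraMap (AlgebraicClosure L)[X] _ (MvPolynomial.aeval φ G) := by
    intro G
    have h5 := MvPolynomial.comp_aeval_apply (φ := (IsScalarTower.toAlgHom ℂ
      (AlgebraicClosure L)[X] (RatFunc (AlgebraicClosure L)))) φ G
    rw [hv]
    exact h5.symm
  have hv0 : v i0 ≠ 0 := by
    rw [hv]
    exact (map_ne_zero_iff _ hinj).2 hφ0
  obtain ⟨y, hy⟩ : ∃ y : Fin (N + 1) → RatFunc (AlgebraicClosure L),
    y = fun i => (v i0)⁻¹ * v i := ⟨_, rfl⟩
  have hyj : y i0 = 1 := by
    rw [hy]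
    exact inv_mul_cancel₀ hv0
  have hyform : ∀ (e : ℕ) (G : MvPolynomial (Fin (N + 1)) ℂ), G.IsHomogeneous e →
      (MvPolynomial.aeval y G = 0 ↔ MvPolynomial.aeval φ G = 0) := by
    intro e G hG
    rw [hy, Pool.Agent.Y988.NT.aeval_smul_form hG, hvG, mul_eq_zero, map_eq_zero_iff _ hinj]
    exact or_iff_right (pow_ne_zero _ (inv_ne_zero hv0))
  have hspec : ∀ G : MvPolynomial (Fin (N + 1)) ℂ, MvPolynomial.aeval y G = 0 →
      MvPolynomial.aeval x G = 0 := by
    intro G hGy
    obtain ⟨e', G', hG', hhom⟩ := exists_homog' G i0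
    have h3 := hhom (algebraMap ℂ (RatFunc (AlgebraicClosure L))) y
      (by rw [hyj]; exact one_ne_zero)
    have h4 := hhom (algebraMap ℂ K) x (by rw [hi0]; exact one_ne_zero)
    simp only [hyj, div_one, one_pow, one_mul] at h3
    simp only [hi0, div_one, one_pow, one_mul] at h4
    change MvPolynomial.aeval y G' = MvPolynomial.aeval y G at h3
    change MvPolynomial.aeval x G' = MvPolynomial.aeval x G at h4
    rw [← h4]
    exact hspf e' G' hG' ((hyform e' G' hG').1 (by rw [h3, hGy]))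
  obtain ⟨S, hS⟩ := Pool.Agent.Helper37K9.CI.exists_jac hgr
  have hind : LinearIndependent (RatFunc (AlgebraicClosure L)) fun (k : κ) (j : Fin (N + 1)) =>
      MvPolynomial.aeval y (MvPolynomial.pderiv j (F k)) :=
    Pool.Agent.Helper37K9.CI.ind_of_jac (S := S) fun h0 => hS (hspec _ h0)
  have htr := Pool.Agent.Helper37K9.CI.trdeg_le_of_grad hyj hd
    (fun k => (hyform _ _ (hd k)).2 (h0 k)) hind hdim
  obtain ⟨s, hs⟩ := Pool.Agent.Helper37K9.CI.exists_coord x (d := n) (by
    rw [hgen]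
    have h1 : Algebra.trdeg ℂ (⊤ : IntermediateField ℂ K) = Algebra.trdeg ℂ K :=
      IntermediateField.topEquiv.trdeg_eq
    rw [h1, hn])
  exact (hyform e G hG).1 (Pool.Agent.Helper37K9.CI.spec_eq hspec htr hs G hGx)

/-- the equations do not all vanish on a curve through two points of the fibre -/
theorem curve_not_in (hNLG : StNLG) {κ : Type} [Fintype κ] [DecidableEq κ]
    {F : κ → MvPolynomial (Fin (N + 1)) ℂ} {d : κ → ℕ} (hd : ∀ k, (F k).IsHomogeneous (d k))
    (hdim : n + Fintype.card κ = N) (hn : Algebra.trdeg ℂ K = n)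
    {x : Fin (N + 1) → K} {i0 : Fin (N + 1)}
    (hi0 : x i0 = 1) (hgen : IntermediateField.adjoin ℂ (Set.range x) = ⊤)
    (hgr : LinearIndependent K fun (k : κ) (j : Fin (N + 1)) =>
      MvPolynomial.aeval x (MvPolynomial.pderiv j (F k)))
    {ω : (Fin n → Derivation ℂ K K) → K} (hω : IsPluri 1 ω) (hω0 : ∃ D, ω D ≠ 0)
    (hωr : ∀ P : Place ℂ K, Divisorial n P → RegAt P ω)
    {φ : Fin (N + 1) → (AlgebraicClosure L)[X]} {j1 j2 : K →ₐ[L] AlgebraicClosure L} (hj : j1 ≠ j2)
    (h1 : ∃ t c : AlgebraicClosure L, c ≠ 0 ∧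
      ∀ i, eval t (φ i) = c * pts L (AlgebraicClosure L) x j1 i)
    (h2 : ∃ t c : AlgebraicClosure L, c ≠ 0 ∧
      ∀ i, eval t (φ i) = c * pts L (AlgebraicClosure L) x j2 i)
    (h0 : ∀ k, MvPolynomial.aeval φ (F k) = 0) : False :=
  curve_const hNLG hn hi0 hgen hω hω0 hωr (curve_in hd hdim hn hi0 hgen hgr h1 h0) hj h1 h2

end

end Pool.Agent.Helper37K9.RN
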