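import Pool.Agent.Helper37K9.RN.Fibre

/-!
Rational normal curves through the points.
-/

set_option autoImplicit false

open Module Polynomial

namespace Pool.Agent.Helper37K9.RN

section rel

/-- the quadratic relations of the rational normal curve -/
def QRel {R : Type} [CommRing R] {s : ℕ} (y : Fin (s + 1) → R) : Prop :=
  ∀ i j k l : Fin (s + 1), (i : ℕ) + j = k + l → y i * y j = y k * y l

variable {F : Type} [Field F] {s : ℕ}

theorem QRel.pow {y : Fin (s + 1) → F} (h : QRel y) (hs : 1 ≤ s) (h0 : y 0 ≠ 0)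
    (k : Fin (s + 1)) : y k = y 0 * (y ⟨1, by omega⟩ / y 0) ^ (k : ℕ) := by
  obtain ⟨k, hk⟩ := k
  induction k with
  | zero => simp
  | succ k ih =>
    have h1 := h 0 ⟨k + 1, hk⟩ ⟨1, by omega⟩ ⟨k, by omega⟩ (by
      change (0 : ℕ) + (k + 1) = 1 + k
      ring)
    have h2 := ih (by omega)
    apply mul_left_cancel₀ h0
    have h3 : y ⟨1, by omega⟩ / y 0 * y 0 = y ⟨1, by omega⟩ := div_mul_cancel₀ _ h0
    rw [h1, h2]
    simp only
    rw [pow_succ]
    linear_combination (-(y 0 * (y ⟨1, by omega⟩ / y 0) ^ k)) * h3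

theorem QRel.zero {y : Fin (s + 1) → F} (h : QRel y) (h0 : y 0 = 0)
    (k : Fin (s + 1)) (hk : (k : ℕ) < s) : y k = 0 := by
  obtain ⟨k, hk'⟩ := k
  induction k with
  | zero => exact h0
  | succ k ih =>
    have hk2 : k + 2 < s + 1 := by
      change k + 1 < s at hk
      omega
    have h1 := h ⟨k + 1, hk'⟩ ⟨k + 1, hk'⟩ ⟨k, by omega⟩ ⟨k + 2, hk2⟩ (by
      change (k + 1) + (k + 1) = k + (k + 2)
      ring)
    rw [ih (by omega) (by change k < s; omega), zero_mul] at h1
    exact mul_self_eq_zero.1 h1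

theorem qRel_pow (c t : F) : QRel fun k : Fin (s + 1) => c * t ^ (k : ℕ) := by
  intro i j k l h
  have h1 : c * t ^ (i : ℕ) * (c * t ^ (j : ℕ)) = c * c * t ^ ((i : ℕ) + j) := by ring
  have h2 : c * t ^ (k : ℕ) * (c * t ^ (l : ℕ)) = c * c * t ^ ((k : ℕ) + l) := by ring
  rw [h1, h2, h]

end rel

/-- the curve with the coefficient vectors `w` -/
noncomputable def crv {F ι : Type} [Field F] {s : ℕ} (w : Fin (s + 1) → ι → F) (i : ι) : F[X] :=
  ∑ k : Fin (s + 1), C (w k i) * X ^ (k : ℕ)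

/-- points on a rational normal curve of degree `s` -/
structure Rnc (F : Type) {ι J : Type} [Field F] (z : J → ι → F) (s : ℕ) where
  w : Fin (s + 1) → ι → F
  ind : LinearIndependent F w
  t : J → F
  c : J → F
  c_ne : ∀ j, c j ≠ 0
  t_inj : Function.Injective t
  eq : ∀ j i, z j i = c j * ∑ k : Fin (s + 1), t j ^ (k : ℕ) * w k i

section

variable {F ι J : Type} [Field F] {s : ℕ}

theorem eval_crv (w : Fin (s + 1) → ι → F) (i : ι) (t : F) :
    eval t (crv w i) = ∑ k : Fin (s + 1), t ^ (k : ℕ) * w k i := by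
  rw [crv, eval_finsetSum]
  refine Finset.sum_congr rfl fun k _ => ?_
  rw [eval_mul, eval_C, eval_pow, eval_X, mul_comm]

theorem natDegree_crv (w : Fin (s + 1) → ι → F) (i : ι) : (crv w i).natDegree ≤ s := by
  refine natDegree_sum_le_of_forall_le _ _ fun k _ => ?_
  refine (natDegree_C_mul_X_pow_le _ _).trans ?_
  omega

/-- a non-root -/
theorem exists_nonroot [Infinite F] {p : F[X]} (hp : p ≠ 0) : ∃ a, eval a p ≠ 0 := by
  by_contra hcon
  push Not at hcon
  exact hp (Polynomial.funext fun a => by rw [hcon a, eval_zero])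

/-- a change of the parameter -/
theorem Rnc.move [Infinite F] [Algebra ℂ F] [Finite J] {N : ℕ} {z : J → Fin N → F}
    (D : Rnc F z s) {G : MvPolynomial (Fin N) ℂ} (hGφ : MvPolynomial.aeval (crv D.w) G ≠ 0) :
    ∃ D' : Rnc F z s, MvPolynomial.aeval (D'.w (Fin.last s)) G ≠ 0 := by
  classical
  have : Fintype J := Fintype.ofFinite J
  obtain ⟨φ, hφe⟩ : ∃ φ, φ = crv D.w := ⟨_, rfl⟩
  obtain ⟨t, hte⟩ : ∃ t, t = D.t := ⟨_, rfl⟩
  rw [← hφe] at hGφ
  have hφ : ∀ i, (φ i).natDegree ≤ s := fun i => by rw [hφe]; exact natDegree_crv _ _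
  obtain ⟨μ, hμ⟩ : ∃ μ, eval μ (MvPolynomial.aeval φ G * ∏ j, (X - C (t j))) ≠ 0 :=
    exists_nonroot (mul_ne_zero hGφ (Finset.prod_ne_zero_iff.2 fun j _ => X_sub_C_ne_zero _))
  rw [eval_mul, eval_prod] at hμ
  have hμ1 := left_ne_zero_of_mul hμ
  have hμt : ∀ j, t j - μ ≠ 0 := by
    intro j h0
    have h1 := Finset.prod_ne_zero_iff.1 (right_ne_zero_of_mul hμ) j (Finset.mem_univ j)
    rw [eval_sub, eval_X, eval_C] at h1
    apply h1
    linear_combination -h0
  obtain ⟨φ', hφ'⟩ : ∃ φ' : Fin N → F[X], φ' = fun i => reflect s (taylor μ (φ i)) := ⟨_, rfl⟩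
  have hev : ∀ (i : Fin N) (τ : F), τ ≠ 0 →
      eval τ⁻¹ (φ' i) * τ ^ s = eval (τ + μ) (φ i) := by
    intro i τ hτ
    have hinv : Invertible τ := invertibleOfNonzero hτ
    have h1 := eval₂_reflect_mul_pow (RingHom.id F) τ s (taylor μ (φ i))
      (by rw [natDegree_taylor]; exact hφ i)
    rw [invOf_eq_inv] at h1
    rw [hφ']
    change eval₂ (RingHom.id F) _ _ * _ = _
    rw [h1]
    change eval τ (taylor μ (φ i)) = _
    rw [taylor_eval]
  have hdeg' : ∀ i, (φ' i).natDegree ≤ s := by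
    intro i
    rw [hφ', natDegree_le_iff_coeff_eq_zero]
    intro k hk
    simp only
    rw [coeff_reflect, revAt_eq_self_of_lt hk]
    exact coeff_eq_zero_of_natDegree_lt (by rw [natDegree_taylor]; exact (hφ i).trans_lt hk)
  obtain ⟨w, hw⟩ : ∃ w : Fin (s + 1) → Fin N → F, w = fun (k : Fin (s + 1)) i => (φ' i).coeff (k : ℕ) :=
    ⟨_, rfl⟩
  have hsum : ∀ (i : Fin N) (τ : F), eval τ (φ' i) = ∑ k : Fin (s + 1), τ ^ (k : ℕ) * w k i := by
    intro i τ
    rw [eval_eq_sum_range' (Nat.lt_succ_of_le (hdeg' i)), Finset.sum_range]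
    refine Finset.sum_congr rfl fun k _ => ?_
    rw [hw, mul_comm]
  have hws : MvPolynomial.aeval (w (Fin.last s)) G ≠ 0 := by
    have h1 : w (Fin.last s) = fun i => eval μ (φ i) := by
      funext i
      rw [hw, hφ']
      simp only [Fin.val_last]
      rw [coeff_reflect, revAt_le le_rfl, Nat.sub_self, taylor_coeff_zero]
    rw [h1, ← eval_aeval]
    exact hμ1
  -- independence
  have hmem : ∀ k, D.w k ∈ Submodule.span F (Set.range w) := by
    intro k
    have h2 : D.w k = ∑ l : Fin (s + 1),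
        ((taylor (-μ) (X ^ (s - (l : ℕ)) : F[X])).coeff (k : ℕ)) • w l := by
      funext i
      have h3 : taylor μ (φ i) = ∑ l : Fin (s + 1), C (w l i) * X ^ (s - (l : ℕ)) := by
        ext e
        rw [finsetSum_coeff]
        simp only [coeff_C_mul, coeff_X_pow]
        by_cases he : e ≤ s
        · rw [Finset.sum_eq_single ⟨s - e, by omega⟩]
          · rw [if_pos (by simp only; omega), mul_one, hw, hφ']
            simp only
            rw [coeff_reflect, revAt_le (by omega)]
            congr 1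
            omega
          · intro l _ hl
            rw [if_neg, mul_zero]
            intro h4
            apply hl
            have := l.2
            exact Fin.ext (by simp only; omega)
          · intro h
            exact absurd (Finset.mem_univ _) h
        · rw [Finset.sum_eq_zero]
          · exact coeff_eq_zero_of_natDegree_lt
              (by rw [natDegree_taylor]; exact (hφ i).trans_lt (by omega))
          · intro l _
            rw [if_neg (by omega), mul_zero]
      have h4 : φ i = taylor (-μ) (taylor μ (φ i)) := by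
        rw [taylor_taylor, neg_add_cancel, taylor_zero]
      have h5 : D.w k i = (φ i).coeff (k : ℕ) := by
        rw [hφe, crv, finsetSum_coeff, Finset.sum_eq_single k]
        · rw [coeff_C_mul, coeff_X_pow, if_pos rfl, mul_one]
        · intro k' _ hk'
          rw [coeff_C_mul, coeff_X_pow, if_neg, mul_zero]
          intro h
          exact hk' (Fin.ext h.symm)
        · intro h
          exact absurd (Finset.mem_univ _) h
      rw [h5, h4, h3, map_sum, finsetSum_coeff, Finset.sum_apply]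
      refine Finset.sum_congr rfl fun l _ => ?_
      rw [taylor_mul, taylor_C, coeff_C_mul, Pi.smul_apply, smul_eq_mul, mul_comm]
    rw [h2]
    exact Submodule.sum_mem _ fun l _ => Submodule.smul_mem _ _ (Submodule.subset_span ⟨l, rfl⟩)
  have hind : LinearIndependent F w := by
    rw [linearIndependent_iff_card_eq_finrank_span]
    apply le_antisymm
    · have h1 : Submodule.span F (Set.range D.w) ≤ Submodule.span F (Set.range w) := by
        rw [Submodule.span_le]
        rintro _ ⟨k, rfl⟩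
        exact hmem k
      have h2 := Submodule.finrank_mono h1
      rw [finrank_span_eq_card D.ind] at h2
      exact h2
    · exact finrank_range_le_card w
  refine ⟨{
    w := w
    ind := hind
    t := fun j => (t j - μ)⁻¹
    c := fun j => D.c j * (t j - μ) ^ s
    c_ne := fun j => mul_ne_zero (D.c_ne j) (pow_ne_zero _ (hμt j))
    t_inj := fun i j hij => ?_
    eq := fun j i => ?_ }, hws⟩
  · apply D.t_inj
    have h1 := inv_injective hij
    rw [hte] at h1
    exact sub_left_injective h1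
  · have h1 := hev i (t j - μ) (hμt j)
    rw [sub_add_cancel, hsum] at h1
    rw [D.eq j i, mul_assoc, mul_comm ((t j - μ) ^ s), h1, hφe, eval_crv, hte]

theorem exists_rnc [Infinite F] [Algebra ℂ F] [Fintype J] {N : ℕ} {κ : Type} {d' : κ → ℕ}
    {z : J → Fin N → F}
    (h : GenPos (F := F) z s) (hQ : FewQ F z s) (hs : 1 ≤ s) (hcard : 2 * s + 2 ≤ Fintype.card J)
    (hcard3 : 3 * s ≤ Fintype.card J) {G' : κ → MvPolynomial (Fin N) ℂ}
    (hG' : ∀ k, (G' k).IsHomogeneous (d' k)) (hGz' : ∀ k j, MvPolynomial.aeval (z j) (G' k) = 0)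
    (hnot : ∀ (φ : Fin N → F[X]) (j1 j2 : J), j1 ≠ j2 →
      (∃ t c : F, c ≠ 0 ∧ ∀ i, eval t (φ i) = c * z j1 i) →
      (∃ t c : F, c ≠ 0 ∧ ∀ i, eval t (φ i) = c * z j2 i) →
      ∃ k, MvPolynomial.aeval φ (G' k) ≠ 0) :
    Nonempty (Rnc F z s) := by
  classical
  obtain ⟨φ, t, q, hq, hφ, ht, hφt⟩ := exists_curve h hQ hs hcard
  have hqc : qᶜ.card + s = Fintype.card J + 1 := by
    rw [Finset.card_compl]
    have := Finset.card_le_univ q
    omega
  obtain ⟨p1, hp1, p2, hp2, hp12⟩ : ∃ p1 ∈ qᶜ, ∃ p2 ∈ qᶜ, p1 ≠ p2 :=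
    Finset.one_lt_card.1 (by omega)
  rw [Finset.mem_compl] at hp1 hp2
  obtain ⟨k0, hGφ⟩ : ∃ k, MvPolynomial.aeval φ (G' k) ≠ 0 := by
    obtain ⟨c1, hc1, hc1'⟩ := hφt p1 hp1
    obtain ⟨c2, hc2, hc2'⟩ := hφt p2 hp2
    exact hnot φ p1 p2 hp12 ⟨_, c1, hc1, hc1'⟩ ⟨_, c2, hc2, hc2'⟩
  obtain ⟨G, hGe⟩ : ∃ G, G = G' k0 := ⟨_, rfl⟩
  obtain ⟨d, hde⟩ : ∃ d, d = d' k0 := ⟨_, rfl⟩
  have hG := hG' k0
  have hGz := hGz' k0
  rw [← hGe] at hG hGz hGφ
  rw [← hde] at hG
  -- the point which goes to infinity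
  obtain ⟨μ, hμ⟩ : ∃ μ, eval μ (MvPolynomial.aeval φ G * ∏ j, (X - C (t j))) ≠ 0 :=
    exists_nonroot (mul_ne_zero hGφ (Finset.prod_ne_zero_iff.2 fun j _ => X_sub_C_ne_zero _))
  rw [eval_mul, eval_prod] at hμ
  have hμ1 := left_ne_zero_of_mul hμ
  have hμt : ∀ j, t j - μ ≠ 0 := by
    intro j h0
    have h1 := Finset.prod_ne_zero_iff.1 (right_ne_zero_of_mul hμ) j (Finset.mem_univ j)
    rw [eval_sub, eval_X, eval_C] at h1
    apply h1
    linear_combination -h0
  obtain ⟨φ', hφ'⟩ : ∃ φ' : Fin N → F[X], φ' = fun i => reflect s (taylor μ (φ i)) := ⟨_, rfl⟩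
  have hev : ∀ (i : Fin N) (τ : F), τ ≠ 0 →
      eval τ⁻¹ (φ' i) * τ ^ s = eval (τ + μ) (φ i) := by
    intro i τ hτ
    have hinv : Invertible τ := invertibleOfNonzero hτ
    have h1 := eval₂_reflect_mul_pow (RingHom.id F) τ s (taylor μ (φ i))
      (by rw [natDegree_taylor]; exact hφ i)
    rw [invOf_eq_inv] at h1
    rw [hφ']
    change eval₂ (RingHom.id F) _ _ * _ = _
    rw [h1]
    change eval τ (taylor μ (φ i)) = _
    rw [taylor_eval]
  have hdeg' : ∀ i, (φ' i).natDegree ≤ s := by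
    intro i
    rw [hφ', natDegree_le_iff_coeff_eq_zero]
    intro k hk
    simp only
    rw [coeff_reflect, revAt_eq_self_of_lt hk]
    exact coeff_eq_zero_of_natDegree_lt (by rw [natDegree_taylor]; exact (hφ i).trans_lt hk)
  obtain ⟨w, hw⟩ : ∃ w : Fin (s + 1) → Fin N → F, w = fun (k : Fin (s + 1)) i => (φ' i).coeff (k : ℕ) :=
    ⟨_, rfl⟩
  have hsum : ∀ (i : Fin N) (τ : F), eval τ (φ' i) = ∑ k : Fin (s + 1), τ ^ (k : ℕ) * w k i := by
    intro i τ
    rw [eval_eq_sum_range' (Nat.lt_succ_of_le (hdeg' i)), Finset.sum_range]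
    refine Finset.sum_congr rfl fun k _ => ?_
    rw [hw, mul_comm]
  have hws : MvPolynomial.aeval (w (Fin.last s)) G ≠ 0 := by
    have h1 : w (Fin.last s) = fun i => eval μ (φ i) := by
      funext i
      rw [hw, hφ']
      simp only [Fin.val_last]
      rw [coeff_reflect, revAt_le le_rfl, Nat.sub_self, taylor_coeff_zero]
    rw [h1, ← eval_aeval]
    exact hμ1
  -- the points outside `q`
  have hout : ∀ j, j ∉ q → ∃ c : F, c ≠ 0 ∧
      z j = ∑ k : Fin (s + 1), (c * ((t j - μ)⁻¹) ^ (k : ℕ)) • w k := by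
    intro j hj
    obtain ⟨c, hc, hc'⟩ := hφt j hj
    refine ⟨c⁻¹ * (t j - μ) ^ s, mul_ne_zero (inv_ne_zero hc) (pow_ne_zero _ (hμt j)), ?_⟩
    funext i
    have h1 := hev i (t j - μ) (hμt j)
    rw [sub_add_cancel, hc' i, hsum] at h1
    rw [Finset.sum_apply]
    simp only [Pi.smul_apply, smul_eq_mul]
    have h2 : z j i = c⁻¹ * (c * z j i) := by
      rw [inv_mul_cancel_left₀ hc]
    rw [h2, ← h1, Finset.sum_mul, Finset.mul_sum]
    refine Finset.sum_congr rfl fun k _ => ?_
    ring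
  obtain ⟨S, hS1, hS2⟩ := Finset.exists_subset_card_eq (s := qᶜ) (n := s + 1) (by omega)
  have hspan1 : Submodule.span F (Set.range z) ≤ Submodule.span F (Set.range w) := by
    rw [← h.span_eq hS2, Submodule.span_le]
    rintro _ ⟨⟨j, hj⟩, rfl⟩
    obtain ⟨c, -, hc⟩ := hout j (Finset.mem_compl.1 (hS1 hj))
    simp only
    rw [hc]
    exact Submodule.sum_mem _ fun k _ => Submodule.smul_mem _ _ (Submodule.subset_span ⟨k, rfl⟩)
  have hind : LinearIndependent F w := by
    rw [linearIndependent_iff_card_eq_finrank_span]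
    apply le_antisymm
    · have h1 := Submodule.finrank_mono hspan1
      rw [h.2] at h1
      rw [Fintype.card_fin]
      exact h1
    · exact finrank_range_le_card w
  have hspan : Submodule.span F (Set.range z) = Submodule.span F (Set.range w) := by
    refine Submodule.eq_of_le_of_finrank_eq hspan1 ?_
    rw [h.2, finrank_span_eq_card hind, Fintype.card_fin]
  obtain ⟨ℓ, hℓ, hℓ'⟩ := exists_dual hind
  have hzw : ∀ j, z j = ∑ k, ℓ k (z j) • w k := fun j => hℓ' _ (by
    rw [← hspan]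
    exact Submodule.subset_span ⟨j, rfl⟩)
  have hrelout : ∀ j, j ∉ q → QRel fun k => ℓ k (z j) := by
    intro j hj
    obtain ⟨c, -, hc⟩ := hout j hj
    have h1 : (fun k => ℓ k (z j)) = fun k : Fin (s + 1) => c * ((t j - μ)⁻¹) ^ (k : ℕ) := by
      funext k
      rw [hc, map_sum, Finset.sum_eq_single k]
      · rw [map_smul, hℓ, if_pos rfl, smul_eq_mul, mul_one]
      · intro k' _ hk'
        rw [map_smul, hℓ, if_neg (Ne.symm hk'), smul_zero]
      · intro h
        exact absurd (Finset.mem_univ k) h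
    rw [h1]
    exact qRel_pow _ _
  have hrel : ∀ j, QRel fun k => ℓ k (z j) := by
    intro j i i' k l hik
    obtain ⟨S', hS1', hS2'⟩ := Finset.exists_subset_card_eq (s := qᶜ) (n := 2 * s + 1) (by omega)
    have h1 := hQ S' hS2' (ℓ i) (ℓ i') (-ℓ k) (ℓ l) (by
      intro j' hj'
      have h2 := hrelout j' (Finset.mem_compl.1 (hS1' hj')) i i' k l hik
      simp only at h2
      rw [LinearMap.neg_apply, h2]
      ring) j
    rw [LinearMap.neg_apply] at h1
    simp only
    linear_combination h1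
  have hz0 : ∀ j, z j ≠ 0 := by
    intro j h0
    obtain ⟨S', hS1', hS2'⟩ := Finset.exists_superset_card_eq (s := {j}) (n := s + 1)
      (by rw [Finset.card_singleton]; omega) (by omega)
    exact (h.1 S' hS2').ne_zero ⟨j, hS1' (Finset.mem_singleton_self j)⟩ h0
  have hy0 : ∀ j, ℓ 0 (z j) ≠ 0 := by
    intro j h0
    have h1 : z j = fun i => ℓ (Fin.last s) (z j) * w (Fin.last s) i := by
      conv_lhs => rw [hzw j]
      rw [Finset.sum_eq_single (Fin.last s)]
      · rfl
      · intro k _ hk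
        have h2 : (k : ℕ) < s := by
          have h3 : (k : ℕ) ≠ s := fun h4 => hk (Fin.ext h4)
          omega
        rw [(hrel j).zero h0 k h2, zero_smul]
      · intro h
        exact absurd (Finset.mem_univ _) h
    have h2 := hGz j
    rw [h1, Pool.Agent.Y988.NT.aeval_smul_form hG] at h2
    have h3 := (mul_eq_zero.1 h2).resolve_right hws
    have h4 : ℓ (Fin.last s) (z j) = 0 := by
      by_contra h5
      exact pow_ne_zero d h5 h3
    apply hz0 j
    rw [h1]
    funext i
    rw [h4, zero_mul]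
    rfl
  have hfin : ∀ j i, z j i = ℓ 0 (z j) * ∑ k : Fin (s + 1),
      (ℓ ⟨1, by omega⟩ (z j) / ℓ 0 (z j)) ^ (k : ℕ) * w k i := by
    intro j i
    conv_lhs => rw [hzw j]
    rw [Finset.sum_apply, Finset.mul_sum]
    refine Finset.sum_congr rfl fun k _ => ?_
    rw [Pi.smul_apply, smul_eq_mul, (hrel j).pow hs (hy0 j) k]
    ring
  refine ⟨{
    w := w
    ind := hind
    t := fun j => ℓ ⟨1, by omega⟩ (z j) / ℓ 0 (z j)
    c := fun j => ℓ 0 (z j)
    c_ne := hy0
    t_inj := fun i j hij => ?_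
    eq := hfin }⟩
  by_contra hne
  refine hy0 j (h.ne_smul hs (by omega) hne (ℓ 0 (z j)) (ℓ 0 (z i)) ?_)
  funext k
  simp only at hij
  rw [Pi.smul_apply, Pi.smul_apply, smul_eq_mul, smul_eq_mul, hfin i k, hfin j k, hij]
  ring

end

end Pool.Agent.Helper37K9.RN
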