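import Pool.Agent.Helper37K9.RN.Inv
import Pool.Agent.Helper37K9.CI.Lines

/-!
Hyperplane sections of a variety covered by rational normal curves.
-/

set_option autoImplicit false
set_option linter.overlappingInstances false
set_option linter.unusedSectionVars false

open Polynomial
open Pool.Agent.W619.PQ (IsUniruled)

namespace Pool.Agent.Helper37K9.RN

section

variable {F : Type} [Field F] [Algebra ℂ F] {N s : ℕ}

/-- the chain rule -/
theorem derivative_aeval (φ : Fin N → F[X]) (G : MvPolynomial (Fin N) ℂ) :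
    derivative (MvPolynomial.aeval φ G) =
      ∑ i, MvPolynomial.aeval φ (MvPolynomial.pderiv i G) * derivative (φ i) := by
  classical
  induction G using MvPolynomial.induction_on with
  | C a =>
    simp only [MvPolynomial.aeval_C, MvPolynomial.pderiv_C, map_zero, zero_mul,
      Finset.sum_const_zero]
    change derivative (C (algebraMap ℂ F a)) = 0
    exact derivative_C
  | add p q hp hq =>
    simp only [map_add, add_mul, Finset.sum_add_distrib, hp, hq]
  | mul_X p j hp =>
    have h1 : ∀ i, MvPolynomial.aeval φ (MvPolynomial.pderiv i (p * MvPolynomial.X j)) *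
        derivative (φ i) = MvPolynomial.aeval φ (MvPolynomial.pderiv i p) * derivative (φ i) * φ j
          + if i = j then MvPolynomial.aeval φ p * derivative (φ j) else 0 := by
      intro i
      rw [Derivation.leibniz, MvPolynomial.pderiv_X, map_add, smul_eq_mul, smul_eq_mul, map_mul,
        map_mul, MvPolynomial.aeval_X]
      by_cases hij : i = j
      · subst hij
        rw [if_pos rfl, Pi.single_eq_same, map_one]
        ring
      · rw [if_neg hij, Pi.single_eq_of_ne (Ne.symm hij), map_zero]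
        ring
    rw [map_mul, MvPolynomial.aeval_X, derivative_mul, hp, Finset.sum_congr rfl fun i _ => h1 i,
      Finset.sum_add_distrib, Finset.sum_ite_eq' Finset.univ j, if_pos (Finset.mem_univ j),
      Finset.sum_mul]

variable {R : Type} [Field R] [Algebra F R]

/-- the point of the curve with parameter `τ`, in affine coordinates -/
noncomputable def pt (w : Fin (s + 1) → Fin N → F) (i0 : Fin N) (τ : R) (i : Fin N) : R :=
  aeval τ (crv w i) / aeval τ (crv w i0)

theorem pt_self {w : Fin (s + 1) → Fin N → F} {i0 : Fin N} {τ : R}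
    (h : aeval τ (crv w i0) ≠ 0) : pt w i0 τ i0 = 1 := div_self h

theorem aff_spec {w : Fin (s + 1) → Fin N → F} {i0 : Fin N} (h0 : crv w i0 ≠ 0) {τ : R}
    (hτ : aeval τ (crv w i0) ≠ 0) {P : MvPolynomial (Fin N) F}
    (hP : MvPolynomial.aeval (aff w i0) P = 0) : MvPolynomial.aeval (pt w i0 τ) P = 0 := by
  obtain ⟨e, P', -, hhom⟩ := exists_homog' P i0
  have hinj : Function.Injective (algebraMap F[X] (RatFunc F)) :=
    IsFractionRing.injective F[X] (RatFunc F)
  have h0' : algebraMap F[X] (RatFunc F) (crv w i0) ≠ 0 := (map_ne_zero_iff _ hinj).2 h0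
  have h1 := hhom (algebraMap F (RatFunc F))
    (fun i => algebraMap F[X] (RatFunc F) (crv w i)) h0'
  have h2 := hhom (algebraMap F R) (fun i => aeval τ (crv w i)) hτ
  have h3 : MvPolynomial.aeval (crv w) P' = 0 := by
    apply hinj
    rw [map_zero]
    have h4 := MvPolynomial.aeval_algebraMap_apply (RatFunc F) (crv w) P'
    rw [← h4]
    change MvPolynomial.eval₂ (algebraMap F (RatFunc F))
      (fun i => algebraMap F[X] (RatFunc F) (crv w i)) P' = 0
    rw [h1]
    change _ * MvPolynomial.aeval (aff w i0) P = 0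
    rw [hP, mul_zero]
  have h5 := MvPolynomial.comp_aeval_apply (φ := (aeval τ : F[X] →ₐ[F] R)) (crv w) P'
  rw [h3, map_zero, MvPolynomial.aeval_def, h2] at h5
  exact (mul_eq_zero.1 h5.symm).resolve_left (pow_ne_zero _ hτ)

theorem exists_bad {w : Fin (s + 1) → Fin N → F} {i0 : Fin N} (h0 : crv w i0 ≠ 0)
    {P : MvPolynomial (Fin N) F} (hP : MvPolynomial.aeval (aff w i0) P ≠ 0) :
    ∃ Q : F[X], Q ≠ 0 ∧ ∀ {R : Type} [Field R] [Algebra F R] (τ : R),
      aeval τ (crv w i0) ≠ 0 → aeval τ Q ≠ 0 → MvPolynomial.aeval (pt w i0 τ) P ≠ 0 := by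
  obtain ⟨e, P', -, hhom⟩ := exists_homog' P i0
  have hinj : Function.Injective (algebraMap F[X] (RatFunc F)) :=
    IsFractionRing.injective F[X] (RatFunc F)
  have h0' : algebraMap F[X] (RatFunc F) (crv w i0) ≠ 0 := (map_ne_zero_iff _ hinj).2 h0
  have h1 := hhom (algebraMap F (RatFunc F))
    (fun i => algebraMap F[X] (RatFunc F) (crv w i)) h0'
  refine ⟨MvPolynomial.aeval (crv w) P', ?_, fun {R} _ _ τ hτ hQ h3 => ?_⟩
  · intro h3
    have h4 := MvPolynomial.aeval_algebraMap_apply (RatFunc F) (crv w) P'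
    rw [h3, map_zero] at h4
    change MvPolynomial.eval₂ (algebraMap F (RatFunc F))
      (fun i => algebraMap F[X] (RatFunc F) (crv w i)) P' = 0 at h4
    rw [h1] at h4
    exact mul_ne_zero (pow_ne_zero _ h0') hP h4
  · have h2 := hhom (algebraMap F R) (fun i => aeval τ (crv w i)) hτ
    have h5 := MvPolynomial.comp_aeval_apply (φ := (aeval τ : F[X] →ₐ[F] R)) (crv w) P'
    apply hQ
    rw [h5, MvPolynomial.aeval_def, h2]
    change _ * MvPolynomial.aeval (pt w i0 τ) P = 0
    rw [h3, mul_zero]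

end

section

variable {L L' : Type} [Field L] [Field L'] [Algebra ℂ L] [Algebra ℂ L'] [Algebra L L']
  [IsScalarTower ℂ L L'] [CharZero L'] {N s : ℕ}

/-- a coordinate which is not constant on the curve -/
theorem exists_nonconst {w : Fin (s + 1) → Fin N → L'} (hw : LinearIndependent L' w) (hs : 1 ≤ s)
    {i0 : Fin N} : ∃ a, ∀ c : L', crv w a ≠ C c * crv w i0 := by
  by_contra hcon
  push Not at hcon
  choose c hc using hcon
  have h1 : ∀ k i, w k i = c i * w k i0 := by
    intro k i
    have h2 : ∀ i, (crv w i).coeff (k : ℕ) = w k i := by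
      intro i
      rw [crv, finsetSum_coeff, Finset.sum_eq_single k]
      · rw [coeff_C_mul, coeff_X_pow, if_pos rfl, mul_one]
      · intro k' _ hk'
        rw [coeff_C_mul, coeff_X_pow, if_neg, mul_zero]
        intro h
        exact hk' (Fin.ext h.symm)
      · intro h
        exact absurd (Finset.mem_univ _) h
    have h3 := congrArg (fun p => p.coeff (k : ℕ)) (hc i)
    simp only [coeff_C_mul, h2] at h3
    exact h3
  have h2 := Fintype.linearIndependent_iff.1 hw
    (fun k => if k = 0 then w ⟨1, by omega⟩ i0 else if k = ⟨1, by omega⟩ then - w 0 i0 else 0) (by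
      funext i
      rw [Finset.sum_apply, Fin.sum_univ_succ]
      have h3 : ∀ k : Fin s, ((if (k.succ : Fin (s + 1)) = 0 then w ⟨1, by omega⟩ i0 else
          if k.succ = ⟨1, by omega⟩ then - w 0 i0 else 0) • w k.succ) i =
          if k = ⟨0, by omega⟩ then - w 0 i0 * w ⟨1, by omega⟩ i else 0 := by
        intro k
        rw [Pi.smul_apply, smul_eq_mul, if_neg (Fin.succ_ne_zero k)]
        by_cases hk : k = ⟨0, by omega⟩
        · subst hk
          have h4 : (⟨0, by omega⟩ : Fin s).succ = (⟨1, by omega⟩ : Fin (s + 1)) := rfl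
          rw [h4, if_pos rfl, if_pos rfl]
        · rw [if_neg hk, if_neg, zero_mul]
          intro h4
          apply hk
          have h5 := congrArg Fin.val h4
          exact Fin.ext (by simpa using h5)
      rw [Finset.sum_congr rfl fun k _ => h3 k, Finset.sum_ite_eq' Finset.univ,
        if_pos (Finset.mem_univ _), if_pos rfl, Pi.smul_apply, smul_eq_mul, Pi.zero_apply,
        h1 ⟨1, by omega⟩ i, h1 0 i]
      ring)
  have h3 := h2 ⟨1, by omega⟩
  rw [if_neg (by intro h; have := congrArg Fin.val h; simp at this), if_pos rfl,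
    neg_eq_zero] at h3
  apply hw.ne_zero 0
  funext i
  rw [h1, h3, mul_zero]
  rfl

/-- **Hyperplane sections.** -/
theorem exists_section [Algebra.EssFiniteType ℂ L] {w : Fin (s + 1) → Fin N → L'}
    (hw : LinearIndependent L' w) (hs : 1 ≤ s) {i0 : Fin N} (hi0 : crv w i0 ≠ 0)
    (hmem : ∀ l : L, algebraMap L (RatFunc L') l ∈
      IntermediateField.adjoin ℂ (Set.range (aff w i0))) {Q : L'[X]} (hQ : Q ≠ 0) :
    ∃ (a : Fin N) (c : ℂ) (τ : AlgebraicClosure L'), a ≠ i0 ∧ aeval τ (crv w i0) ≠ 0 ∧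
      aeval τ (crv w a) = algebraMap ℂ _ c * aeval τ (crv w i0) ∧
      aeval τ (derivative (crv w a)) - algebraMap ℂ _ c * aeval τ (derivative (crv w i0)) ≠ 0 ∧
      aeval τ Q ≠ 0 ∧ ∀ l : L, algebraMap L (AlgebraicClosure L') l ∈
        IntermediateField.adjoin ℂ (Set.range (pt w i0 τ)) := by
  classical
  obtain ⟨a, ha⟩ := exists_nonconst hw hs (i0 := i0)
  have hai : a ≠ i0 := by
    rintro rfl
    exact ha 1 (by rw [C_1, one_mul])
  -- generators of `L`
  obtain ⟨T, hT⟩ := (IntermediateField.fg_top_iff (F := ℂ) (E := L)).2 inferInstance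
  have hgen : ∀ l : L, ∃ Ql : L'[X], Ql ≠ 0 ∧ ∀ τ : AlgebraicClosure L',
      aeval τ (crv w i0) ≠ 0 → aeval τ Ql ≠ 0 → algebraMap L (AlgebraicClosure L') l ∈
        IntermediateField.adjoin ℂ (Set.range (pt w i0 τ)) := by
    intro l
    have h1 := hmem l
    rw [IntermediateField.mem_adjoin_range_iff] at h1
    obtain ⟨A, B, hAB⟩ := h1
    by_cases hB : MvPolynomial.aeval (aff w i0) B = 0
    · rw [hB, div_zero, map_eq_zero] at hAB
      refine ⟨1, one_ne_zero, fun τ _ _ => ?_⟩
      rw [hAB, map_zero]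
      exact zero_mem _
    have hBm : ∀ {R : Type} [Field R] [Algebra L' R] [Algebra ℂ R] [IsScalarTower ℂ L' R]
        (v : Fin N → R) (B : MvPolynomial (Fin N) ℂ),
        MvPolynomial.aeval v (MvPolynomial.map (algebraMap ℂ L') B) = MvPolynomial.aeval v B := by
      intro R _ _ _ _ v B
      rw [MvPolynomial.aeval_map_algebraMap]
    obtain ⟨Ql, hQl, hQl'⟩ := exists_bad (P := MvPolynomial.map (algebraMap ℂ L') B) hi0
      (by rw [hBm]; exact hB)
    refine ⟨Ql, hQl, fun τ hτ hQτ => ?_⟩
    have h2 := hQl' τ hτ hQτ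
    have h3 := aff_spec (P := MvPolynomial.C (algebraMap L L' l) *
      MvPolynomial.map (algebraMap ℂ L') B - MvPolynomial.map (algebraMap ℂ L') A) hi0 hτ (by
        rw [map_sub, map_mul, hBm, hBm, MvPolynomial.aeval_C]
        rw [eq_div_iff hB] at hAB
        rw [← hAB, sub_eq_zero]
        congr 1)
    rw [hBm] at h2
    rw [map_sub, map_mul, hBm, hBm, MvPolynomial.aeval_C, sub_eq_zero,
      ← IsScalarTower.algebraMap_apply] at h3
    rw [IntermediateField.mem_adjoin_range_iff]
    exact ⟨A, B, by rw [eq_div_iff h2, h3]⟩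
  choose Ql hQl hQl' using hgen
  -- the reduced fraction
  obtain ⟨p, hp⟩ : ∃ p, p = crv w a := ⟨_, rfl⟩
  obtain ⟨q, hq⟩ : ∃ q, q = crv w i0 := ⟨_, rfl⟩
  have hq0 : q ≠ 0 := by rwa [hq]
  obtain ⟨g, hg⟩ : ∃ g, g = EuclideanDomain.gcd p q := ⟨_, rfl⟩
  have hg0 : g ≠ 0 := by
    intro h0
    rw [hg] at h0
    exact hq0 (EuclideanDomain.gcd_eq_zero_iff.1 h0).2
  obtain ⟨p1, hp1⟩ : g ∣ p := by rw [hg]; exact EuclideanDomain.gcd_dvd_left _ _
  obtain ⟨q1, hq1⟩ : g ∣ q := by rw [hg]; exact EuclideanDomain.gcd_dvd_right _ _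
  have hcop : IsCoprime p1 q1 := by
    have h1 := EuclideanDomain.gcd_eq_gcd_ab p q
    refine ⟨EuclideanDomain.gcdA p q, EuclideanDomain.gcdB p q, ?_⟩
    apply mul_left_cancel₀ hg0
    rw [mul_one]
    conv_rhs => rw [hg, h1]
    conv_rhs => rw [hp1, hq1]
    have e1 : EuclideanDomain.gcdA p q = EuclideanDomain.gcdA (g * p1) (g * q1) := by
      rw [← hp1, ← hq1]
    have e2 : EuclideanDomain.gcdB p q = EuclideanDomain.gcdB (g * p1) (g * q1) := by
      rw [← hp1, ← hq1]
    rw [e1, e2]
    ring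
  have hq10 : q1 ≠ 0 := by
    rintro rfl
    rw [mul_zero] at hq1
    exact hq0 hq1
  have hnc : ¬ (p1.natDegree = 0 ∧ q1.natDegree = 0) := by
    rintro ⟨h1, h2⟩
    rw [natDegree_eq_zero] at h1 h2
    obtain ⟨c1, hc1⟩ := h1
    obtain ⟨c2, hc2⟩ := h2
    have hc20 : c2 ≠ 0 := by
      rintro rfl
      rw [C_0] at hc2
      exact hq10 hc2.symm
    apply ha (c1 / c2)
    rw [← hp, ← hq, hp1, hq1, ← hc1, ← hc2]
    have h3 : C (c1 / c2) * (g * C c2) = g * C (c1 / c2 * c2) := by
      rw [C_mul]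
      ring
    rw [h3, div_mul_cancel₀ _ hc20]
  -- the Wronskian
  have hW : p * derivative q - derivative p * q ≠ 0 := by
    have h1 : p * derivative q - derivative p * q = g ^ 2 * wronskian p1 q1 := by
      rw [wronskian, hp1, hq1, derivative_mul, derivative_mul]
      ring
    rw [h1]
    refine mul_ne_zero (pow_ne_zero _ hg0) fun h2 => hnc ?_
    obtain ⟨h3, h4⟩ := hcop.wronskian_eq_zero_iff.1 h2
    exact ⟨derivative_eq_zero.1 h3, derivative_eq_zero.1 h4⟩
  obtain ⟨Qt, hQt⟩ : ∃ Qt, Qt = Q * q * (p * derivative q - derivative p * q) * ∏ l ∈ T, Ql l :=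
    ⟨_, rfl⟩
  have hQt0 : Qt ≠ 0 := by
    rw [hQt]
    exact mul_ne_zero (mul_ne_zero (mul_ne_zero hQ hq0) hW) (Finset.prod_ne_zero_iff.2
      fun l _ => hQl l)
  -- the values which are possible
  obtain ⟨S, hS⟩ : ∃ S : Set ℂ, S = {c | (p1 - C (algebraMap ℂ L' c) * q1).natDegree ≠ 0} :=
    ⟨_, rfl⟩
  have hSinf : S.Infinite := by
    have h1 : Sᶜ.Subsingleton := by
      intro c1 hc1 c2 hc2
      rw [hS, Set.mem_compl_iff, Set.mem_ofPred_eq, not_not, natDegree_eq_zero] at hc1 hc2
      obtain ⟨b1, hb1⟩ := hc1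
      obtain ⟨b2, hb2⟩ := hc2
      by_contra hne
      have h2 : algebraMap ℂ L' c2 - algebraMap ℂ L' c1 ≠ 0 := by
        rw [sub_ne_zero]
        exact fun h => hne ((algebraMap ℂ L').injective h.symm)
      have h3 : C (algebraMap ℂ L' c2 - algebraMap ℂ L' c1) * q1 = C (b1 - b2) := by
        rw [C_sub, C_sub, hb1, hb2]
        ring
      have h4 : q1 = C ((b1 - b2) / (algebraMap ℂ L' c2 - algebraMap ℂ L' c1)) := by
        have h5 : C (algebraMap ℂ L' c2 - algebraMap ℂ L' c1) ≠ 0 := C_ne_zero.2 h2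
        apply mul_left_cancel₀ h5
        rw [h3, ← C_mul, mul_div_cancel₀ _ h2]
      have h5 : p1 = C b1 + C (algebraMap ℂ L' c1) * q1 := by
        rw [hb1]
        ring
      apply hnc
      rw [h5, h4, ← C_mul, ← C_add]
      exact ⟨natDegree_C _, natDegree_C _⟩
    have h2 : (Set.univ : Set ℂ).Infinite := Set.infinite_univ
    rw [← Set.union_compl_self S] at h2
    rcases Set.infinite_union.1 h2 with h3 | h3
    · exact h3
    · exact absurd h1.finite h3
  have hroot : ∀ c : S, ∃ τ : AlgebraicClosure L',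
      aeval τ (p1 - C (algebraMap ℂ L' c) * q1) = 0 := by
    rintro ⟨c, hc⟩
    rw [hS, Set.mem_ofPred_eq] at hc
    obtain ⟨τ, hτ⟩ := IsAlgClosed.exists_aeval_eq_zero (AlgebraicClosure L')
      (p1 - C (algebraMap ℂ L' c) * q1) (by
        intro h0
        exact hc (natDegree_eq_of_degree_eq_some h0))
    exact ⟨τ, hτ⟩
  choose τ hτ using hroot
  have hcopτ : ∀ t : AlgebraicClosure L', aeval t p1 = 0 → aeval t q1 = 0 → False := by
    intro t h1 h2
    obtain ⟨u, v, huv⟩ := hcop
    have h3 := congrArg (aeval t) huv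
    rw [map_add, map_mul, map_mul, h1, h2, mul_zero, mul_zero, add_zero, map_one] at h3
    exact zero_ne_one h3
  have hval : ∀ c : S, aeval (τ c) p1 = algebraMap ℂ _ (c : ℂ) * aeval (τ c) q1 := by
    intro c
    have h1 := hτ c
    rw [map_sub, map_mul, aeval_C, sub_eq_zero, ← IsScalarTower.algebraMap_apply] at h1
    exact h1
  have hinj : Function.Injective τ := by
    intro c1 c2 h
    have h1 := hval c1
    have h2 := hval c2
    rw [← h, h1] at h2
    have h3 : aeval (τ c1) q1 ≠ 0 := by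
      intro h4
      exact hcopτ _ (by rw [h1, h4, mul_zero]) h4
    have h4 := mul_right_cancel₀ h3 h2
    exact Subtype.ext ((algebraMap ℂ (AlgebraicClosure L')).injective h4)
  obtain ⟨c, hc⟩ : ∃ c : S, aeval (τ c) Qt ≠ 0 := by
    by_contra hcon
    push Not at hcon
    have h1 : Set.Finite (Set.range τ) := by
      refine (Finset.finite_toSet (Qt.aroots (AlgebraicClosure L')).toFinset).subset ?_
      rintro _ ⟨c, rfl⟩
      rw [Finset.mem_coe, Multiset.mem_toFinset, mem_aroots]
      exact ⟨hQt0, hcon c⟩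
    have h2 : Infinite S := hSinf.to_subtype
    exact (Set.infinite_range_of_injective hinj) h1
  rw [hQt, map_mul, map_mul, map_mul] at hc
  have hc1 := right_ne_zero_of_mul hc
  have hc2 := right_ne_zero_of_mul (left_ne_zero_of_mul hc)
  have hc3 := right_ne_zero_of_mul (left_ne_zero_of_mul (left_ne_zero_of_mul hc))
  have hc4 := left_ne_zero_of_mul (left_ne_zero_of_mul (left_ne_zero_of_mul hc))
  have hpq : aeval (τ c) p = algebraMap ℂ _ (c : ℂ) * aeval (τ c) q := by
    rw [hp1, hq1, map_mul, map_mul, hval]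
    ring
  refine ⟨a, c, τ c, hai, by rw [← hq]; exact hc3, by rw [← hp, ← hq]; exact hpq, ?_, hc4, ?_⟩
  · rw [← hp, ← hq]
    intro h0
    apply hc2
    rw [map_sub, map_mul, map_mul, hpq]
    linear_combination (-aeval (τ c) q) * h0
  · obtain ⟨E, hE⟩ : ∃ E, E = IntermediateField.adjoin ℂ (Set.range (pt w i0 (τ c))) := ⟨_, rfl⟩
    rw [← hE]
    have h1 : IntermediateField.adjoin ℂ (T : Set L) ≤
        E.comap (IsScalarTower.toAlgHom ℂ L (AlgebraicClosure L')) := by
      rw [IntermediateField.adjoin_le_iff]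
      intro l hl
      change algebraMap L (AlgebraicClosure L') l ∈ E
      rw [hE]
      rw [map_prod, Finset.prod_ne_zero_iff] at hc1
      exact hQl' l (τ c) (by rw [← hq]; exact hc3) (hc1 l hl)
    intro l
    have h2 : l ∈ IntermediateField.adjoin ℂ (T : Set L) := by
      rw [hT]
      trivial
    exact h1 h2

end

end Pool.Agent.Helper37K9.RN
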