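import Pool.Agent.Helper37K9.RN.Sect

/-!
Hyperplane sections of a variety covered by rational normal curves: the equations.
-/

set_option autoImplicit false
set_option linter.overlappingInstances false
set_option linter.unusedSectionVars false

open Polynomial Algebra
open Pool.Agent.W619.PQ (IsUniruled)

namespace Pool.Agent.Helper37K9.RN

theorem gen_sub {R : Type} [Field R] [Algebra ℂ R] {m : ℕ} {y : Fin m → R}
    {E : IntermediateField ℂ R} (hE : E = IntermediateField.adjoin ℂ (Set.range y))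
    {yE : Fin m → E} (hyE : ∀ j, (yE j : R) = y j) :
    IntermediateField.adjoin ℂ (Set.range yE) = ⊤ := by
  rw [_root_.eq_top_iff]
  rintro ⟨a, ha⟩ -
  have h1 : E ≤ (IntermediateField.adjoin ℂ (Set.range yE)).map E.val := by
    refine hE.le.trans ?_
    rw [IntermediateField.adjoin_le_iff]
    rintro _ ⟨j, rfl⟩
    exact ⟨yE j, IntermediateField.subset_adjoin _ _ ⟨j, rfl⟩, hyE j⟩
  obtain ⟨b, hb, hab⟩ := h1 ha
  have h2 : b = ⟨a, ha⟩ := Subtype.ext hab
  rw [← h2]
  exact hb

variable {L L' : Type} [Field L] [Field L'] [Algebra ℂ L] [Algebra ℂ L'] [Algebra L L']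
  [IsScalarTower ℂ L L'] [CharZero L'] {n N s : ℕ}

theorem section_thm {κ : Type} [Fintype κ] [DecidableEq κ] [Algebra.EssFiniteType ℂ L]
    [FiniteDimensional L L'] (hL : Algebra.trdeg ℂ L = n)
    {F : κ → MvPolynomial (Fin (N + 1)) ℂ} {d : κ → ℕ} (hd : ∀ k, (F k).IsHomogeneous (d k))
    (k : κ) {w : Fin (s + 1) → Fin (N + 1) → L'} (hw : LinearIndependent L' w) (hs : 1 ≤ s)
    {i0 : Fin (N + 1)} (hi0 : crv w i0 ≠ 0)
    (hmem : ∀ l : L, algebraMap L (RatFunc L') l ∈
      IntermediateField.adjoin ℂ (Set.range (aff w i0)))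
    (hF : ∀ j, j ≠ k → MvPolynomial.aeval (crv w) (F j) = 0)
    (hgr : ∃ S : {j // j ≠ k} → Fin (N + 1), MvPolynomial.aeval (aff w i0)
      (Pool.Agent.TH145.SP.jac (fun j : {j // j ≠ k} => F j) S) ≠ 0) :
    ∃ (M : Type) (_ : Field M) (_ : Algebra ℂ M), Nonempty (L →ₐ[ℂ] M) ∧
      Algebra.trdeg ℂ M = n ∧ ∃ (H : MvPolynomial (Fin (N + 1)) ℂ) (z : Fin (N + 1) → M),
        H.IsHomogeneous 1 ∧ H ≠ 0 ∧ z i0 = 1 ∧ (∃ a, a ≠ i0 ∧ ∃ c : ℂ, z a = algebraMap ℂ M c) ∧
        IntermediateField.adjoin ℂ (Set.range z) = ⊤ ∧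
        (∀ j, MvPolynomial.aeval z (Function.update F k H j) = 0) ∧
        LinearIndependent M fun (j : κ) (l : Fin (N + 1)) =>
          MvPolynomial.aeval z (MvPolynomial.pderiv l (Function.update F k H j)) := by
  classical
  obtain ⟨S, hS⟩ := hgr
  obtain ⟨J, hJ⟩ : ∃ J, J = Pool.Agent.TH145.SP.jac (fun j : {j // j ≠ k} => F j) S := ⟨_, rfl⟩
  rw [← hJ] at hS
  obtain ⟨Q, hQ, hQ'⟩ := exists_bad (P := MvPolynomial.map (algebraMap ℂ L') J) hi0
    (by rw [MvPolynomial.aeval_map_algebraMap]; exact hS)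
  obtain ⟨a, c, τ, hai, hτ0, hτa, hτ', hτQ, hτL⟩ := exists_section hw hs hi0 hmem hQ
  have hJτ := hQ' τ hτ0 hτQ
  rw [MvPolynomial.aeval_map_algebraMap] at hJτ
  obtain ⟨E, hE⟩ : ∃ E, E = IntermediateField.adjoin ℂ (Set.range (pt w i0 τ)) := ⟨_, rfl⟩
  rw [← hE] at hτL
  have hmemE : ∀ i, pt w i0 τ i ∈ E := fun i => by
    rw [hE]
    exact IntermediateField.subset_adjoin _ _ ⟨i, rfl⟩
  obtain ⟨z, hz⟩ : ∃ z : Fin (N + 1) → E, ∀ i, (z i : AlgebraicClosure L') = pt w i0 τ i :=
    ⟨fun i => ⟨_, hmemE i⟩, fun _ => rfl⟩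
  have hzG : ∀ G : MvPolynomial (Fin (N + 1)) ℂ,
      ((MvPolynomial.aeval z G : E) : AlgebraicClosure L') =
        MvPolynomial.aeval (pt w i0 τ) G := by
    intro G
    have h1 := MvPolynomial.comp_aeval_apply (φ := E.val) z G
    have h2 : (fun i => E.val (z i)) = pt w i0 τ := funext hz
    rw [h2] at h1
    exact h1
  -- the curve at the point
  obtain ⟨u, hu⟩ : ∃ u : Fin (N + 1) → AlgebraicClosure L', u = fun i => aeval τ (crv w i) :=
    ⟨_, rfl⟩
  have huG : ∀ G : MvPolynomial (Fin (N + 1)) ℂ, aeval τ (MvPolynomial.aeval (crv w) G) =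
      MvPolynomial.aeval u G := by
    intro G
    have h1 := MvPolynomial.comp_aeval_apply
      (φ := ((aeval τ : L'[X] →ₐ[L'] AlgebraicClosure L').restrictScalars ℂ)) (crv w) G
    rw [hu]
    exact h1
  have hpt : pt w i0 τ = fun i => (u i0)⁻¹ * u i := by
    funext i
    rw [pt, hu]
    simp only
    rw [div_eq_inv_mul]
  have hu0 : u i0 ≠ 0 := by rw [hu]; exact hτ0
  obtain ⟨v, hv⟩ : ∃ v : Fin (N + 1) → AlgebraicClosure L', v = fun i =>
    aeval τ (derivative (crv w i)) := ⟨_, rfl⟩
  have htan : ∀ j, j ≠ k → ∑ l, MvPolynomial.aeval (pt w i0 τ) (MvPolynomial.pderiv l (F j)) *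
      v l = 0 := by
    intro j hj
    have h1 := derivative_aeval (crv w) (F j)
    rw [hF j hj, derivative_zero] at h1
    have h2 := congrArg (aeval τ) h1.symm
    rw [map_zero, map_sum] at h2
    have h3 : ∑ l, MvPolynomial.aeval (pt w i0 τ) (MvPolynomial.pderiv l (F j)) * v l =
        (u i0)⁻¹ ^ (d j - 1) * ∑ l, aeval τ (MvPolynomial.aeval (crv w)
          (MvPolynomial.pderiv l (F j)) * derivative (crv w l)) := by
      rw [Finset.mul_sum]
      refine Finset.sum_congr rfl fun l _ => ?_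
      rw [hpt, Pool.Agent.Y988.NT.aeval_smul_form (hd j).pderiv, map_mul, huG, hv]
      ring
    rw [h3, h2, mul_zero]
  obtain ⟨H, hH⟩ : ∃ H : MvPolynomial (Fin (N + 1)) ℂ,
    H = MvPolynomial.X a - MvPolynomial.C c * MvPolynomial.X i0 := ⟨_, rfl⟩
  have hHhom : H.IsHomogeneous 1 := by
    rw [hH]
    exact (MvPolynomial.isHomogeneous_X ℂ a).sub (MvPolynomial.isHomogeneous_C_mul_X c i0)
  have hH0 : H ≠ 0 := by
    intro h0
    have h1 := congrArg (MvPolynomial.eval (Pi.single a 1 : Fin (N + 1) → ℂ)) h0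
    rw [hH, map_sub, map_mul, MvPolynomial.eval_X, MvPolynomial.eval_X, MvPolynomial.eval_C,
      Pi.single_eq_same, Pi.single_eq_of_ne (Ne.symm hai), mul_zero, sub_zero, map_zero] at h1
    exact one_ne_zero h1
  have hz0 : z i0 = 1 := Subtype.ext (by
    rw [hz]
    exact pt_self hτ0)
  have hza : z a = algebraMap ℂ E c := Subtype.ext (by
    rw [hz, pt, hτa, mul_div_assoc, div_self hτ0, mul_one]
    rfl)
  have hHz : MvPolynomial.aeval z H = 0 := by
    rw [hH, map_sub, map_mul, MvPolynomial.aeval_X, MvPolynomial.aeval_X, MvPolynomial.aeval_C,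
      hz0, hza, mul_one, sub_self]
  have hFz : ∀ j, j ≠ k → MvPolynomial.aeval z (F j) = 0 := by
    intro j hj
    apply Subtype.ext
    rw [hzG, hpt, Pool.Agent.Y988.NT.aeval_smul_form (hd j), ← huG, hF j hj, map_zero, mul_zero]
    rfl
  have hHpd : ∀ l, MvPolynomial.aeval (pt w i0 τ) (MvPolynomial.pderiv l H) =
      (if l = a then 1 else 0) - algebraMap ℂ _ c * (if l = i0 then 1 else 0) := by
    intro l
    rw [hH, map_sub, Derivation.leibniz, MvPolynomial.pderiv_C, smul_zero, add_zero,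
      MvPolynomial.pderiv_X, MvPolynomial.pderiv_X, smul_eq_mul, map_sub, map_mul,
      MvPolynomial.aeval_C]
    congr 1
    · by_cases h : l = a
      · subst h
        rw [if_pos rfl, Pi.single_eq_same, map_one]
      · rw [if_neg h, Pi.single_eq_of_ne (Ne.symm h), map_zero]
    · congr 1
      by_cases h : l = i0
      · subst h
        rw [if_pos rfl, Pi.single_eq_same, map_one]
      · rw [if_neg h, Pi.single_eq_of_ne (Ne.symm h), map_zero]
  have hHtan : ∑ l, MvPolynomial.aeval (pt w i0 τ) (MvPolynomial.pderiv l H) * v l ≠ 0 := by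
    have h1 : ∑ l, MvPolynomial.aeval (pt w i0 τ) (MvPolynomial.pderiv l H) * v l =
        v a - algebraMap ℂ _ c * v i0 := by
      simp only [hHpd, sub_mul, ite_mul, one_mul, zero_mul, mul_ite, mul_one, mul_zero,
        Finset.sum_sub_distrib, Finset.sum_ite_eq', Finset.mem_univ, if_true]
    rw [h1, hv]
    exact hτ'
  have htrΩ : Algebra.trdeg ℂ (AlgebraicClosure L') = n := by
    have h0 : Algebra.IsAlgebraic L (AlgebraicClosure L') :=
      Algebra.IsAlgebraic.trans L L' (AlgebraicClosure L')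
    have h1 := trdeg_add_eq ℂ L (A := AlgebraicClosure L')
    rw [trdeg_eq_zero_iff.2 h0, add_zero, hL] at h1
    exact h1.symm
  obtain ⟨ψ⟩ : Nonempty (L →ₐ[ℂ] E) :=
    ⟨(IsScalarTower.toAlgHom ℂ L (AlgebraicClosure L')).codRestrict E.toSubalgebra
      (fun l => hτL l)⟩
  refine ⟨E, inferInstance, inferInstance, ⟨ψ⟩, ?_, H, z, hHhom, hH0, hz0, ⟨a, hai, c, hza⟩,
    gen_sub hE hz, ?_, ?_⟩
  · apply le_antisymm
    · rw [← htrΩ]
      exact trdeg_le_of_injective E.val E.val.injective
    · rw [← hL]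
      exact trdeg_le_of_injective ψ ψ.injective
  · intro j
    by_cases hj : j = k
    · subst hj
      rw [Function.update_self]
      exact hHz
    · rw [Function.update_of_ne hj]
      exact hFz j hj
  · rw [Fintype.linearIndependent_iff]
    intro g hg
    have h1 : ∀ l, ∑ j, g j * MvPolynomial.aeval z
        (MvPolynomial.pderiv l (Function.update F k H j)) = 0 := by
      intro l
      have h2 := congrFun hg l
      rw [Finset.sum_apply] at h2
      exact h2
    have hgk : g k = 0 := by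
      have h2 : ∀ l, ∑ j, (g j : AlgebraicClosure L') * MvPolynomial.aeval (pt w i0 τ)
          (MvPolynomial.pderiv l (Function.update F k H j)) = 0 := by
        intro l
        have h3 := congrArg E.val (h1 l)
        rw [map_sum, map_zero] at h3
        rw [← h3]
        refine Finset.sum_congr rfl fun j _ => ?_
        rw [map_mul, IntermediateField.coe_val, hzG]
      have h3 : ∑ l, (∑ j, (g j : AlgebraicClosure L') * MvPolynomial.aeval (pt w i0 τ)
          (MvPolynomial.pderiv l (Function.update F k H j))) * v l = 0 :=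
        Finset.sum_eq_zero fun l _ => by rw [h2, zero_mul]
      have h4 : ∑ l, (∑ j, (g j : AlgebraicClosure L') * MvPolynomial.aeval (pt w i0 τ)
          (MvPolynomial.pderiv l (Function.update F k H j))) * v l =
          ∑ j, (g j : AlgebraicClosure L') * ∑ l, MvPolynomial.aeval (pt w i0 τ)
          (MvPolynomial.pderiv l (Function.update F k H j)) * v l := by
        simp only [Finset.sum_mul, Finset.mul_sum]
        rw [Finset.sum_comm]
        exact Finset.sum_congr rfl fun j _ => Finset.sum_congr rfl fun l _ => by ring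
      rw [h4, Finset.sum_eq_single k] at h3
      · rw [Function.update_self] at h3
        exact Subtype.ext ((mul_eq_zero.1 h3).resolve_right hHtan)
      · intro j _ hj
        rw [Function.update_of_ne hj, htan j hj, mul_zero]
      · intro h
        exact absurd (Finset.mem_univ _) h
    have hindz : LinearIndependent E fun (j : {j // j ≠ k}) (l : Fin (N + 1)) =>
        MvPolynomial.aeval z (MvPolynomial.pderiv l (F j)) := by
      refine Pool.Agent.Helper37K9.CI.ind_of_jac (G := fun j : {j // j ≠ k} => F j) (S := S)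
        fun h0 => hJτ ?_
      rw [← hJ] at h0
      rw [← hzG, h0]
      rfl
    have h5 := Fintype.linearIndependent_iff.1 hindz (fun j => g j) (by
      funext l
      rw [Finset.sum_apply]
      have h6 := h1 l
      rw [Fintype.sum_eq_add_sum_subtype_ne _ k, hgk, zero_mul, zero_add] at h6
      rw [Pi.zero_apply, ← h6]
      refine Finset.sum_congr rfl fun j _ => ?_
      rw [Function.update_of_ne j.2]
      rfl)
    intro j
    by_cases hj : j = k
    · rw [hj, hgk]
    · exact h5 ⟨j, hj⟩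

end Pool.Agent.Helper37K9.RN
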