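import Pool.Agent.Helper37K9.RN.Curve

/-!
Points in uniform position which do not impose independent conditions on forms of degree `m`.
-/

set_option autoImplicit false

open Module MvPolynomial

namespace Pool.Agent.Helper37K9.RN

variable {F : Type} [Field F] {ι J : Type} {z : J → ι → F} {s : ℕ}

/-- the points `z j`, `j ∈ S`, impose independent conditions on the forms of degree `a` -/
def Sep (a : ℕ) (z : J → ι → F) (S : Finset J) : Prop :=
  ∀ j ∈ S, ∃ P : MvPolynomial ι F, P.IsHomogeneous a ∧ eval (z j) P ≠ 0 ∧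
    ∀ i ∈ S, i ≠ j → eval (z i) P = 0

theorem Sep.mono {a : ℕ} {S T : Finset J} (h : Sep a z S) (hT : T ⊆ S) : Sep a z T := by
  intro j hj
  obtain ⟨P, hP, hP1, hP2⟩ := h j (hT hj)
  exact ⟨P, hP, hP1, fun i hi hij => hP2 i (hT hi) hij⟩

/-- all sets of at most `k` points impose independent conditions -/
def AllSep (a : ℕ) (z : J → ι → F) (k : ℕ) : Prop := ∀ S : Finset J, S.card ≤ k → Sep a z S

theorem AllSep.mono {a k l : ℕ} (h : AllSep a z k) (hl : l ≤ k) : AllSep a z l :=
  fun S hS => h S (hS.trans hl)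

theorem allSep_zero : AllSep 0 z 1 := by
  intro S hS j hj
  refine ⟨1, isHomogeneous_one _ _, by simp, fun i hi hij => ?_⟩
  exact absurd (Finset.card_le_one.1 hS i hi j hj) hij

theorem AllSep.add {a b k l : ℕ} (h : AllSep a z (k + 1)) (h' : AllSep b z (l + 1)) :
    AllSep (a + b) z (k + l + 1) := by
  classical
  intro S hS j hj
  have h1 : (S.erase j).card ≤ k + l := by
    rw [Finset.card_erase_of_mem hj]
    omega
  obtain ⟨S1, hS1, hS1c⟩ := Finset.exists_subset_card_eq (s := S.erase j)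
    (n := min k (S.erase j).card) (min_le_right _ _)
  have hj1 : j ∉ S1 := fun h2 => Finset.notMem_erase j S (hS1 h2)
  have hS2c : ((S.erase j) \ S1).card ≤ l := by
    rw [Finset.card_sdiff_of_subset hS1, hS1c]
    omega
  have hj2 : j ∉ (S.erase j) \ S1 := fun h2 => Finset.notMem_erase j S (Finset.sdiff_subset h2)
  obtain ⟨P, hP, hP1, hP2⟩ := h (insert j S1) (by
    rw [Finset.card_insert_of_notMem hj1, hS1c]
    omega) j (Finset.mem_insert_self _ _)
  obtain ⟨Q, hQ, hQ1, hQ2⟩ := h' (insert j ((S.erase j) \ S1)) (by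
    rw [Finset.card_insert_of_notMem hj2]
    omega) j (Finset.mem_insert_self _ _)
  refine ⟨P * Q, hP.mul hQ, by rw [map_mul]; exact mul_ne_zero hP1 hQ1, fun i hi hij => ?_⟩
  rw [map_mul]
  by_cases h2 : i ∈ S1
  · rw [hP2 i (Finset.mem_insert_of_mem h2) hij, zero_mul]
  · rw [hQ2 i (Finset.mem_insert_of_mem (Finset.mem_sdiff.2
      ⟨Finset.mem_erase.2 ⟨hij, hi⟩, h2⟩)) hij, mul_zero]

/-- the form defined by a linear functional -/
noncomputable def linForm [Fintype ι] [DecidableEq ι] (f : (ι → F) →ₗ[F] F) : MvPolynomial ι F :=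
  ∑ i, C (f (Pi.single i 1)) * X i

theorem linForm_hom [Fintype ι] [DecidableEq ι] (f : (ι → F) →ₗ[F] F) :
    (linForm f).IsHomogeneous 1 := by
  refine IsHomogeneous.sum _ _ _ fun i _ => ?_
  exact (isHomogeneous_C_mul_X _ _)

theorem eval_linForm [Fintype ι] [DecidableEq ι] (f : (ι → F) →ₗ[F] F) (v : ι → F) :
    eval v (linForm f) = f v := by
  rw [linForm, map_sum]
  conv_rhs => rw [← Finset.univ_sum_single v, map_sum]
  refine Finset.sum_congr rfl fun i _ => ?_
  rw [map_mul, eval_C, eval_X]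
  have h1 : (Pi.single i (v i) : ι → F) = v i • Pi.single i (1 : F) := by
    rw [← Pi.single_smul, smul_eq_mul, mul_one]
  rw [h1, map_smul, smul_eq_mul, mul_comm]

theorem GenPos.allSep [Finite ι] [Fintype J] (h : GenPos (F := F) z s)
    (hcard : s + 1 ≤ Fintype.card J) : AllSep 1 z (s + 1) := by
  classical
  have : Fintype ι := Fintype.ofFinite ι
  intro S hS
  obtain ⟨T, hT1, hT2⟩ := Finset.exists_superset_card_eq hS hcard
  refine Sep.mono ?_ hT1
  obtain ⟨f, hf, -⟩ := h.dual hT2
  intro j hj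
  refine ⟨linForm (f j), linForm_hom _, ?_, fun i hi hij => ?_⟩
  · rw [eval_linForm, hf j hj j hj, if_pos rfl]
    exact one_ne_zero
  · rw [eval_linForm, hf j hj i hi, if_neg hij.symm]

theorem GenPos.allSep' [Finite ι] [Fintype J] (h : GenPos (F := F) z s)
    (hcard : s + 1 ≤ Fintype.card J) (m : ℕ) : AllSep m z (s * m + 1) := by
  induction m with
  | zero => simpa using allSep_zero
  | succ m ih =>
    have h1 := AllSep.add ih (h.allSep hcard)
    convert h1 using 1
    ring

/-- points in uniform position: if some `2 s + 2` of the points impose independent conditions on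
quadrics, then this is so for all `2 s + 2` of the points -/
def Unif (z : J → ι → F) (s : ℕ) : Prop :=
  ∀ S T : Finset J, S.card = 2 * s + 2 → T.card = 2 * s + 2 → Sep 2 z S → Sep 2 z T

theorem fewQ [Finite ι] [Fintype J] (h : GenPos (F := F) z s) (hcard : s + 1 ≤ Fintype.card J)
    (hno : ∀ S : Finset J, S.card = 2 * s + 2 → ¬ Sep 2 z S) : FewQ F z s := by
  classical
  have : Fintype ι := Fintype.ofFinite ι
  intro S hS l₁ m₁ l₂ m₂ hQ j
  by_contra hj
  have hjS : j ∉ S := fun h1 => hj (hQ j h1)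
  obtain ⟨Q, hQh, hQe⟩ : ∃ Q : MvPolynomial ι F, Q.IsHomogeneous 2 ∧
      ∀ j, eval (z j) Q = l₁ (z j) * m₁ (z j) + l₂ (z j) * m₂ (z j) := by
    refine ⟨linForm l₁ * linForm m₁ + linForm l₂ * linForm m₂,
      ((linForm_hom _).mul (linForm_hom _)).add ((linForm_hom _).mul (linForm_hom _)),
      fun j => ?_⟩
    simp only [map_add, map_mul, eval_linForm]
  apply hno (insert j S) (by rw [Finset.card_insert_of_notMem hjS, hS])
  have h2 : AllSep 2 z (s + s + 1) := (h.allSep hcard).add (h.allSep hcard)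
  intro i hi
  by_cases hij : i = j
  · subst hij
    refine ⟨Q, hQh, by rwa [hQe], fun i' hi' hne => ?_⟩
    rw [hQe]
    exact hQ i' (Finset.mem_of_mem_insert_of_ne hi' hne)
  · have hiS : i ∈ S := Finset.mem_of_mem_insert_of_ne hi hij
    obtain ⟨P, hP, hP1, hP2⟩ := h2 S (by omega) i hiS
    have hQj : eval (z j) Q ≠ 0 := by rwa [hQe]
    refine ⟨P - C (eval (z j) P / eval (z j) Q) * Q, ?_, ?_, fun i' hi' hne => ?_⟩
    · refine hP.sub ?_
      have h3 := (isHomogeneous_C ι (eval (z j) P / eval (z j) Q)).mul hQh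
      rwa [zero_add] at h3
    · rw [map_sub, map_mul, eval_C, hQe i, hQ i hiS, mul_zero, sub_zero]
      exact hP1
    · rw [map_sub, map_mul, eval_C]
      by_cases h3 : i' = j
      · subst h3
        field_simp
        ring
      · have h4 : i' ∈ S := Finset.mem_of_mem_insert_of_ne hi' h3
        rw [hP2 i' h4 hne, hQe i', hQ i' h4, mul_zero, sub_zero]

theorem not_sep [Fintype J] [Nonempty J] {m : ℕ} {c : J → F} (hc : ∀ j, c j ≠ 0)
    (hsum : ∀ P : MvPolynomial ι F, P.IsHomogeneous m → ∑ j, c j * eval (z j) P = 0) :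
    ¬ Sep m z Finset.univ := by
  classical
  intro h
  obtain ⟨j⟩ := ‹Nonempty J›
  obtain ⟨P, hP, hP1, hP2⟩ := h j (Finset.mem_univ j)
  have h1 := hsum P hP
  rw [Finset.sum_eq_single j (fun i _ hij => by rw [hP2 i (Finset.mem_univ i) hij, mul_zero])
    (fun h => absurd (Finset.mem_univ j) h)] at h1
  exact mul_ne_zero (hc j) hP1 h1

/-- points in uniform position satisfying a linear relation in degree `m` -/
theorem fewQ_of_relation [Finite ι] [Fintype J] [Nonempty J] (h : GenPos (F := F) z s)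
    (hcard : s + 1 ≤ Fintype.card J) (hcard2 : 2 * s + 2 ≤ Fintype.card J) (hU : Unif z s) {m : ℕ}
    (hm : Fintype.card J ≤ s * m + m / 2 + 1) {c : J → F} (hc : ∀ j, c j ≠ 0)
    (hsum : ∀ P : MvPolynomial ι F, P.IsHomogeneous m → ∑ j, c j * eval (z j) P = 0) :
    FewQ F z s := by
  classical
  refine fewQ h hcard fun S hS hsep => ?_
  have hA2 : AllSep 2 z (2 * s + 1 + 1) := by
    intro T hT
    obtain ⟨T', hT1, hT2⟩ := Finset.exists_superset_card_eq hT (by omega)
    exact Sep.mono (hU S T' hS (by omega) hsep) hT1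
  have hE : ∀ j : ℕ, AllSep (2 * j) z (j * (2 * s + 1) + 1) := by
    intro j
    induction j with
    | zero => simpa using allSep_zero
    | succ j ih =>
      have h1 := AllSep.add ih hA2
      have e1 : 2 * (j + 1) = 2 * j + 2 := by ring
      have e2 : (j + 1) * (2 * s + 1) + 1 = j * (2 * s + 1) + (2 * s + 1) + 1 := by ring
      rw [e1, e2]
      exact h1
  refine not_sep hc hsum ?_
  rcases Nat.even_or_odd' m with ⟨j, rfl | rfl⟩
  · refine (hE j).mono ?_ Finset.univ (by rw [Finset.card_univ])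
    have h1 : 2 * j / 2 = j := by omega
    rw [h1] at hm
    refine hm.trans (le_of_eq ?_)
    ring
  · have h2 := AllSep.add (hE j) (h.allSep hcard)
    refine h2.mono ?_ Finset.univ (by rw [Finset.card_univ])
    have h1 : (2 * j + 1) / 2 = j := by omega
    rw [h1] at hm
    refine hm.trans (le_of_eq ?_)
    ring

end Pool.Agent.Helper37K9.RN
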