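import Pool.Agent.Helper37K9.RN.Cong
import Pool.Agent.Helper37K9.RN.Gal
import Pool.Agent.Helper37K9.RN.NotIn
import Pool.Agent.Helper37K9.RN.Sect2
import Pool.Agent.Helper44K9.RN.Disj
import Pool.Agent.Helper44K9.RN.Ruled

/-!
Fibres on rational normal curves: the structure theorem.
-/

set_option autoImplicit false
set_option linter.overlappingInstances false
set_option linter.unusedSectionVars false

open FF Polynomial Pool.Agent.W602.GT Pool.Agent.W603.LV Pool.Agent.Y184.NT

namespace Pool.Agent.Helper37K9.RN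

section

variable {L K : Type} [Field L] [Field K] [Algebra ℂ L] [Algebra ℂ K] [Algebra L K]
  [IsScalarTower ℂ L K] [FiniteDimensional L K] [hessK : Algebra.EssFiniteType ℂ K]
  {n N m s : ℕ}

/-- the number of the points of a fibre on a rational normal curve -/
theorem card_of_curve (hL : Algebra.trdeg ℂ L = n) {x : Fin N → K}
    {ω : (Fin n → Derivation ℂ K K) → K} (hω : IsPluri 1 ω) (hω0 : ∃ D, ω D ≠ 0)
    (hreg : ∀ (f : Fin m → Fin N) (P : Place ℂ K), Divisorial n P →
      RegAt P (fun D => (∏ k, x (f k)) * ω D))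
    (hpg : ∀ ω : (Fin n → Derivation ℂ L L) → L, IsPluri 1 ω →
      (∀ P : Place ℂ L, Divisorial n P → RegAt P ω) → ∀ D, ω D = 0)
    (D0 : Rnc (AlgebraicClosure L) (pts L (AlgebraicClosure L) x) s) :
    s * m + 1 < Module.finrank L K := by
  classical
  by_contra hcon
  have hcL : CharZero L := charZero_of_injective_algebraMap (algebraMap ℂ L).injective
  obtain ⟨c, hc, hsum⟩ := exists_relation hL hω hω0 hreg hpg (AlgebraicClosure L)
  have hcard : Fintype.card (K →ₐ[L] AlgebraicClosure L) = Module.finrank L K := AlgHom.card L K _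
  have h1 : 0 < Module.finrank L K := Module.finrank_pos
  have : Nonempty (K →ₐ[L] AlgebraicClosure L) := Fintype.card_pos_iff.1 (by omega)
  refine not_sep hc hsum ?_
  exact D0.sep m _ (by rw [Finset.card_univ]; omega)

theorem Rnc.eval_crv {F J : Type} [Field F] {z : J → Fin N → F} (D : Rnc F z s) (j : J)
    (i : Fin N) : eval (D.t j) (crv D.w i) = (D.c j)⁻¹ * z j i := by
  rw [D.eq j i, RN.eval_crv, inv_mul_cancel_left₀ (D.c_ne j)]

theorem Rnc.vanish {F J : Type} [Field F] [Algebra ℂ F] [Fintype J] {z : J → Fin N → F}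
    (D : Rnc F z s) {G : MvPolynomial (Fin N) ℂ} {e : ℕ} (hG : G.IsHomogeneous e)
    (hGz : ∀ j, MvPolynomial.aeval (z j) G = 0) (he : s * e < Fintype.card J) :
    MvPolynomial.aeval (crv D.w) G = 0 :=
  RN.vanish (q := ∅) (natDegree_crv D.w) (fun i j _ _ h => D.t_inj h)
    (fun j _ => ⟨(D.c j)⁻¹, inv_ne_zero (D.c_ne j), D.eval_crv j⟩) hG hGz
    (by rw [Finset.card_empty, add_zero]; exact he)

/-- **The structure theorem.** -/
theorem structure_rnc (hRel : StRel) (hNLG : StNLG) (hW0 : StW0) (hDer : StDer)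
    {κ : Type} [Fintype κ] [DecidableEq κ]
    {F : κ → MvPolynomial (Fin (N + 1)) ℂ} {d : κ → ℕ} (hd : ∀ k, (F k).IsHomogeneous (d k))
    (hdim : n + Fintype.card κ = N) (hn : 1 ≤ n) (hK : Algebra.trdeg ℂ K = n)
    {x : Fin (N + 1) → K} {i0 : Fin (N + 1)} (hi0 : x i0 = 1)
    (hgen : IntermediateField.adjoin ℂ (Set.range x) = ⊤)
    (hx : ∀ k, MvPolynomial.aeval x (F k) = 0)
    (hgr : LinearIndependent K fun (k : κ) (j : Fin (N + 1)) =>
      MvPolynomial.aeval x (MvPolynomial.pderiv j (F k)))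
    {ω : (Fin n → Derivation ℂ K K) → K} (hω : IsPluri 1 ω) (hω0 : ∃ D, ω D ≠ 0)
    (hreg : ∀ (f : Fin m → Fin (N + 1)) (P : Place ℂ K), Divisorial n P →
      RegAt P (fun D => (∏ k, x (f k)) * ω D))
    (hpg : ∀ ω : (Fin n → Derivation ℂ L L) → L, IsPluri 1 ω →
      (∀ P : Place ℂ L, Divisorial n P → RegAt P ω) → ∀ D, ω D = 0) (hs : 1 ≤ s)
    (D0 : Rnc (AlgebraicClosure L) (pts L (AlgebraicClosure L) x) s)
    (hr : 2 * s < Module.finrank L K) (k : κ) (hk : s * d k ≤ Module.finrank L K + (s * m + 1))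
    (hoth : ∀ j, j ≠ k → s * d j < Module.finrank L K) :
    ∃ (M : Type) (_ : Field M) (_ : Algebra ℂ M), Nonempty (L →ₐ[ℂ] M) ∧
      Algebra.trdeg ℂ M = n ∧ ∃ (H : MvPolynomial (Fin (N + 1)) ℂ) (z : Fin (N + 1) → M),
        H.IsHomogeneous 1 ∧ H ≠ 0 ∧ z i0 = 1 ∧ (∃ a, a ≠ i0 ∧ ∃ c : ℂ, z a = algebraMap ℂ M c) ∧
        IntermediateField.adjoin ℂ (Set.range z) = ⊤ ∧
        (∀ j, MvPolynomial.aeval z (Function.update F k H j) = 0) ∧
        LinearIndependent M fun (j : κ) (l : Fin (N + 1)) =>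
          MvPolynomial.aeval z (MvPolynomial.pderiv l (Function.update F k H j)) := by
  classical
  have hL : Algebra.trdeg ℂ L = n := trdeg_below (K := K) hK
  have hessL : Algebra.EssFiniteType ℂ L := Pool.Agent.TH466.QG.ess_below (K := K)
  have hcL : CharZero L := charZero_of_injective_algebraMap (algebraMap ℂ L).injective
  have hcard : Fintype.card (K →ₐ[L] AlgebraicClosure L) = Module.finrank L K := AlgHom.card L K _
  have hrm := card_of_curve hL hω hω0 hreg hpg D0
  have hωr : ∀ P : Place ℂ K, Divisorial n P → RegAt P ω := by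
    intro P hP
    have h1 := hreg (fun _ => i0) P hP
    simp only [hi0, Finset.prod_const_one, one_mul] at h1
    exact h1
  -- the equation which does not vanish on the curve
  have hFk : MvPolynomial.aeval (crv D0.w) (F k) ≠ 0 := by
    intro h0
    obtain ⟨j1, j2, hj⟩ : ∃ j1 j2 : K →ₐ[L] AlgebraicClosure L, j1 ≠ j2 :=
      Fintype.one_lt_card_iff.1 (by omega)
    refine curve_not_in (L := L) hNLG hd hdim hK hi0 hgen hgr hω hω0 hωr (φ := crv D0.w) hj
      ⟨_, _, inv_ne_zero (D0.c_ne j1), D0.eval_crv j1⟩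
      ⟨_, _, inv_ne_zero (D0.c_ne j2), D0.eval_crv j2⟩ fun j => ?_
    by_cases hjk : j = k
    · rw [hjk]
      exact h0
    · exact D0.vanish (hd j) (fun σ => by rw [aeval_pts, hx, map_zero])
        (by rw [hcard]; exact hoth j hjk)
  obtain ⟨D1, hD1⟩ := D0.move hFk
  obtain ⟨L', _, _, _, _, _, _, D, hDk, hsplit, hcard'⟩ := exists_galois (gen_up hgen) D1 hD1
  have hcL' : CharZero L' := charZero_of_injective_algebraMap (algebraMap ℂ L').injective
  obtain ⟨σ0⟩ : Nonempty (K →ₐ[L] L') := Fintype.card_pos_iff.1 (by omega)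
  have hσG : ∀ (σ : K →ₐ[L] L') (G : MvPolynomial (Fin (N + 1)) ℂ),
      MvPolynomial.aeval (pts L L' x σ) G = σ (MvPolynomial.aeval x G) := by
    intro σ G
    have h5 := MvPolynomial.comp_aeval_apply (φ := σ.restrictScalars ℂ) x G
    exact h5.symm
  have hc0 : crv D.w i0 ≠ 0 := by
    intro h0
    have h1 := D.eval_crv σ0 i0
    have h2 : pts L L' x σ0 i0 = 1 := by
      change σ0 (x i0) = 1
      rw [hi0, map_one]
    rw [h0, eval_zero, h2, mul_one] at h1
    exact inv_ne_zero (D.c_ne σ0) h1.symm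
  have hmem : ∀ l : L, algebraMap L (RatFunc L') l ∈
      IntermediateField.adjoin ℂ (Set.range (aff D.w i0)) := fun l =>
    (congR (Pool.Agent.Helper44K9.RN.stRuled hNLG) hRel Pool.Agent.Helper44K9.RN.stDisj hW0 hDer
      hs hn hK hi0 hgen hω hω0 hreg hpg D (by omega) hcard' hsplit (hd k) (hx k) hDk
      (by omega) (by omega) l).2
  refine section_thm hL hd k D.ind hs hc0 hmem (fun j hj => D.vanish (hd j)
    (fun σ => by rw [hσG, hx, map_zero]) (by rw [hcard']; exact hoth j hj)) ?_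
  obtain ⟨S, hS⟩ := Pool.Agent.Helper37K9.CI.exists_jac (G := fun j : {j // j ≠ k} => F j)
    (hgr.comp (fun j : {j // j ≠ k} => (j : κ)) Subtype.val_injective)
  refine ⟨S, fun h0 => hS ?_⟩
  have hτ : aeval (D.t σ0) (crv D.w i0) ≠ 0 := by
    rw [coe_aeval_eq_eval, D.eval_crv]
    have h2 : pts L L' x σ0 i0 = 1 := by
      change σ0 (x i0) = 1
      rw [hi0, map_one]
    rw [h2, mul_one]
    exact inv_ne_zero (D.c_ne σ0)
  have h1 := aff_spec (P := MvPolynomial.map (algebraMap ℂ L')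
    (Pool.Agent.TH145.SP.jac (fun j : {j // j ≠ k} => F j) S)) hc0 hτ
    (by rw [MvPolynomial.aeval_map_algebraMap]; exact h0)
  rw [MvPolynomial.aeval_map_algebraMap] at h1
  have h2 : pt D.w i0 (D.t σ0) = pts L L' x σ0 := by
    funext i
    rw [pt, coe_aeval_eq_eval, D.eval_crv, D.eval_crv]
    have h2 : pts L L' x σ0 i0 = 1 := by
      change σ0 (x i0) = 1
      rw [hi0, map_one]
    rw [h2, mul_one, mul_div_cancel_left₀ _ (inv_ne_zero (D.c_ne σ0))]
  rw [h2, hσG] at h1
  exact (map_eq_zero σ0).1 h1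

end

end Pool.Agent.Helper37K9.RN
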